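import Mathlib

set_option autoImplicit false

namespace Pool.Agent.Lib.MP_4223bd_al

/-! Finite q-series identities: Durfee rectangle, q-Vandermonde, and the fork identity. -/

variable {K : Type*} [Field K]

def Good (q : K) : Prop := q ≠ 0 ∧ ∀ k : ℕ, 1 - q ^ (k + 1) ≠ 0

def pq (q : K) (n : ℕ) : K := ∏ j ∈ Finset.range n, (1 - q ^ (j + 1))

def pz (q : K) (n : ℤ) : K := pq q n.toNat

def io (q : K) (n : ℤ) : K := if 0 ≤ n then (pz q n)⁻¹ else 0

variable {q : K}

lemma pq_ne (hq : Good q) (n : ℕ) : pq q n ≠ 0 :=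
  Finset.prod_ne_zero_iff.mpr fun j _ => hq.2 j

lemma pz_ne (hq : Good q) (n : ℤ) : pz q n ≠ 0 := pq_ne hq _

lemma io_neg {n : ℤ} (h : n < 0) : io q n = 0 := by simp [io, not_le.mpr h]

lemma nonneg_of_io {n : ℤ} (h : io q n ≠ 0) : 0 ≤ n := by
  by_contra h'
  exact h (io_neg (not_le.mp h'))

@[simp] lemma pz_zero : pz q 0 = 1 := by simp [pz, pq]

@[simp] lemma io_zero : io q 0 = 1 := by simp [io]

lemma pz_mul_io (hq : Good q) {n : ℤ} (h : 0 ≤ n) : pz q n * io q n = 1 := by
  simp [io, h, pz_ne hq n]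

lemma pz_step {n : ℤ} (h : 0 < n) : pz q n = pz q (n - 1) * (1 - q ^ n) := by
  obtain ⟨k, rfl⟩ : ∃ k : ℕ, n = k + 1 := ⟨(n - 1).toNat, by omega⟩
  have e1 : ((k : ℤ) + 1).toNat = k + 1 := by omega
  have e2 : ((k : ℤ) + 1 - 1).toNat = k := by omega
  rw [pz, pz, e1, e2, pq, Finset.prod_range_succ, pq]
  norm_cast

lemma one_sub_ne (hq : Good q) {n : ℤ} (h : 0 < n) : 1 - q ^ n ≠ 0 := by
  obtain ⟨k, rfl⟩ : ∃ k : ℕ, n = k + 1 := ⟨(n - 1).toNat, by omega⟩
  exact_mod_cast hq.2 k

lemma io_step (hq : Good q) (n : ℤ) : io q (n - 1) = (1 - q ^ n) * io q n := by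
  rcases lt_trichotomy n 0 with h | h | h
  · rw [io_neg h, io_neg (by omega), mul_zero]
  · subst h; rw [io_neg (by omega)]; simp
  · have h1 := one_sub_ne hq h
    have h2 := pz_ne hq (n - 1)
    rw [io, io, if_pos (by omega), if_pos h.le, pz_step h]
    field_simp

lemma zp (hq : Good q) {a b c : ℤ} (h : a = b + c) : q ^ a = q ^ b * q ^ c := by
  rw [h, zpow_add₀ hq.1]

lemma zp2 (hq : Good q) {a b c d : ℤ} (h : a + b = c + d) : q ^ a * q ^ b = q ^ c * q ^ d := by
  rw [← zpow_add₀ hq.1, ← zpow_add₀ hq.1, h]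

lemma prod_zp (hq : Good q) {ι : Type*} (s : Finset ι) (f : ι → ℤ) :
    ∏ i ∈ s, q ^ f i = q ^ ∑ i ∈ s, f i := by
  classical
  induction s using Finset.induction_on with
  | empty => simp
  | insert a s ha ih => rw [Finset.prod_insert ha, Finset.sum_insert ha, ih, zpow_add₀ hq.1]

lemma sum_transfer (f : ℤ → K) (n : ℤ) (I : Finset ℤ) (e : ℤ ≃ ℤ)
    (h1 : ∀ g, f g ≠ 0 → 0 ≤ g ∧ g ≤ n) (h2 : ∀ k, f (e k) ≠ 0 → k ∈ I) :
    ∑ k ∈ I, f (e k) = ∑ j ∈ Finset.range (n.toNat + 1), f j := by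
  refine Finset.sum_bij_ne_zero (fun k _ _ => (e k).toNat) ?_ ?_ ?_ ?_
  · intro k _ hk
    have := h1 _ hk
    rw [Finset.mem_range]; omega
  · intro a _ ha b _ hb h
    have := h1 _ ha
    have := h1 _ hb
    apply e.injective
    omega
  · intro j _ hj
    have hj' : f (e (e.symm j)) ≠ 0 := by rwa [e.apply_symm_apply]
    exact ⟨e.symm j, h2 _ hj', hj', by simp⟩
  · intro k _ hk
    rw [Int.toNat_of_nonneg (h1 _ hk).1]

lemma durfee_nat (hq : Good q) (m : ℤ) (n : ℕ) :
    ∑ j ∈ Finset.range (n + 1), q ^ ((m - j) * (n - j)) * io q j * io q (m - j) * io q (n - j) =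
      io q m * io q n := by
  induction n with
  | zero => simp
  | succ n ih =>
    have hne := one_sub_ne hq (n := ((n + 1 : ℕ) : ℤ)) (by positivity)
    apply mul_left_cancel₀ hne
    have e0 : io q (n : ℤ) = (1 - q ^ ((n + 1 : ℕ) : ℤ)) * io q ((n + 1 : ℕ) : ℤ) := by
      rw [← io_step hq]; congr 1; push_cast; ring
    have e1 : ∀ j : ℕ, (1 - q ^ ((n + 1 : ℕ) : ℤ)) *
        (q ^ ((m - j) * ((n + 1 : ℕ) - j)) * io q j * io q (m - j) * io q ((n + 1 : ℕ) - j)) =
        q ^ ((m - j) * ((n : ℤ) + 1 - j)) * io q j * io q (m - j) * io q (n - j) +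
        q ^ ((m - j + 1) * ((n : ℤ) + 1 - j)) * io q (j - 1) * io q (m - j) *
          io q ((n : ℤ) + 1 - j) := by
      intro j
      push_cast
      rw [io_step hq j, show (n : ℤ) - j = (n + 1 - j) - 1 by ring, io_step hq,
        zp hq (show (m - j + 1) * ((n : ℤ) + 1 - j) = (m - j) * (n + 1 - j) + (n + 1 - j) by ring),
        zp hq (show (n : ℤ) + 1 = (n + 1 - j) + j by ring)]
      ring
    rw [Finset.mul_sum, Finset.sum_congr rfl fun j _ => e1 j, Finset.sum_add_distrib,
      Finset.sum_range_succ _ (n + 1), Finset.sum_range_succ' _ (n + 1),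
      io_neg (n := (n : ℤ) - (n + 1 : ℕ)) (by omega),
      io_neg (n := ((0 : ℕ) : ℤ) - 1) (by omega)]
    simp only [mul_zero, zero_mul, add_zero]
    rw [← Finset.sum_add_distrib, mul_left_comm, ← e0, ← ih]
    refine Finset.sum_congr rfl fun j _ => ?_
    push_cast
    rw [show m - (j + 1) = (m - j) - 1 by ring, io_step hq (m - j),
      show (n : ℤ) + 1 - (j + 1) = n - j by ring, show (j : ℤ) + 1 - 1 = j by ring,
      show m - j - 1 + 1 = m - j by ring,
      zp hq (show (m - j) * ((n : ℤ) + 1 - j) = (m - j) * (n - j) + (m - j) by ring)]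
    ring

lemma durfee_gen (hq : Good q) (m n : ℤ) (I : Finset ℤ) (e : ℤ ≃ ℤ)
    (hI : ∀ k, 0 ≤ e k → e k ≤ m → e k ≤ n → k ∈ I) :
    ∑ k ∈ I, q ^ ((m - e k) * (n - e k)) * io q (e k) * io q (m - e k) * io q (n - e k) =
      io q m * io q n := by
  have sup : ∀ g, q ^ ((m - g) * (n - g)) * io q g * io q (m - g) * io q (n - g) ≠ 0 →
      0 ≤ g ∧ g ≤ m ∧ g ≤ n := by
    intro g hg
    simp only [ne_eq, mul_eq_zero, not_or] at hg
    have a1 := nonneg_of_io hg.1.1.2
    have a2 := nonneg_of_io hg.1.2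
    have a3 := nonneg_of_io hg.2
    omega
  rcases lt_or_ge n 0 with hn | hn
  · rw [io_neg hn, mul_zero]
    apply Finset.sum_eq_zero
    intro k _
    by_contra h
    have := sup _ h
    omega
  · rw [sum_transfer (fun g => q ^ ((m - g) * (n - g)) * io q g * io q (m - g) * io q (n - g)) n I e
      (fun g hg => ⟨(sup g hg).1, (sup g hg).2.2⟩)
      (fun k hk => hI k (sup _ hk).1 (sup _ hk).2.1 (sup _ hk).2.2)]
    have := durfee_nat hq m n.toNat
    rwa [Int.toNat_of_nonneg hn] at this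

lemma durfee1 (hq : Good q) {lo hi : ℤ} (a g g' : ℤ) (h1 : lo ≤ g) (h2 : a ≤ hi) :
    ∑ k ∈ Finset.Icc lo hi, q ^ ((k - g) * (k - g')) * io q (a - k) * io q (k - g) * io q (k - g') =
      io q (a - g) * io q (a - g') := by
  rw [← durfee_gen hq (a - g) (a - g') (Finset.Icc lo hi) (Equiv.subLeft a) (by
    intro k; simp only [Equiv.subLeft_apply, Finset.mem_Icc]; omega)]
  refine Finset.sum_congr rfl fun k _ => ?_
  simp only [Equiv.subLeft_apply, sub_sub_sub_cancel_left]

lemma durfee2 (hq : Good q) {lo hi : ℤ} (b g g' : ℤ) (h1 : lo ≤ b) (h2 : g ≤ hi) :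
    ∑ k ∈ Finset.Icc lo hi, q ^ ((g - k) * (g' - k)) * io q (k - b) * io q (g - k) * io q (g' - k) =
      io q (g - b) * io q (g' - b) := by
  rw [← durfee_gen hq (g - b) (g' - b) (Finset.Icc lo hi) (Equiv.subRight b) (by
    intro k; simp only [Equiv.subRight_apply, Finset.mem_Icc]; omega)]
  refine Finset.sum_congr rfl fun k _ => ?_
  simp only [Equiv.subRight_apply, sub_sub_sub_cancel_right]

lemma vander_nat (hq : Good q) (x : ℕ) : ∀ y d : ℤ,
    ∑ g ∈ Finset.range (x + 1),
      q ^ ((g : ℤ) * (g - d)) * io q (x - g) * io q (y - g) * io q g * io q (g - d) =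
      pz q (x + y - d) * io q x * io q (y - d) * io q (x - d) * io q y := by
  induction x with
  | zero =>
    intro y d
    simp only [zero_add, Finset.range_one, Finset.sum_singleton, Nat.cast_zero, zero_mul, zpow_zero,
      sub_zero, io_zero, mul_one, one_mul, zero_sub]
    rcases lt_or_ge (y - d) 0 with h | h
    · rcases lt_or_ge y 0 with h' | h'
      · rw [io_neg h']; simp
      · rw [io_neg (n := -d) (by omega)]; simp
    · rw [pz_mul_io hq h, neg_zero, io_zero]; ring
  | succ x ih =>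
    intro y d
    have hne := one_sub_ne hq (n := ((x + 1 : ℕ) : ℤ)) (by positivity)
    apply mul_left_cancel₀ hne
    have e0 : io q (x : ℤ) = (1 - q ^ ((x + 1 : ℕ) : ℤ)) * io q ((x + 1 : ℕ) : ℤ) := by
      rw [← io_step hq]; congr 1; push_cast; ring
    have e1 : ∀ g : ℕ, (1 - q ^ ((x + 1 : ℕ) : ℤ)) *
        (q ^ ((g : ℤ) * (g - d)) * io q ((x + 1 : ℕ) - g) * io q (y - g) * io q g * io q (g - d)) =
        q ^ ((g : ℤ) * (g - d)) * io q (x - g) * io q (y - g) * io q g * io q (g - d) +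
        q ^ ((g : ℤ) * (g - d) + (x + 1 - g)) * io q (x + 1 - g) * io q (y - g) * io q (g - 1) *
          io q (g - d) := by
      intro g
      push_cast
      rw [io_step hq g, show (x : ℤ) - g = (x + 1 - g) - 1 by ring, io_step hq,
        zpow_add₀ hq.1 (g * (g - d)),
        zp hq (show (x : ℤ) + 1 = (x + 1 - g) + g by ring)]
      ring
    rw [Finset.mul_sum, Finset.sum_congr rfl fun j _ => e1 j, Finset.sum_add_distrib,
      Finset.sum_range_succ _ (x + 1), Finset.sum_range_succ' _ (x + 1),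
      io_neg (n := (x : ℤ) - (x + 1 : ℕ)) (by omega),
      io_neg (n := ((0 : ℕ) : ℤ) - 1) (by omega)]
    simp only [mul_zero, zero_mul, add_zero]
    have e2 : ∀ g : ℕ, q ^ (((g + 1 : ℕ) : ℤ) * ((g + 1 : ℕ) - d) + (x + 1 - (g + 1 : ℕ))) *
        io q (x + 1 - (g + 1 : ℕ)) * io q (y - (g + 1 : ℕ)) * io q ((g + 1 : ℕ) - 1) *
          io q ((g + 1 : ℕ) - d) =
        q ^ ((x : ℤ) + 1 - d) * (q ^ ((g : ℤ) * (g - (d - 1))) * io q (x - g) * io q (y - 1 - g) *
          io q g * io q (g - (d - 1))) := by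
      intro g
      push_cast
      rw [zp hq (show ((g : ℤ) + 1) * (g + 1 - d) + (x + 1 - (g + 1)) =
          (x + 1 - d) + g * (g - (d - 1)) by ring),
        show (x : ℤ) + 1 - (g + 1) = x - g by ring, show y - (g + 1) = y - 1 - g by ring,
        show (g : ℤ) + 1 - 1 = g by ring, show (g : ℤ) + 1 - d = g - (d - 1) by ring]
      ring
    rw [Finset.sum_congr rfl fun j _ => e2 j, ← Finset.mul_sum, ih, ih]
    have e3 : (1 - q ^ ((x + 1 : ℕ) : ℤ)) * (pz q ((x + 1 : ℕ) + y - d) * io q (x + 1 : ℕ) *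
        io q (y - d) * io q ((x + 1 : ℕ) - d) * io q y) =
        pz q (x + 1 + y - d) * io q x * io q (y - d) * io q (x + 1 - d) * io q y := by
      rw [e0]; push_cast; ring
    rw [e3, show (x : ℤ) + (y - 1) - (d - 1) = x + y - d by ring,
      show y - 1 - (d - 1) = y - d by ring, show (x : ℤ) - (d - 1) = x + 1 - d by ring,
      show (x : ℤ) - d = (x + 1 - d) - 1 by ring, io_step hq, io_step hq]
    rcases lt_or_ge 0 (x + 1 + y - d) with h | h
    · rw [pz_step h, show (x : ℤ) + 1 + y - d - 1 = x + y - d by ring,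
        zp hq (show (x : ℤ) + 1 + y - d = (x + 1 - d) + y by ring)]
      ring
    · rcases lt_or_ge y 0 with h1 | h1
      · rw [io_neg h1]; simp
      · rcases lt_or_ge (x + 1 - d) 0 with h2 | h2
        · rw [io_neg h2]; simp
        · rw [io_neg (n := y - d) (by omega)]; simp

lemma vander_gen (hq : Good q) (x y d : ℤ) (I : Finset ℤ) (e : ℤ ≃ ℤ)
    (hI : ∀ k, 0 ≤ e k → d ≤ e k → e k ≤ x → e k ≤ y → k ∈ I) :
    ∑ k ∈ I, q ^ (e k * (e k - d)) * io q (x - e k) * io q (y - e k) * io q (e k) *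
      io q (e k - d) = pz q (x + y - d) * io q x * io q (y - d) * io q (x - d) * io q y := by
  have sup : ∀ g, q ^ (g * (g - d)) * io q (x - g) * io q (y - g) * io q g * io q (g - d) ≠ 0 →
      0 ≤ g ∧ d ≤ g ∧ g ≤ x ∧ g ≤ y := by
    intro g hg
    simp only [ne_eq, mul_eq_zero, not_or] at hg
    have a1 := nonneg_of_io hg.1.1.1.2
    have a2 := nonneg_of_io hg.1.1.2
    have a3 := nonneg_of_io hg.1.2
    have a4 := nonneg_of_io hg.2
    omega
  rcases lt_or_ge x 0 with hn | hn
  · rw [io_neg hn]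
    simp only [mul_zero, zero_mul]
    apply Finset.sum_eq_zero
    intro k _
    by_contra h
    have := sup _ h
    omega
  · rw [sum_transfer
      (fun g => q ^ (g * (g - d)) * io q (x - g) * io q (y - g) * io q g * io q (g - d)) x I e
      (fun g hg => ⟨(sup g hg).1, (sup g hg).2.2.1⟩)
      (fun k hk => hI k (sup _ hk).1 (sup _ hk).2.1 (sup _ hk).2.2.1 (sup _ hk).2.2.2)]
    have := vander_nat hq x.toNat y d
    rwa [Int.toNat_of_nonneg hn] at this

/-- The edge kernel. -/
def EE (q : K) (a a' b b' : ℤ) : K :=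
  pz q (a + a' - (b + b')) * io q (a - b) * io q (a' - b') * io q (a - b') * io q (a' - b)

lemma vander1 (hq : Good q) {lo hi : ℤ} (a a' b b' : ℤ) (h1 : lo ≤ b') (h2 : a' ≤ hi) :
    EE q a a' b b' = ∑ k ∈ Finset.Icc lo hi, q ^ ((k - b) * (k - b')) *
      io q (a - k) * io q (a' - k) * io q (k - b) * io q (k - b') := by
  have := vander_gen hq (a - b) (a' - b) (b' - b) (Finset.Icc lo hi) (Equiv.subRight b) (by
    intro k; simp only [Equiv.subRight_apply, Finset.mem_Icc]; omega)
  simp only [Equiv.subRight_apply, sub_sub_sub_cancel_right] at this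
  rw [this, EE, show a - b + (a' - b) - (b' - b) = a + a' - (b + b') by ring]

lemma vander2 (hq : Good q) {lo hi : ℤ} (a a' b b' : ℤ) (h1 : lo ≤ b') (h2 : a' ≤ hi) :
    EE q a a' b b' = ∑ k ∈ Finset.Icc lo hi, q ^ ((a - k) * (a' - k)) *
      io q (a - k) * io q (a' - k) * io q (k - b) * io q (k - b') := by
  have := vander_gen hq (a - b) (a - b') (a - a') (Finset.Icc lo hi) (Equiv.subLeft a) (by
    intro k; simp only [Equiv.subLeft_apply, Finset.mem_Icc]; omega)
  simp only [Equiv.subLeft_apply, sub_sub_sub_cancel_left] at this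
  rw [EE, show a + a' - (b + b') = a - b + (a - b') - (a - a') by ring]
  refine Eq.trans (by ring) (this.symm.trans (Finset.sum_congr rfl fun k _ => by ring))

/-- The common value of the two sides of the fork identity. -/
noncomputable def FF (q : K) (lo hi a0 a1 b0 b1 c : ℤ) : K :=
  ∑ u ∈ Finset.Icc lo hi, ∑ z ∈ Finset.Icc lo hi, q ^ (u * u - c * u) * q ^ (z * z - c * z) *
    io q (u - b0) * io q (u - b1) * io q (z - u) * io q (a0 - z) * io q (a1 - z)

lemma forkL (hq : Good q) {lo hi : ℤ} (a0 a1 b0 b1 c : ℤ) (h1 : lo ≤ b1) (h2 : a0 ≤ hi)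
    (h3 : a1 ≤ hi) :
    ∑ x ∈ Finset.Icc lo hi, ∑ y ∈ Finset.Icc lo hi, q ^ (x * x - c * x) * q ^ (y * y - c * y) *
      EE q x y b0 b1 * io q (a0 - x) * io q (a1 - y) * io q (x + y - c) =
      io q (a0 + a1 - c) * FF q lo hi a0 a1 b0 b1 c := by
  set I := Finset.Icc lo hi with hI
  calc _ = ∑ x ∈ I, ∑ y ∈ I, ∑ u ∈ I,
        (q ^ (y * y - c * y) * q ^ (u * u - c * u) * io q (y - u) * io q (u - b0) * io q (u - b1) *
          io q (a1 - y)) * (q ^ ((x - u) * (x - (c - y))) * io q (a0 - x) * io q (x - u) *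
          io q (x - (c - y))) := by
        refine Finset.sum_congr rfl fun x _ => Finset.sum_congr rfl fun y hy => ?_
        rw [vander2 hq x y b0 b1 h1 (Finset.mem_Icc.mp hy).2]
        simp only [Finset.mul_sum, Finset.sum_mul]
        refine Finset.sum_congr rfl fun u _ => ?_
        have := zp2 hq (show x * x - c * x + (x - u) * (y - u) =
          u * u - c * u + (x - u) * (x - (c - y)) by ring)
        rw [show x - (c - y) = x + y - c by ring] at this ⊢
        linear_combination (q ^ (y * y - c * y) * io q (x - u) * io q (y - u) * io q (u - b0) *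
          io q (u - b1) * io q (a0 - x) * io q (a1 - y) * io q (x + y - c)) * this
    _ = ∑ y ∈ I, ∑ u ∈ I, ∑ z ∈ I,
        (q ^ (u * u - c * u) * q ^ (z * z - c * z) * io q (u - b0) * io q (u - b1) * io q (z - u) *
          io q (a0 - z)) * (q ^ ((y - z) * (y - (c - a0))) * io q (a1 - y) * io q (y - z) *
          io q (y - (c - a0))) := by
        rw [Finset.sum_comm]
        refine Finset.sum_congr rfl fun y _ => ?_
        rw [Finset.sum_comm]
        refine Finset.sum_congr rfl fun u hu => ?_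
        rw [← Finset.mul_sum, durfee1 hq a0 u (c - y) (Finset.mem_Icc.mp hu).1 h2]
        have hz := durfee2 hq u a0 y (Finset.mem_Icc.mp hu).1 h2
        calc _ = (q ^ (y * y - c * y) * q ^ (u * u - c * u) * io q (u - b0) * io q (u - b1) *
              io q (a1 - y) * io q (a0 - (c - y))) * (io q (a0 - u) * io q (y - u)) := by ring
          _ = _ := by
            rw [← hz, Finset.mul_sum]
            refine Finset.sum_congr rfl fun z _ => ?_
            have := zp2 hq (show y * y - c * y + (a0 - z) * (y - z) =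
              z * z - c * z + (y - z) * (y - (c - a0)) by ring)
            rw [show a0 - (c - y) = y - (c - a0) by ring]
            linear_combination (q ^ (u * u - c * u) * io q (u - b0) * io q (u - b1) *
              io q (a1 - y) * io q (y - (c - a0)) * io q (z - u) * io q (a0 - z) *
              io q (y - z)) * this
    _ = _ := by
        rw [Finset.sum_comm, FF, Finset.mul_sum]
        refine Finset.sum_congr rfl fun u _ => ?_
        rw [Finset.sum_comm, Finset.mul_sum]
        refine Finset.sum_congr rfl fun z hz => ?_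
        rw [← Finset.mul_sum, durfee1 hq a1 z (c - a0) (Finset.mem_Icc.mp hz).1 h3,
          show a1 - (c - a0) = a0 + a1 - c by ring]
        ring

lemma sum_neg (lo hi : ℤ) (f : ℤ → K) :
    ∑ x ∈ Finset.Icc (-hi) (-lo), f x = ∑ x ∈ Finset.Icc lo hi, f (-x) := by
  refine Finset.sum_equiv (Equiv.neg ℤ) (fun x => ?_) (fun x _ => by simp)
  simp only [Finset.mem_Icc, Equiv.neg_apply]; omega

lemma forkR (hq : Good q) {lo hi : ℤ} (a0 a1 b0 b1 c : ℤ) (h1 : a1 ≤ hi) (h2 : lo ≤ b0)
    (h3 : lo ≤ b1) :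
    ∑ x ∈ Finset.Icc lo hi, ∑ y ∈ Finset.Icc lo hi, q ^ (x * x - c * x) * q ^ (y * y - c * y) *
      EE q a0 a1 x y * io q (x - b0) * io q (y - b1) * io q (c - (x + y)) =
      io q (c - (b0 + b1)) * FF q lo hi a0 a1 b0 b1 c := by
  have := forkL hq (lo := -hi) (hi := -lo) (-b0) (-b1) (-a0) (-a1) (-c) (by omega) (by omega)
    (by omega)
  simp only [FF, sum_neg] at this
  rw [FF, Finset.sum_comm (s := Finset.Icc lo hi) (t := Finset.Icc lo hi)
    (f := fun u z => q ^ (u * u - c * u) * q ^ (z * z - c * z) *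
    io q (u - b0) * io q (u - b1) * io q (z - u) * io q (a0 - z) * io q (a1 - z))]
  convert this using 2
  · refine Finset.sum_congr rfl fun y _ => ?_
    simp only [EE]
    ring_nf
  · ring_nf
  · refine Finset.sum_congr rfl fun y _ => Finset.sum_congr rfl fun z _ => ?_
    ring_nf

end Pool.Agent.Lib.MP_4223bd_al
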