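import Mathlib
import Pool.Agent.Lib.MP_4223bd_al.QId

set_option autoImplicit false

namespace Pool.Agent.Lib.MP_4223bd_al

/-! The kernel for the diagram `D (m+2)` (fork vertices `x, y`, tail `t`) and the
intertwining identity. -/

variable {K : Type*} [Field K] {q : K} {m : ℕ}

def tau (x y : ℤ) (t : Fin m → ℤ) : Fin (m + 1) → ℤ := Fin.cons (x + y) t

def cb (c : Fin m → ℤ) : Fin (m + 1) → ℤ := Fin.snoc (α := fun _ => ℤ) c 0

@[simp] lemma tau_zero (x y : ℤ) (t : Fin m → ℤ) : tau x y t 0 = x + y := rfl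
@[simp] lemma tau_succ (x y : ℤ) (t : Fin m → ℤ) (j : Fin m) : tau x y t j.succ = t j := rfl
@[simp] lemma cb_cast (c : Fin m → ℤ) (j : Fin m) : cb c j.castSucc = c j := by simp [cb]
@[simp] lemma cb_last (c : Fin m → ℤ) : cb c (Fin.last m) = 0 := by simp [cb]

def hD (x y : ℤ) (t : Fin m → ℤ) : ℤ :=
  x * x + y * y + ∑ j, (t j * t j - tau x y t j.castSucc * t j)

def ker (q : K) (a0 a1 : ℤ) (a : Fin m → ℤ) (b0 b1 : ℤ) (b : Fin m → ℤ) : K :=
  EE q a0 a1 b0 b1 *
    (∏ j, EE q (tau a0 a1 a j.castSucc) (a j) (tau b0 b1 b j.castSucc) (b j)) *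
    (io q (tau a0 a1 a (Fin.last m)) * io q (-tau b0 b1 b (Fin.last m)))

lemma tele_prod {M : Type*} [CommMonoid M] (g : Fin (m + 1) → M) :
    (∏ j : Fin m, g j.castSucc) * g (Fin.last m) = g 0 * ∏ j : Fin m, g j.succ := by
  rw [← Fin.prod_univ_castSucc, Fin.prod_univ_succ]

lemma tele_sum (g : Fin (m + 1) → ℤ) :
    (∑ j : Fin m, g j.castSucc) + g (Fin.last m) = g 0 + ∑ j : Fin m, g j.succ := by
  rw [← Fin.sum_univ_castSucc, Fin.sum_univ_succ]

lemma reorg {γ : Type*} (I : Finset ℤ) (C : Finset γ) (A : γ → K) (F : γ → ℤ → ℤ → K)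
    (G : γ → Fin m → ℤ → K) :
    ∑ x ∈ I, ∑ y ∈ I, ∑ t ∈ Fintype.piFinset (fun _ : Fin m => I), ∑ c ∈ C,
      A c * F c x y * ∏ j, G c j (t j) =
    ∑ c ∈ C, A c * (∑ x ∈ I, ∑ y ∈ I, F c x y) * ∏ j, ∑ k ∈ I, G c j k := by
  simp only [Finset.prod_univ_sum, Finset.mul_sum, Finset.sum_mul]
  symm
  rw [Finset.sum_comm]
  conv_lhs => enter [2, t]; rw [Finset.sum_comm]
  rw [Finset.sum_comm]
  refine Finset.sum_congr rfl fun x _ => ?_
  conv_lhs => enter [2, t]; rw [Finset.sum_comm]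
  rw [Finset.sum_comm]

lemma pointL (hq : Good q) (a0 a1 : ℤ) (a : Fin m → ℤ) (b0 b1 : ℤ) (b : Fin m → ℤ)
    (x y : ℤ) (t c : Fin m → ℤ) :
    q ^ hD x y t * (EE q x y b0 b1 *
      (∏ j, (q ^ ((tau x y t j.castSucc - c j) * (t j - c j)) * io q (tau x y t j.castSucc - c j) *
        io q (t j - c j) * io q (c j - tau b0 b1 b j.castSucc) * io q (c j - b j))) *
      (io q (tau x y t (Fin.last m)) * io q (-tau b0 b1 b (Fin.last m)))) *
      (io q (a0 - x) * io q (a1 - y) * ∏ j, io q (a j - t j)) =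
    ((∏ j, (q ^ (c j * c j - c j * cb c j.succ) * io q (c j - tau b0 b1 b j.castSucc) *
        io q (c j - b j))) * io q (-tau b0 b1 b (Fin.last m))) *
      (q ^ (x * x - cb c 0 * x) * q ^ (y * y - cb c 0 * y) * EE q x y b0 b1 * io q (a0 - x) *
        io q (a1 - y) * io q (x + y - cb c 0)) *
      ∏ j, (q ^ ((t j - c j) * (t j - cb c j.succ)) * io q (a j - t j) * io q (t j - c j) *
        io q (t j - cb c j.succ)) := by
  have t1 := tele_prod fun i => io q (tau x y t i - cb c i)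
  have t2 := tele_sum fun i => tau x y t i * cb c i
  simp only [tau_zero, tau_succ, cb_cast, cb_last, sub_zero, mul_zero, add_zero] at t1 t2
  have key : ∑ j, ((t j * t j - tau x y t j.castSucc * t j) +
      (tau x y t j.castSucc - c j) * (t j - c j) + tau x y t j.castSucc * c j) =
      ∑ j, ((c j * c j - c j * cb c j.succ) + (t j - c j) * (t j - cb c j.succ) +
        t j * cb c j.succ) := Finset.sum_congr rfl fun j _ => by ring
  simp only [Finset.sum_add_distrib] at key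
  have ex : q ^ hD x y t * q ^ ∑ j, (tau x y t j.castSucc - c j) * (t j - c j) =
      q ^ (∑ j, (c j * c j - c j * cb c j.succ)) * q ^ (x * x - cb c 0 * x) *
        q ^ (y * y - cb c 0 * y) * q ^ ∑ j, (t j - c j) * (t j - cb c j.succ) := by
    simp only [← zpow_add₀ hq.1]
    congr 1
    rw [hD]
    linarith
  simp only [Finset.prod_mul_distrib, prod_zp hq]
  calc _ = (q ^ hD x y t * q ^ ∑ j, (tau x y t j.castSucc - c j) * (t j - c j)) *
      ((∏ j, io q (tau x y t j.castSucc - c j)) * io q (tau x y t (Fin.last m))) *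
      (EE q x y b0 b1 * (∏ j, io q (t j - c j)) * (∏ j, io q (c j - tau b0 b1 b j.castSucc)) *
        (∏ j, io q (c j - b j)) * io q (-tau b0 b1 b (Fin.last m)) *
        (io q (a0 - x) * io q (a1 - y) * ∏ j, io q (a j - t j))) := by ring
    _ = _ := by rw [ex, t1]; ring

lemma pointR (hq : Good q) (a0 a1 : ℤ) (a : Fin m → ℤ) (b0 b1 : ℤ) (b : Fin m → ℤ)
    (x y : ℤ) (t c : Fin m → ℤ) :
    q ^ hD x y t * (EE q a0 a1 x y *
      (∏ j, (q ^ ((c j - tau x y t j.castSucc) * (c j - t j)) * io q (tau a0 a1 a j.castSucc - c j) *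
        io q (a j - c j) * io q (c j - tau x y t j.castSucc) * io q (c j - t j))) *
      (io q (tau a0 a1 a (Fin.last m)) * io q (-tau x y t (Fin.last m)))) *
      (io q (x - b0) * io q (y - b1) * ∏ j, io q (t j - b j)) =
    ((∏ j, (q ^ (c j * c j - c j * cb c j.succ) * io q (tau a0 a1 a j.castSucc - c j) *
        io q (a j - c j))) * io q (tau a0 a1 a (Fin.last m))) *
      (q ^ (x * x - cb c 0 * x) * q ^ (y * y - cb c 0 * y) * EE q a0 a1 x y * io q (x - b0) *
        io q (y - b1) * io q (cb c 0 - (x + y))) *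
      ∏ j, (q ^ ((c j - t j) * (cb c j.succ - t j)) * io q (t j - b j) * io q (c j - t j) *
        io q (cb c j.succ - t j)) := by
  have t1 := tele_prod fun i => io q (cb c i - tau x y t i)
  have t2 := tele_sum fun i => tau x y t i * cb c i
  simp only [tau_zero, tau_succ, cb_cast, cb_last, zero_sub, mul_zero, add_zero] at t1 t2
  have key : ∑ j, ((t j * t j - tau x y t j.castSucc * t j) +
      (c j - tau x y t j.castSucc) * (c j - t j) + tau x y t j.castSucc * c j) =
      ∑ j, ((c j * c j - c j * cb c j.succ) + (c j - t j) * (cb c j.succ - t j) +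
        t j * cb c j.succ) := Finset.sum_congr rfl fun j _ => by ring
  simp only [Finset.sum_add_distrib] at key
  have ex : q ^ hD x y t * q ^ ∑ j, (c j - tau x y t j.castSucc) * (c j - t j) =
      q ^ (∑ j, (c j * c j - c j * cb c j.succ)) * q ^ (x * x - cb c 0 * x) *
        q ^ (y * y - cb c 0 * y) * q ^ ∑ j, (c j - t j) * (cb c j.succ - t j) := by
    simp only [← zpow_add₀ hq.1]
    congr 1
    rw [hD]
    linarith
  simp only [Finset.prod_mul_distrib, prod_zp hq]
  calc _ = (q ^ hD x y t * q ^ ∑ j, (c j - tau x y t j.castSucc) * (c j - t j)) *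
      ((∏ j, io q (c j - tau x y t j.castSucc)) * io q (-tau x y t (Fin.last m))) *
      (EE q a0 a1 x y * (∏ j, io q (a j - c j)) * (∏ j, io q (tau a0 a1 a j.castSucc - c j)) *
        (∏ j, io q (c j - t j)) * io q (tau a0 a1 a (Fin.last m)) *
        (io q (x - b0) * io q (y - b1) * ∏ j, io q (t j - b j))) := by ring
    _ = _ := by rw [ex, t1]; ring

theorem intertwine (hq : Good q) (N : ℤ) (a0 a1 : ℤ) (a : Fin m → ℤ) (b0 b1 : ℤ) (b : Fin m → ℤ)
    (ha0 : a0 ≤ N) (ha1 : a1 ≤ N) (ha : ∀ j, a j ≤ N) (hb0 : 0 ≤ b0) (hb1 : 0 ≤ b1)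
    (hb : ∀ j, 0 ≤ b j) :
    ∑ x ∈ Finset.Icc 0 N, ∑ y ∈ Finset.Icc 0 N,
      ∑ t ∈ Fintype.piFinset (fun _ : Fin m => Finset.Icc 0 N),
        q ^ hD x y t * ker q x y t b0 b1 b *
          (io q (a0 - x) * io q (a1 - y) * ∏ j, io q (a j - t j)) =
    ∑ x ∈ Finset.Icc 0 N, ∑ y ∈ Finset.Icc 0 N,
      ∑ t ∈ Fintype.piFinset (fun _ : Fin m => Finset.Icc 0 N),
        q ^ hD x y t * ker q a0 a1 a x y t *
          (io q (x - b0) * io q (y - b1) * ∏ j, io q (t j - b j)) := by
  set I := Finset.Icc 0 N with hI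
  set P := Fintype.piFinset (fun _ : Fin m => I) with hP
  have memP : ∀ t ∈ P, ∀ j, 0 ≤ t j ∧ t j ≤ N := fun t ht j =>
    Finset.mem_Icc.mp (Fintype.mem_piFinset.mp ht j)
  have hL : ∀ x ∈ I, ∀ y ∈ I, ∀ t ∈ P, q ^ hD x y t * ker q x y t b0 b1 b *
      (io q (a0 - x) * io q (a1 - y) * ∏ j, io q (a j - t j)) = ∑ c ∈ P,
      ((∏ j, (q ^ (c j * c j - c j * cb c j.succ) * io q (c j - tau b0 b1 b j.castSucc) *
        io q (c j - b j))) * io q (-tau b0 b1 b (Fin.last m))) *
      (q ^ (x * x - cb c 0 * x) * q ^ (y * y - cb c 0 * y) * EE q x y b0 b1 * io q (a0 - x) *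
        io q (a1 - y) * io q (x + y - cb c 0)) *
      ∏ j, (q ^ ((t j - c j) * (t j - cb c j.succ)) * io q (a j - t j) * io q (t j - c j) *
        io q (t j - cb c j.succ)) := by
    intro x _ y _ t ht
    rw [ker, Finset.prod_congr rfl fun j _ =>
      vander2 hq (tau x y t j.castSucc) (t j) (tau b0 b1 b j.castSucc) (b j) (hb j) (memP t ht j).2,
      Finset.prod_univ_sum]
    simp only [Finset.mul_sum, Finset.sum_mul]
    exact Finset.sum_congr rfl fun c _ => pointL hq a0 a1 a b0 b1 b x y t c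
  have hR : ∀ x ∈ I, ∀ y ∈ I, ∀ t ∈ P, q ^ hD x y t * ker q a0 a1 a x y t *
      (io q (x - b0) * io q (y - b1) * ∏ j, io q (t j - b j)) = ∑ c ∈ P,
      ((∏ j, (q ^ (c j * c j - c j * cb c j.succ) * io q (tau a0 a1 a j.castSucc - c j) *
        io q (a j - c j))) * io q (tau a0 a1 a (Fin.last m))) *
      (q ^ (x * x - cb c 0 * x) * q ^ (y * y - cb c 0 * y) * EE q a0 a1 x y * io q (x - b0) *
        io q (y - b1) * io q (cb c 0 - (x + y))) *
      ∏ j, (q ^ ((c j - t j) * (cb c j.succ - t j)) * io q (t j - b j) * io q (c j - t j) *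
        io q (cb c j.succ - t j)) := by
    intro x _ y _ t ht
    rw [ker, Finset.prod_congr rfl fun j _ =>
      vander1 hq (tau a0 a1 a j.castSucc) (a j) (tau x y t j.castSucc) (t j) (memP t ht j).1 (ha j),
      Finset.prod_univ_sum]
    simp only [Finset.mul_sum, Finset.sum_mul]
    exact Finset.sum_congr rfl fun c _ => pointR hq a0 a1 a b0 b1 b x y t c
  rw [Finset.sum_congr rfl fun x hx => Finset.sum_congr rfl fun y hy =>
      Finset.sum_congr rfl fun t ht => hL x hx y hy t ht,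
    Finset.sum_congr rfl fun x hx => Finset.sum_congr rfl fun y hy =>
      Finset.sum_congr rfl fun t ht => hR x hx y hy t ht]
  refine (reorg I P _ (fun c x y => q ^ (x * x - cb c 0 * x) * q ^ (y * y - cb c 0 * y) *
      EE q x y b0 b1 * io q (a0 - x) * io q (a1 - y) * io q (x + y - cb c 0))
    (fun c j k => q ^ ((k - c j) * (k - cb c j.succ)) * io q (a j - k) * io q (k - c j) *
        io q (k - cb c j.succ))).trans (Eq.trans ?_
    (reorg I P _ (fun c x y => q ^ (x * x - cb c 0 * x) * q ^ (y * y - cb c 0 * y) *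
      EE q a0 a1 x y * io q (x - b0) * io q (y - b1) * io q (cb c 0 - (x + y)))
    (fun c j k => q ^ ((c j - k) * (cb c j.succ - k)) * io q (k - b j) * io q (c j - k) *
        io q (cb c j.succ - k))).symm)
  refine Finset.sum_congr rfl fun c hc => ?_
  rw [forkL hq a0 a1 b0 b1 (cb c 0) hb1 ha0 ha1, forkR hq a0 a1 b0 b1 (cb c 0) ha1 hb0 hb1,
    Finset.prod_congr rfl fun j _ =>
      durfee1 hq (a j) (c j) (cb c j.succ) (memP c hc j).1 (ha j),
    Finset.prod_congr rfl fun j _ =>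
      durfee2 hq (b j) (c j) (cb c j.succ) (hb j) (memP c hc j).2]
  have t1 := tele_prod fun i => io q (tau a0 a1 a i - cb c i)
  have t2 := tele_prod fun i => io q (cb c i - tau b0 b1 b i)
  simp only [tau_zero, tau_succ, cb_cast, cb_last, sub_zero, zero_sub] at t1 t2
  simp only [Finset.prod_mul_distrib]
  calc _ = ((∏ j, io q (c j - tau b0 b1 b j.castSucc)) * io q (-tau b0 b1 b (Fin.last m))) *
      (io q (a0 + a1 - cb c 0) * ∏ j, io q (a j - cb c j.succ)) *
      ((∏ j, q ^ (c j * c j - c j * cb c j.succ)) * (∏ j, io q (c j - b j)) *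
        FF q 0 N a0 a1 b0 b1 (cb c 0) * ∏ j, io q (a j - c j)) := by ring
    _ = _ := by rw [← t1, t2]; ring

end Pool.Agent.Lib.MP_4223bd_al
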