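import Mathlib

set_option autoImplicit false

open Polynomial

namespace Pool.Agent.Lib.MP_4223bd_al

/-! Symmetric unimodal polynomials with a prescribed centre, and Sylvester's theorem. -/

noncomputable def geo (n : ℕ) : ℤ[X] := ∑ t ∈ Finset.range n, X ^ t

noncomputable def blk (i l : ℕ) : ℤ[X] := X ^ i * geo (l + 1)

/-- Sums of blocks `X^i + ... + X^(i+l)` with `2 i + l = c`. -/
noncomputable def SU (c : ℤ) : AddSubmonoid ℤ[X] :=
  AddSubmonoid.closure {p | ∃ i l : ℕ, (2 * i + l : ℤ) = c ∧ p = blk i l}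

lemma blk_mem {c : ℤ} (i l : ℕ) (h : (2 * i + l : ℤ) = c) : blk i l ∈ SU c :=
  AddSubmonoid.subset_closure ⟨i, l, h, rfl⟩

lemma geo_mul (m n : ℕ) : geo (m + 1) * geo (n + 1) = geo (m + n + 1) + X * geo m * geo n := by
  have h : ∀ k, geo k * (X - 1) = X ^ k - 1 := fun k => geom_sum_mul X k
  have hX : (X - 1 : ℤ[X]) ≠ 0 := by
    have := Polynomial.X_sub_C_ne_zero (1 : ℤ)
    simpa using this
  apply mul_right_cancel₀ (mul_ne_zero hX hX)
  calc geo (m + 1) * geo (n + 1) * ((X - 1) * (X - 1))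
      = (geo (m + 1) * (X - 1)) * (geo (n + 1) * (X - 1)) := by ring
    _ = (geo (m + n + 1) * (X - 1)) * (X - 1) + X * (geo m * (X - 1)) * (geo n * (X - 1)) := by
        rw [h, h, h, h, h]; ring
    _ = _ := by ring

lemma geo_one : geo 1 = 1 := by simp [geo]

lemma blk_mul (l : ℕ) : ∀ i j n : ℕ, blk i l * blk j n ∈ SU (2 * i + l + (2 * j + n)) := by
  induction l with
  | zero =>
    intro i j n
    have : blk i 0 * blk j n = blk (i + j) n := by
      simp only [blk, zero_add, geo_one]; ring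
    rw [this]
    exact blk_mem _ _ (by push_cast; ring)
  | succ l ih =>
    intro i j n
    cases n with
    | zero =>
      have : blk i (l + 1) * blk j 0 = blk (i + j) (l + 1) := by
        simp only [blk, zero_add, geo_one]; ring
      rw [this]
      exact blk_mem _ _ (by push_cast; ring)
    | succ n =>
      have : blk i (l + 1) * blk j (n + 1) = blk (i + j) (l + n + 2) + blk (i + 1) l * blk j n := by
        have h := geo_mul (l + 1) (n + 1)
        simp only [blk]
        rw [show l + n + 2 + 1 = l + 1 + (n + 1) + 1 by ring]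
        calc X ^ i * geo (l + 1 + 1) * (X ^ j * geo (n + 1 + 1))
            = X ^ i * X ^ j * (geo (l + 1 + 1) * geo (n + 1 + 1)) := by ring
          _ = _ := by rw [h]; ring
      rw [this]
      refine add_mem (blk_mem _ _ (by push_cast; ring)) ?_
      have h2 := ih (i + 1) j n
      convert h2 using 2
      push_cast; ring

lemma SU_mul {c d : ℤ} {p r : ℤ[X]} (hp : p ∈ SU c) (hr : r ∈ SU d) : p * r ∈ SU (c + d) := by
  induction hp using AddSubmonoid.closure_induction with
  | zero => simp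
  | add x y _ _ hx hy => rw [add_mul]; exact add_mem hx hy
  | mem x hx =>
    induction hr using AddSubmonoid.closure_induction with
    | zero => simp
    | add x y _ _ hx hy => rw [mul_add]; exact add_mem hx hy
    | mem y hy =>
      obtain ⟨i, l, h1, rfl⟩ := hx
      obtain ⟨j, n, h2, rfl⟩ := hy
      rw [← h1, ← h2]
      exact blk_mul l i j n

lemma X_pow_mem (i : ℕ) : (X ^ i : ℤ[X]) ∈ SU (2 * i) := by
  have : (X ^ i : ℤ[X]) = blk i 0 := by simp [blk, geo_one]
  rw [this]
  exact blk_mem _ _ (by simp)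

lemma one_mem_SU : (1 : ℤ[X]) ∈ SU 0 := by simpa using X_pow_mem 0

lemma SU_prod {ι : Type*} (s : Finset ι) (c : ι → ℤ) (p : ι → ℤ[X])
    (h : ∀ i ∈ s, p i ∈ SU (c i)) : ∏ i ∈ s, p i ∈ SU (∑ i ∈ s, c i) := by
  classical
  induction s using Finset.induction_on with
  | empty => simpa using one_mem_SU
  | insert a s ha ih =>
    rw [Finset.prod_insert ha, Finset.sum_insert ha]
    exact SU_mul (h a (Finset.mem_insert_self _ _))
      (ih fun i hi => h i (Finset.mem_insert_of_mem hi))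

lemma coeff_blk (i l k : ℕ) : (blk i l).coeff k = if i ≤ k ∧ k ≤ i + l then 1 else 0 := by
  simp only [blk, geo, Finset.mul_sum, ← pow_add, finsetSum_coeff, coeff_X_pow]
  split_ifs with h
  · rw [Finset.sum_eq_single (k - i)]
    · rw [if_pos (by omega)]
    · intro b _ hb; rw [if_neg (by omega)]
    · intro hb; exfalso; apply hb; rw [Finset.mem_range]; omega
  · apply Finset.sum_eq_zero
    intro b hb
    rw [Finset.mem_range] at hb
    rw [if_neg (by omega)]

lemma SU_coeff {c : ℤ} {p : ℤ[X]} (hp : p ∈ SU c) :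
    (∀ k, 0 ≤ p.coeff k) ∧ (∀ k : ℕ, 2 * (k : ℤ) < c → p.coeff k ≤ p.coeff (k + 1)) ∧
      (∀ k : ℕ, c ≤ 2 * (k : ℤ) + 1 → p.coeff (k + 1) ≤ p.coeff k) := by
  induction hp using AddSubmonoid.closure_induction with
  | zero => simp
  | add x y _ _ hx hy =>
    refine ⟨fun k => ?_, fun k hk => ?_, fun k hk => ?_⟩ <;> simp only [coeff_add]
    · exact add_nonneg (hx.1 k) (hy.1 k)
    · exact add_le_add (hx.2.1 k hk) (hy.2.1 k hk)
    · exact add_le_add (hx.2.2 k hk) (hy.2.2 k hk)
  | mem x hx =>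
    obtain ⟨i, l, h1, rfl⟩ := hx
    refine ⟨fun k => ?_, fun k hk => ?_, fun k hk => ?_⟩ <;> simp only [coeff_blk] <;>
      split_ifs <;> omega

lemma mem_SU_of_coeff (c : ℕ) (p : ℤ[X]) (h0 : 0 ≤ p.coeff 0)
    (h1 : ∀ k, 2 * k + 2 ≤ c → p.coeff k ≤ p.coeff (k + 1))
    (h2 : ∀ k ≤ c, p.coeff k = p.coeff (c - k)) (h3 : ∀ k, c < k → p.coeff k = 0) :
    p ∈ SU c := by
  set d : ℕ → ℤ := fun i => p.coeff i - if i = 0 then 0 else p.coeff (i - 1) with hd
  have tel : ∀ r, ∑ i ∈ Finset.range (r + 1), d i = p.coeff r := by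
    intro r
    induction r with
    | zero => simp [hd]
    | succ r ih => rw [Finset.sum_range_succ, ih]; simp [hd]
  have hp : p = ∑ i ∈ Finset.range (c / 2 + 1), (d i).toNat • blk i (c - 2 * i) := by
    ext k
    rw [finsetSum_coeff]
    have e : ∀ i ∈ Finset.range (c / 2 + 1), ((d i).toNat • blk i (c - 2 * i)).coeff k =
        if i ≤ k ∧ k + i ≤ c then d i else 0 := by
      intro i hi
      rw [Finset.mem_range] at hi
      have hdi : 0 ≤ d i := by
        rcases i with _ | i
        · simpa [hd] using h0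
        · have := h1 i (by omega)
          simp [hd]; omega
      rw [coeff_smul, coeff_blk]
      by_cases h : i ≤ k ∧ k + i ≤ c
      · rw [if_pos h, if_pos (by omega)]; simp [Int.toNat_of_nonneg hdi]
      · rw [if_neg h, if_neg (by omega)]; simp
    rw [Finset.sum_congr rfl e, ← Finset.sum_filter]
    by_cases hk : c < k
    · rw [h3 k hk, Finset.sum_eq_zero]
      intro i hi
      rw [Finset.mem_filter] at hi
      omega
    · have : Finset.filter (fun i => i ≤ k ∧ k + i ≤ c) (Finset.range (c / 2 + 1)) =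
          Finset.range (min k (c - k) + 1) := by
        ext i; simp only [Finset.mem_filter, Finset.mem_range]; omega
      rw [this, tel]
      rcases le_total k (c - k) with h | h
      · rw [min_eq_left h]
      · rw [min_eq_right h]; exact h2 k (by omega)
  rw [hp]
  refine sum_mem fun i hi => nsmul_mem (blk_mem _ _ ?_) _
  rw [Finset.mem_range] at hi
  omega

/-- The Gaussian binomial coefficient with top `m + k` and bottom `k`. -/
noncomputable def gauss (m k : ℕ) : ℤ[X] :=
  PowerSeries.coeff k (∏ i ∈ Finset.range (m + 1), PowerSeries.mk fun j => ((X : ℤ[X]) ^ i) ^ j)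

def Sset (m k w : ℕ) : Finset (ℕ →₀ ℕ) :=
  (Finset.finsuppAntidiag (Finset.range (m + 1)) k).filter
    fun s => ∑ i ∈ Finset.range (m + 1), i * s i = w

lemma mem_Sset {m k w : ℕ} {s : ℕ →₀ ℕ} : s ∈ Sset m k w ↔
    (∑ i ∈ Finset.range (m + 1), s i = k ∧ s.support ⊆ Finset.range (m + 1)) ∧
      ∑ i ∈ Finset.range (m + 1), i * s i = w := by
  simp [Sset]

lemma coeff_gauss (m k w : ℕ) : (gauss m k).coeff w = (Sset m k w).card := by
  simp only [gauss, PowerSeries.coeff_prod, PowerSeries.coeff_mk, ← pow_mul,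
    Finset.prod_pow_eq_pow_sum, finsetSum_coeff, coeff_X_pow, Sset, Finset.card_filter]
  push_cast
  refine Finset.sum_congr rfl fun s _ => ?_
  simp only [eq_comm]

lemma sum_rev (m k : ℕ) {s : ℕ →₀ ℕ} (hs : ∑ i ∈ Finset.range (m + 1), s i = k) :
    ∑ i ∈ Finset.range (m + 1), (m - i) * s i + ∑ i ∈ Finset.range (m + 1), i * s i = m * k := by
  rw [← Finset.sum_add_distrib, ← hs, Finset.mul_sum]
  refine Finset.sum_congr rfl fun i hi => ?_
  rw [Finset.mem_range] at hi
  rw [← add_mul]; congr 1; omega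

lemma gauss_symm (m k w : ℕ) (hw : w ≤ m * k) :
    (gauss m k).coeff w = (gauss m k).coeff (m * k - w) := by
  rw [coeff_gauss m k (m * k - w)]
  have : gauss m k = PowerSeries.coeff k
      (∏ i ∈ Finset.range (m + 1), PowerSeries.mk fun j => ((X : ℤ[X]) ^ (m - i)) ^ j) := by
    rw [gauss, ← Finset.prod_range_reflect]
    simp
  rw [this]
  simp only [PowerSeries.coeff_prod, PowerSeries.coeff_mk, ← pow_mul,
    Finset.prod_pow_eq_pow_sum, finsetSum_coeff, coeff_X_pow, Sset, Finset.card_filter]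
  push_cast
  refine Finset.sum_congr rfl fun s hs => ?_
  have := sum_rev m k (Finset.mem_finsuppAntidiag.mp hs).1
  congr 1
  apply propext
  omega

lemma gauss_top (m k w : ℕ) (hw : m * k < w) : (gauss m k).coeff w = 0 := by
  rw [coeff_gauss]
  have : Sset m k w = ∅ := by
    ext s
    simp only [mem_Sset, Finset.notMem_empty, iff_false]
    rintro ⟨⟨h1, _⟩, h2⟩
    have := sum_rev m k h1
    omega
  simp [this]

lemma gauss_zero_right (m : ℕ) : gauss m 0 = 1 := by
  simp [gauss, map_prod]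

lemma gauss_zero_left (k : ℕ) : gauss 0 k = 1 := by
  simp [gauss]

lemma gauss_succ (m k : ℕ) :
    gauss (m + 1) (k + 1) = X ^ (m + 1) * gauss (m + 1) k + gauss m (k + 1) := by
  have h : (PowerSeries.mk fun j => ((X : ℤ[X]) ^ (m + 1)) ^ j) =
      1 + PowerSeries.C ((X : ℤ[X]) ^ (m + 1)) *
        (PowerSeries.mk fun j => ((X : ℤ[X]) ^ (m + 1)) ^ j) * PowerSeries.X := by
    apply PowerSeries.ext
    intro j
    rcases j with _ | j
    · simp
    · rw [map_add, PowerSeries.coeff_succ_mul_X, PowerSeries.coeff_C_mul, PowerSeries.coeff_one,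
        if_neg (Nat.succ_ne_zero j), PowerSeries.coeff_mk, PowerSeries.coeff_mk]
      ring
  simp only [gauss]
  rw [Finset.prod_range_succ _ (m + 1)]
  set A := ∏ i ∈ Finset.range (m + 1), PowerSeries.mk fun j => ((X : ℤ[X]) ^ i) ^ j
  set B := PowerSeries.mk fun j => ((X : ℤ[X]) ^ (m + 1)) ^ j
  have h2 : A * B = A + PowerSeries.C ((X : ℤ[X]) ^ (m + 1)) * (A * B) * PowerSeries.X := by
    conv_lhs => rw [h]
    ring
  conv_lhs => rw [h2]
  rw [map_add, PowerSeries.coeff_succ_mul_X, PowerSeries.coeff_C_mul, add_comm]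

section Sl2

open MvPolynomial

noncomputable def dE (m : ℕ) : Derivation ℚ (MvPolynomial ℕ ℚ) (MvPolynomial ℕ ℚ) :=
  mkDerivation ℚ fun i => ((m : ℚ) - i) • MvPolynomial.X (i + 1)

noncomputable def dF : Derivation ℚ (MvPolynomial ℕ ℚ) (MvPolynomial ℕ ℚ) :=
  mkDerivation ℚ fun i => (i : ℚ) • MvPolynomial.X (i - 1)

noncomputable def dH (m : ℕ) : Derivation ℚ (MvPolynomial ℕ ℚ) (MvPolynomial ℕ ℚ) :=
  mkDerivation ℚ fun i => (2 * (i : ℚ) - m) • MvPolynomial.X i

lemma comm_EF (m : ℕ) (v : MvPolynomial ℕ ℚ) : dE m (dF v) - dF (dE m v) = dH m v := by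
  have : ⁅dE m, dF⁆ = dH m := by
    apply MvPolynomial.derivation_ext
    intro i
    rw [Derivation.commutator_apply]
    simp only [dE, dF, dH, MvPolynomial.mkDerivation_X, Derivation.map_smul, smul_smul, Nat.add_sub_cancel]
    rcases i with _ | i
    · simp
    · simp only [Nat.add_sub_cancel, ← sub_smul]
      congr 1
      push_cast; ring
  rw [← this, Derivation.commutator_apply]

lemma shift_mem {m k w w' : ℕ} {s : ℕ →₀ ℕ} (hs : s ∈ Sset m k w) {i j : ℕ}
    (hi : i ∈ s.support) (hj : j ≤ m) (hw : w' + i = w + j) :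
    s - Finsupp.single i 1 + Finsupp.single j 1 ∈ Sset m k w' := by
  rw [mem_Sset] at hs ⊢
  obtain ⟨⟨h1, h2⟩, h3⟩ := hs
  have him : i ∈ Finset.range (m + 1) := h2 hi
  have hjm : j ∈ Finset.range (m + 1) := Finset.mem_range.mpr (by omega)
  set r := s - Finsupp.single i 1 with hr
  have hsr : s = r + Finsupp.single i 1 := by
    rw [hr, tsub_add_cancel_of_le]
    rw [Finsupp.single_le_iff]
    exact Nat.one_le_iff_ne_zero.mpr (Finsupp.mem_support_iff.mp hi)
  have a1 : ∀ t ∈ Finset.range (m + 1), ∑ x ∈ Finset.range (m + 1), (r + Finsupp.single t 1 : ℕ →₀ ℕ) x =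
      ∑ x ∈ Finset.range (m + 1), r x + 1 := by
    intro t ht
    simp [Finset.sum_add_distrib, Finsupp.single_apply, ht]
  have a2 : ∀ t ∈ Finset.range (m + 1),
      ∑ x ∈ Finset.range (m + 1), x * (r + Finsupp.single t 1 : ℕ →₀ ℕ) x =
      ∑ x ∈ Finset.range (m + 1), x * r x + t := by
    intro t ht
    simp [Finset.sum_add_distrib, Finsupp.single_apply, ht, mul_add]
  rw [hsr, a1 i him] at h1
  rw [hsr, a2 i him] at h3
  refine ⟨⟨by rw [a1 j hjm, h1], ?_⟩, by rw [a2 j hjm]; omega⟩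
  intro x hx
  rcases Finset.mem_union.mp (Finsupp.support_add hx) with h | h
  · exact h2 (Finsupp.support_tsub h)
  · rw [Finset.mem_singleton.mp (Finsupp.support_single_subset h)]; exact hjm

noncomputable abbrev W (m k w : ℕ) : Submodule ℚ (MvPolynomial ℕ ℚ) :=
  restrictSupport ℚ (Sset m k w : Set (ℕ →₀ ℕ))

lemma der_monomial (c : ℕ → ℚ) (g : ℕ → ℕ) (s : ℕ →₀ ℕ) :
    mkDerivation ℚ (fun i => c i • (MvPolynomial.X (g i) : MvPolynomial ℕ ℚ)) (MvPolynomial.monomial s 1) =
      ∑ i ∈ s.support, (c i * s i) •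
        MvPolynomial.monomial (s - Finsupp.single i 1 + Finsupp.single (g i) 1) (1 : ℚ) := by
  rw [mkDerivation_monomial, one_smul, Finsupp.sum]
  refine Finset.sum_congr rfl fun i _ => ?_
  rw [smul_eq_mul, mul_smul_comm, MvPolynomial.X, MvPolynomial.monomial_mul, MvPolynomial.smul_monomial, MvPolynomial.smul_monomial]
  simp

lemma span_ind {S : Set (ℕ →₀ ℕ)} {T : Submodule ℚ (MvPolynomial ℕ ℚ)}
    (f : MvPolynomial ℕ ℚ →ₗ[ℚ] MvPolynomial ℕ ℚ) (h : ∀ s ∈ S, f (MvPolynomial.monomial s 1) ∈ T)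
    {v : MvPolynomial ℕ ℚ} (hv : v ∈ restrictSupport ℚ S) : f v ∈ T := by
  rw [restrictSupport_eq_span] at hv
  have : Submodule.span ℚ ((MvPolynomial.monomial · (1 : ℚ)) '' S) ≤ T.comap f := by
    rw [Submodule.span_le]
    rintro _ ⟨s, hs, rfl⟩
    exact h s hs
  exact this hv

lemma dE_mem {m k w : ℕ} {v : MvPolynomial ℕ ℚ} (hv : v ∈ W m k w) : dE m v ∈ W m k (w + 1) := by
  refine span_ind (dE m).toLinearMap (fun s hs => ?_) hv
  have hs' : s ∈ Sset m k w := hs
  change dE m (MvPolynomial.monomial s 1) ∈ _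
  rw [dE, der_monomial (fun i => (m : ℚ) - i) (fun i => i + 1)]
  refine Submodule.sum_mem _ fun i hi => ?_
  have him := Finset.mem_range.mp ((mem_Sset.mp hs').1.2 hi)
  by_cases h : i = m
  · simp [h]
  · refine Submodule.smul_mem _ _ ((monomial_mem_restrictSupport ℚ).mpr (Or.inl ?_))
    exact shift_mem hs' hi (by omega) (by omega)

lemma dF_mem {m k w : ℕ} {v : MvPolynomial ℕ ℚ} (hv : v ∈ W m k (w + 1)) : dF v ∈ W m k w := by
  refine span_ind (dF).toLinearMap (fun s hs => ?_) hv
  have hs' : s ∈ Sset m k (w + 1) := hs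
  change dF (MvPolynomial.monomial s 1) ∈ _
  rw [dF, der_monomial (fun i => (i : ℚ)) (fun i => i - 1)]
  refine Submodule.sum_mem _ fun i hi => ?_
  have him := Finset.mem_range.mp ((mem_Sset.mp hs').1.2 hi)
  by_cases h : i = 0
  · simp [h]
  · refine Submodule.smul_mem _ _ ((monomial_mem_restrictSupport ℚ).mpr (Or.inl ?_))
    exact shift_mem hs' hi (by omega) (by omega)

lemma dF_zero {m k : ℕ} {v : MvPolynomial ℕ ℚ} (hv : v ∈ W m k 0) : dF v = 0 := by
  rw [← Submodule.mem_bot ℚ]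
  refine span_ind (dF).toLinearMap (fun s hs => ?_) hv
  have hs' : s ∈ Sset m k 0 := hs
  change dF (MvPolynomial.monomial s 1) ∈ _
  rw [dF, der_monomial (fun i => (i : ℚ)) (fun i => i - 1)]
  refine Submodule.sum_mem _ fun i hi => ?_
  have him := (mem_Sset.mp hs').1.2 hi
  have h0 := Finset.sum_eq_zero_iff.mp (mem_Sset.mp hs').2 i him
  have h1 := Finsupp.mem_support_iff.mp hi
  have : i = 0 := by simpa [h1] using h0
  simp [this]

lemma dH_eq {m k w : ℕ} {v : MvPolynomial ℕ ℚ} (hv : v ∈ W m k w) :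
    dH m v = (2 * (w : ℚ) - m * k) • v := by
  rw [← sub_eq_zero, ← Submodule.mem_bot ℚ]
  refine span_ind ((dH m).toLinearMap - (2 * (w : ℚ) - m * k) • LinearMap.id) (fun s hs => ?_) hv
  have hs' : s ∈ Sset m k w := hs
  obtain ⟨⟨h1, h2⟩, h3⟩ := mem_Sset.mp hs'
  change dH m (MvPolynomial.monomial s 1) - (2 * (w : ℚ) - m * k) • MvPolynomial.monomial s 1 ∈ _
  rw [dH, der_monomial (fun i => 2 * (i : ℚ) - m) (fun i => i), Submodule.mem_bot, sub_eq_zero]
  have e : ∀ i ∈ s.support, ((2 * (i : ℚ) - m) * s i) •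
      MvPolynomial.monomial (s - Finsupp.single i 1 + Finsupp.single i 1) (1 : ℚ) =
      ((2 * (i : ℚ) - m) * s i) • MvPolynomial.monomial s (1 : ℚ) := by
    intro i hi
    rw [tsub_add_cancel_of_le]
    rw [Finsupp.single_le_iff]
    exact Nat.one_le_iff_ne_zero.mpr (Finsupp.mem_support_iff.mp hi)
  rw [Finset.sum_congr rfl e, ← Finset.sum_smul]
  congr 1
  rw [Finset.sum_subset h2 (by
    intro i _ hi
    rw [Finsupp.notMem_support_iff.mp hi]; simp)]
  rw [← h1, ← h3]
  push_cast
  rw [Finset.mul_sum, Finset.mul_sum, ← Finset.sum_sub_distrib]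
  exact Finset.sum_congr rfl fun i _ => by ring

lemma dE_aux (m k : ℕ) : ∀ (w : ℕ) (v : MvPolynomial ℕ ℚ) (c : ℚ), v ∈ W m k w → 2 * w < m * k →
    c ≤ 0 → dF (dE m v) = c • v → v = 0 := by
  intro w
  induction w with
  | zero =>
    intro v c hv hw hc h
    have h1 := comm_EF m v
    rw [dF_zero hv, map_zero, h, dH_eq hv, zero_sub, ← neg_smul, ← sub_eq_zero, ← sub_smul] at h1
    have hw' : (0 : ℚ) < m * k := by exact_mod_cast hw
    rcases smul_eq_zero.mp h1 with h2 | h2
    · exfalso; push_cast at h2; linarith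
    · exact h2
  | succ w ih =>
    intro v c hv hw hc h
    have h1 := comm_EF m v
    rw [h, dH_eq hv, sub_eq_iff_eq_add, ← add_smul] at h1
    have hw' : 2 * ((w + 1 : ℕ) : ℚ) < m * k := by exact_mod_cast hw
    have h2 : dF v = 0 := by
      refine ih (dF v) (2 * ((w + 1 : ℕ) : ℚ) - m * k + c) (dF_mem hv) (by omega) (by linarith) ?_
      rw [h1, Derivation.map_smul]
    rw [h2, map_zero] at h1
    rcases smul_eq_zero.mp h1.symm with h3 | h3
    · exfalso; linarith
    · exact h3

lemma card_mono (m k w : ℕ) (hw : 2 * w < m * k) : (Sset m k w).card ≤ (Sset m k (w + 1)).card := by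
  have fr : ∀ w, Module.finrank ℚ (W m k w) = (Sset m k w).card := by
    intro w
    rw [Module.finrank_eq_card_basis (basisRestrictSupport ℚ (Sset m k w : Set (ℕ →₀ ℕ)))]
    simp
  have : Module.Finite ℚ (W m k (w + 1)) :=
    Module.Finite.of_basis (basisRestrictSupport ℚ (Sset m k (w + 1) : Set (ℕ →₀ ℕ)))
  rw [← fr, ← fr]
  refine LinearMap.finrank_le_finrank_of_injective
    (f := (dE m).toLinearMap.restrict (fun v hv => dE_mem hv)) ?_
  rw [injective_iff_map_eq_zero]
  intro v hv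
  have h0 : dE m v = 0 := congrArg Subtype.val hv
  apply Subtype.ext
  exact dE_aux m k w v 0 v.2 hw le_rfl (by rw [h0]; simp)

end Sl2

/-- Sylvester's theorem. -/
theorem gauss_mem (m k : ℕ) : gauss m k ∈ SU ((m : ℤ) * k) := by
  have := mem_SU_of_coeff (m * k) (gauss m k) (by rw [coeff_gauss]; positivity)
    (fun w hw => by
      rw [coeff_gauss, coeff_gauss]
      exact_mod_cast card_mono m k w (by omega))
    (gauss_symm m k) (gauss_top m k)
  simpa using this

end Pool.Agent.Lib.MP_4223bd_al
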