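import Mathlib
import Pool.Agent.Lib.MP_4223bd_al.Kernel
import Pool.Agent.Lib.MP_4223bd_al.Sylv

set_option autoImplicit false

open Polynomial

namespace Pool.Agent.Lib.MP_4223bd_al

/-! The solution of the recursion is fixed by the kernel; the same-centre recursion for the
numerators in type `D`. -/

variable {K : Type*} [Field K] {q : K} {m : ℕ}

/-- Evaluation of integer polynomials at `q`. -/
noncomputable def ev (q : K) : ℤ[X] →+* K := eval₂RingHom (Int.castRingHom K) q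

@[simp] lemma ev_X : ev q X = q := by simp [ev]

lemma ev_gauss (m : ℕ) : ∀ k : ℕ, ev q (gauss m k) * (pq q m * pq q k) = pq q (m + k) := by
  induction m with
  | zero => intro k; simp [gauss_zero_left, pq]
  | succ m ihm =>
    intro k
    induction k with
    | zero => simp [gauss_zero_right, pq]
    | succ k ihk =>
      have h1 := ihm (k + 1)
      have s : ∀ n, pq q (n + 1) = pq q n * (1 - q ^ (n + 1)) := fun n =>
        Finset.prod_range_succ _ n
      rw [gauss_succ, map_add, map_mul, map_pow, ev_X, show m + 1 + (k + 1) = (m + 1 + k) + 1 by ring,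
        s (m + 1 + k)]
      rw [show m + (k + 1) = m + 1 + k by ring, s k] at h1
      rw [s m] at ihk
      rw [s m, s k]
      linear_combination (q ^ (m + 1) * (1 - q ^ (k + 1))) * ihk + (1 - q ^ (m + 1)) * h1

noncomputable def gb (n k : ℤ) : ℤ[X] :=
  if 0 ≤ k ∧ k ≤ n then gauss (n - k).toNat k.toNat else 0

lemma gb_mem (n k : ℤ) : gb n k ∈ SU (k * (n - k)) := by
  rw [gb]
  split_ifs with h
  · have := gauss_mem (n - k).toNat k.toNat
    rwa [Int.toNat_of_nonneg h.1, Int.toNat_of_nonneg (by omega), mul_comm] at this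
  · exact zero_mem _

lemma ev_gb (hq : Good q) (n k : ℤ) : ev q (gb n k) = pz q n * io q k * io q (n - k) := by
  rw [gb]
  split_ifs with h
  · have h1 := ev_gauss (q := q) (n - k).toNat k.toNat
    rw [show (n - k).toNat + k.toNat = n.toNat by omega] at h1
    have h2 := pq_ne hq (n - k).toNat
    have h3 := pq_ne hq k.toNat
    rw [io, io, if_pos h.1, if_pos (by omega), pz, pz, pz, ← h1]
    field_simp
  · rcases lt_or_ge k 0 with h1 | h1
    · rw [io_neg h1]; simp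
    · rw [io_neg (n := n - k) (by omega)]; simp

def eD (x y : ℤ) (t : Fin m → ℤ) : ℤ := ∑ j, tau x y t j.castSucc * t j

noncomputable def Rp (a0 a1 : ℤ) (a : Fin m → ℤ) (b0 b1 : ℤ) (b : Fin m → ℤ) : ℤ[X] :=
  gb a0 b0 * gb a0 b1 * gb a1 b0 * gb a1 b1 *
    (∏ j, gb (tau a0 a1 a j.castSucc + a j - (tau b0 b1 b j.castSucc + b j))
      (tau a0 a1 a j.castSucc - b j)) * (∏ j, gb (a j) (b j)) * ∏ j, gb (a j) (b j)

lemma Rp_mem (a0 a1 : ℤ) (a : Fin m → ℤ) (b0 b1 : ℤ) (b : Fin m → ℤ)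
    (h : tau b0 b1 b (Fin.last m) = 0) :
    Rp a0 a1 a b0 b1 b ∈ SU (eD a0 a1 a - eD b0 b1 b - 2 * hD b0 b1 b) := by
  have h1 := SU_prod Finset.univ _ _ fun (j : Fin m) _ =>
    gb_mem (tau a0 a1 a j.castSucc + a j - (tau b0 b1 b j.castSucc + b j))
      (tau a0 a1 a j.castSucc - b j)
  have h2 := SU_prod Finset.univ _ _ fun (j : Fin m) _ => gb_mem (a j) (b j)
  have h3 := SU_mul (SU_mul (SU_mul (SU_mul (SU_mul (SU_mul (gb_mem a0 b0) (gb_mem a0 b1))
    (gb_mem a1 b0)) (gb_mem a1 b1)) h1) h2) h2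
  rw [Rp]
  convert h3 using 2
  have t2 := tele_sum fun i => tau a0 a1 a i * tau b0 b1 b i
  simp only [tau_zero, tau_succ, h, mul_zero, add_zero] at t2
  have key : ∑ j, ((tau a0 a1 a j.castSucc - b j) * (tau a0 a1 a j.castSucc + a j -
      (tau b0 b1 b j.castSucc + b j) - (tau a0 a1 a j.castSucc - b j)) + b j * (a j - b j) +
      b j * (a j - b j) + tau a0 a1 a j.castSucc * tau b0 b1 b j.castSucc +
      tau b0 b1 b j.castSucc * b j + 2 * (b j * b j - tau b0 b1 b j.castSucc * b j)) =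
      ∑ j, (tau a0 a1 a j.castSucc * a j + a j * b j) := Finset.sum_congr rfl fun j _ => by ring
  simp only [Finset.sum_add_distrib, ← Finset.mul_sum] at key
  simp only [eD, hD]
  linarith

lemma Rp_ev (hq : Good q) (a0 a1 : ℤ) (a : Fin m → ℤ) (b0 b1 : ℤ) (b : Fin m → ℤ)
    (h : tau b0 b1 b (Fin.last m) = 0) (hb0 : 0 ≤ b0) (hb1 : 0 ≤ b1) (hb : ∀ j, 0 ≤ b j) :
    (pz q a0 * pz q a1 * ∏ j, pz q (a j)) ^ 2 * ker q a0 a1 a b0 b1 b =
      ev q (Rp a0 a1 a b0 b1 b) * (pz q b0 * pz q b1 * ∏ j, pz q (b j)) ^ 2 := by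
  have t1 := tele_prod fun i => io q (tau a0 a1 a i - tau b0 b1 b i)
  simp only [tau_zero, tau_succ, h, sub_zero] at t1
  have c0 := pz_mul_io hq hb0
  have c1 := pz_mul_io hq hb1
  have c2 : (∏ j, pz q (b j)) * ∏ j, io q (b j) = 1 := by
    rw [← Finset.prod_mul_distrib]
    exact Finset.prod_eq_one fun j _ => pz_mul_io hq (hb j)
  have c3 : pz q (a0 + a1 - (b0 + b1)) * io q (a0 + a1 - (b0 + b1)) *
      (io q (a0 - b0) * io q (a1 - b1)) = io q (a0 - b0) * io q (a1 - b1) := by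
    rcases lt_or_ge (a0 - b0) 0 with h1 | h1
    · rw [io_neg h1]; simp
    · rcases lt_or_ge (a1 - b1) 0 with h2 | h2
      · rw [io_neg h2]; simp
      · rw [pz_mul_io hq (by omega), one_mul]
  have e : ∀ j : Fin m, tau a0 a1 a j.castSucc + a j - (tau b0 b1 b j.castSucc + b j) -
      (tau a0 a1 a j.castSucc - b j) = a j - tau b0 b1 b j.castSucc := fun j => by ring
  simp only [Rp, ker, EE, map_mul, map_prod, ev_gb hq, h, neg_zero, io_zero, e,
    Finset.prod_mul_distrib]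
  calc _ = (pz q a0 * pz q a1 * ∏ j, pz q (a j)) ^ 2 * io q (a0 - b1) * io q (a1 - b0) *
      (∏ j, pz q (tau a0 a1 a j.castSucc + a j - (tau b0 b1 b j.castSucc + b j))) *
      (∏ j, io q (a j - b j)) * (∏ j, io q (tau a0 a1 a j.castSucc - b j)) *
      (∏ j, io q (a j - tau b0 b1 b j.castSucc)) *
      (pz q (a0 + a1 - (b0 + b1)) *
        ((∏ j : Fin m, io q (tau a0 a1 a j.castSucc - tau b0 b1 b j.castSucc)) *
          io q (tau a0 a1 a (Fin.last m))) * (io q (a0 - b0) * io q (a1 - b1))) := by ring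
    _ = (pz q a0 * pz q a1 * ∏ j, pz q (a j)) ^ 2 * io q (a0 - b1) * io q (a1 - b0) *
      (∏ j, pz q (tau a0 a1 a j.castSucc + a j - (tau b0 b1 b j.castSucc + b j))) *
      (∏ j, io q (a j - b j)) * (∏ j, io q (tau a0 a1 a j.castSucc - b j)) *
      (∏ j, io q (a j - tau b0 b1 b j.castSucc)) * ((∏ j, io q (a j - b j)) *
        (pz q (a0 + a1 - (b0 + b1)) * io q (a0 + a1 - (b0 + b1)) *
          (io q (a0 - b0) * io q (a1 - b1)))) *
        ((pz q b0 * io q b0) ^ 2 * (pz q b1 * io q b1) ^ 2 *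
          ((∏ j, pz q (b j)) * ∏ j, io q (b j)) ^ 2) := by
        rw [t1, c0, c1, c2]; ring
    _ = _ := by rw [c3]; ring

lemma two_hD (x y : ℤ) (t : Fin m → ℤ) : 2 * hD x y t = (x - y) ^ 2 +
    ∑ j, (tau x y t j.castSucc - t j) ^ 2 + tau x y t (Fin.last m) ^ 2 := by
  have t2 := tele_sum fun i => tau x y t i ^ 2
  simp only [tau_zero, tau_succ] at t2
  have key : ∑ j, ((tau x y t j.castSucc - t j) ^ 2 + t j ^ 2) =
      ∑ j, (2 * (t j * t j - tau x y t j.castSucc * t j) + tau x y t j.castSucc ^ 2) :=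
    Finset.sum_congr rfl fun j _ => by ring
  simp only [Finset.sum_add_distrib, ← Finset.mul_sum] at key
  rw [hD]
  linarith

lemma hD_nonneg (x y : ℤ) (t : Fin m → ℤ) : 0 ≤ hD x y t := by
  have := two_hD x y t
  have h1 : 0 ≤ ∑ j, (tau x y t j.castSucc - t j) ^ 2 := Finset.sum_nonneg fun j _ => sq_nonneg _
  nlinarith [sq_nonneg (x - y), sq_nonneg (tau x y t (Fin.last m))]

lemma zero_of_mono {x y : ℤ} {t : Fin m → ℤ} (hx : 0 ≤ x) (hy : 0 ≤ y) (ht : ∀ j, 0 ≤ t j)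
    (h1 : ∀ j, tau x y t j.castSucc ≤ t j) (h2 : tau x y t (Fin.last m) ≤ 0) :
    x = 0 ∧ y = 0 ∧ ∀ j, t j = 0 := by
  have hm : Monotone (tau x y t) := Fin.monotone_iff_le_succ.mpr h1
  have a0 := hm (Fin.le_last 0)
  rw [tau_zero] at a0
  refine ⟨by omega, by omega, fun j => ?_⟩
  have a1 := hm (Fin.le_last j.succ)
  rw [tau_succ] at a1
  have := ht j
  omega

lemma zero_of_hD {x y : ℤ} {t : Fin m → ℤ} (hx : 0 ≤ x) (hy : 0 ≤ y) (ht : ∀ j, 0 ≤ t j)
    (h : hD x y t = 0) : x = 0 ∧ y = 0 ∧ ∀ j, t j = 0 := by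
  have h0 := two_hD x y t
  have h1 : 0 ≤ ∑ j, (tau x y t j.castSucc - t j) ^ 2 := Finset.sum_nonneg fun j _ => sq_nonneg _
  have h2 := sq_nonneg (x - y)
  have h3 := sq_nonneg (tau x y t (Fin.last m))
  have h4 : ∑ j, (tau x y t j.castSucc - t j) ^ 2 = 0 := by linarith
  have h5 : tau x y t (Fin.last m) ^ 2 = 0 := by linarith
  refine zero_of_mono hx hy ht (fun j => ?_) (pow_eq_zero_iff two_ne_zero |>.mp h5).le
  have := (Finset.sum_eq_zero_iff_of_nonneg fun j _ => sq_nonneg _).mp h4 j (Finset.mem_univ _)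
  have := pow_eq_zero_iff two_ne_zero |>.mp this
  omega

lemma ker_ne {a0 a1 : ℤ} {a : Fin m → ℤ} {b0 b1 : ℤ} {b : Fin m → ℤ}
    (h : ker q a0 a1 a b0 b1 b ≠ 0) : b0 ≤ a0 ∧ b1 ≤ a1 ∧ (∀ j, b j ≤ a j) ∧
      (∀ j, tau b0 b1 b j.castSucc ≤ a j) ∧ tau b0 b1 b (Fin.last m) ≤ 0 := by
  simp only [ker, EE, ne_eq, mul_eq_zero, not_or, Finset.prod_eq_zero_iff, not_exists,
    Finset.mem_univ, true_and] at h
  obtain ⟨⟨h1, h2⟩, _, h4⟩ := h
  have a1 := nonneg_of_io h1.1.1.1.2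
  have a2 := nonneg_of_io h1.1.1.2
  have a3 := nonneg_of_io h4
  refine ⟨by omega, by omega, fun j => ?_, fun j => ?_, by omega⟩
  · have := nonneg_of_io (h2 j).1.1.2
    omega
  · have := nonneg_of_io (h2 j).2
    omega

lemma uniq_abs {S : Type*} (B : Finset S) (T : S → S → K) (size : S → ℕ) (z : S) (F G : S → K)
    (hT : ∀ v ∈ B, ∀ u ∈ B, u ≠ v → T v u ≠ 0 → size u < size v)
    (hd : ∀ v ∈ B, v ≠ z → 1 - T v v ≠ 0)
    (hF : ∀ v ∈ B, F v = ∑ u ∈ B, T v u * F u) (hG : ∀ v ∈ B, G v = ∑ u ∈ B, T v u * G u)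
    (hz : F z = G z) : ∀ v ∈ B, F v = G v := by
  classical
  intro v
  induction' hn : size v using Nat.strong_induction_on with n ih generalizing v
  intro hv
  by_cases hvz : v = z
  · rw [hvz, hz]
  have e : ∑ u ∈ B.erase v, T v u * F u = ∑ u ∈ B.erase v, T v u * G u := by
    refine Finset.sum_congr rfl fun u hu => ?_
    obtain ⟨h1, h2⟩ := Finset.mem_erase.mp hu
    by_cases h0 : T v u = 0
    · simp [h0]
    · rw [ih _ (hn ▸ hT v hv u h2 h1 h0) u rfl h2]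
  have f1 := hF v hv
  have g1 := hG v hv
  rw [← Finset.add_sum_erase _ _ hv] at f1 g1
  apply mul_left_cancel₀ (hd v hv hvz)
  linear_combination f1 - g1 + e

def tl (v : Fin (m + 2) → ℤ) : Fin m → ℤ := fun j => v j.succ.succ

noncomputable def box (ι : Type*) [Fintype ι] [DecidableEq ι] (N : ℤ) : Finset (ι → ℤ) :=
  Fintype.piFinset fun _ => Finset.Icc 0 N

lemma mem_box {ι : Type*} [Fintype ι] [DecidableEq ι] {N : ℤ} {v : ι → ℤ} :
    v ∈ box ι N ↔ ∀ i, 0 ≤ v i ∧ v i ≤ N := by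
  simp [box]

lemma sum_cons {n : ℕ} (I : Finset ℤ) (F : (Fin (n + 1) → ℤ) → K) :
    ∑ v ∈ Fintype.piFinset (fun _ : Fin (n + 1) => I), F v =
      ∑ x ∈ I, ∑ t ∈ Fintype.piFinset (fun _ : Fin n => I), F (Fin.cons x t) := by
  rw [← Finset.sum_product']
  symm
  refine Finset.sum_equiv (Fin.consEquiv fun _ => ℤ) (fun p => ?_) (fun p _ => rfl)
  simp [Fin.forall_fin_succ, Fin.consEquiv]

lemma sum_box (N : ℤ) (F : ℤ → ℤ → (Fin m → ℤ) → K) :
    ∑ v ∈ box (Fin (m + 2)) N, F (v 0) (v 1) (tl v) =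
      ∑ x ∈ Finset.Icc 0 N, ∑ y ∈ Finset.Icc 0 N,
        ∑ t ∈ Fintype.piFinset (fun _ : Fin m => Finset.Icc 0 N), F x y t := by
  rw [box, sum_cons]
  refine Finset.sum_congr rfl fun x _ => ?_
  rw [sum_cons]
  rfl

lemma prod_two (g : Fin (m + 2) → K) : ∏ i, g i = g 0 * g 1 * ∏ j : Fin m, g j.succ.succ := by
  rw [Fin.prod_univ_succ, Fin.prod_univ_succ, mul_assoc]
  rfl

lemma eq_zero_two {v : Fin (m + 2) → ℤ} (h : v 0 = 0 ∧ v 1 = 0 ∧ ∀ j, tl v j = 0) : v = 0 := by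
  funext i
  refine Fin.cases h.1 (fun i => Fin.cases h.2.1 (fun j => h.2.2 j) i) i

def hV (v : Fin (m + 2) → ℤ) : ℤ := hD (v 0) (v 1) (tl v)

def eV (v : Fin (m + 2) → ℤ) : ℤ := eD (v 0) (v 1) (tl v)

def kV (q : K) (v u : Fin (m + 2) → ℤ) : K := ker q (v 0) (v 1) (tl v) (u 0) (u 1) (tl u)

lemma intertwineV (hq : Good q) (N : ℤ) {v u : Fin (m + 2) → ℤ} (hv : v ∈ box _ N)
    (hu : u ∈ box _ N) :
    ∑ w ∈ box _ N, q ^ hV w * kV q w u * ∏ i, io q (v i - w i) =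
      ∑ w ∈ box _ N, q ^ hV w * kV q v w * ∏ i, io q (w i - u i) := by
  rw [mem_box] at hv hu
  have := intertwine hq N (v 0) (v 1) (tl v) (u 0) (u 1) (tl u) (hv _).2 (hv _).2
    (fun _ => (hv _).2) (hu _).1 (hu _).1 (fun _ => (hu _).1)
  rw [← sum_box, ← sum_box] at this
  simp only [prod_two]
  exact this

lemma size_lt {ι : Type*} [Fintype ι] {v u : ι → ℤ} (h0 : ∀ i, 0 ≤ u i) (h : ∀ i, u i ≤ v i)
    (hne : u ≠ v) : ∑ i, (u i).toNat < ∑ i, (v i).toNat := by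
  obtain ⟨i, hi⟩ := Function.ne_iff.mp hne
  refine Finset.sum_lt_sum (fun j _ => ?_) ⟨i, Finset.mem_univ _, ?_⟩
  · have := h j; omega
  · have := h i; have := h0 i; omega

lemma kV_le {v u : Fin (m + 2) → ℤ} (h : kV q v u ≠ 0) : ∀ i, u i ≤ v i := by
  obtain ⟨h1, h2, h3, -⟩ := ker_ne h
  intro i
  exact Fin.cases h1 (fun i => Fin.cases h2 (fun j => h3 j) i) i

lemma tau_nonneg {x y : ℤ} {t : Fin m → ℤ} (hx : 0 ≤ x) (hy : 0 ≤ y) (ht : ∀ j, 0 ≤ t j)
    (i : Fin (m + 1)) : 0 ≤ tau x y t i :=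
  Fin.cases (add_nonneg hx hy) (fun j => ht j) i

lemma tau_zero_fun (i : Fin (m + 1)) : tau 0 0 (fun _ => 0) i = 0 :=
  Fin.cases rfl (fun _ => rfl) i

theorem fixed (hq : Good q) (N : ℤ) (hN : 0 ≤ N) (J : (Fin (m + 2) → ℤ) → K) (h0 : J 0 = 1)
    (hJ : ∀ v ∈ box _ N, J v = ∑ w ∈ box _ N, (q ^ hV w * ∏ i, io q (v i - w i)) * J w) :
    ∀ v ∈ box _ N, J v = ∑ u ∈ box _ N, q ^ hV u * kV q v u * J u := by
  refine uniq_abs (box _ N) (fun v w => q ^ hV w * ∏ i, io q (v i - w i))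
    (fun v => ∑ i, (v i).toNat) 0 J _ ?_ ?_ hJ ?_ ?_
  · intro v _ u hu hne h
    refine size_lt (fun i => (mem_box.mp hu i).1) (fun i => ?_) hne
    have := nonneg_of_io (Finset.prod_ne_zero_iff.mp (right_ne_zero_of_mul h) i (Finset.mem_univ _))
    omega
  · intro v hv hne
    simp only [sub_self, io_zero, Finset.prod_const_one, mul_one]
    apply one_sub_ne hq
    rw [mem_box] at hv
    refine lt_of_le_of_ne (hD_nonneg _ _ _) fun h => hne (eq_zero_two ?_)
    exact zero_of_hD (hv _).1 (hv _).1 (fun _ => (hv _).1) h.symm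
  · intro v hv
    calc ∑ u ∈ box _ N, q ^ hV u * kV q v u * J u
        = ∑ w ∈ box _ N, ∑ u ∈ box _ N,
            (q ^ hV u * J u) * (q ^ hV w * kV q v w * ∏ i, io q (w i - u i)) := by
          refine Finset.sum_congr rfl fun w hw => ?_
          rw [hJ w hw, Finset.mul_sum]
          exact Finset.sum_congr rfl fun u _ => by ring
      _ = ∑ u ∈ box _ N, ∑ w ∈ box _ N,
            (q ^ hV u * J u) * (q ^ hV w * kV q w u * ∏ i, io q (v i - w i)) := by
          rw [Finset.sum_comm]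
          refine Finset.sum_congr rfl fun u hu => ?_
          rw [← Finset.mul_sum, ← Finset.mul_sum, intertwineV hq N hv hu]
      _ = _ := by
          rw [Finset.sum_comm]
          refine Finset.sum_congr rfl fun w _ => ?_
          rw [Finset.mul_sum]
          exact Finset.sum_congr rfl fun u _ => by ring
  · have hz : (0 : Fin (m + 2) → ℤ) ∈ box _ N := mem_box.mpr fun i => ⟨le_rfl, hN⟩
    rw [Finset.sum_eq_single_of_mem 0 hz]
    · have e : tl (0 : Fin (m + 2) → ℤ) = fun _ => 0 := rfl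
      simp [h0, hV, kV, hD, ker, EE, e, tau_zero_fun]
    · intro u hu hne
      have : kV q 0 u = 0 := by
        by_contra h
        apply hne
        funext i
        exact le_antisymm (kV_le h i) (mem_box.mp hu i).1
      simp [this]

theorem numer_mem (hq : Good q) (N : ℤ) (hN : 0 ≤ N) (J : (Fin (m + 2) → ℤ) → K) (h0 : J 0 = 1)
    (hJ : ∀ v ∈ box _ N, J v = ∑ w ∈ box _ N, (q ^ hV w * ∏ i, io q (v i - w i)) * J w) :
    ∀ v ∈ box _ N, ∃ p ∈ SU (eV v), ev q p = (∏ i, pz q (v i)) ^ 2 * J v := by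
  intro v
  induction' hn : ∑ i, (v i).toNat using Nat.strong_induction_on with n ih generalizing v
  intro hv
  by_cases hvz : v = 0
  · subst hvz
    refine ⟨1, ?_, by simp [h0]⟩
    have e : tl (0 : Fin (m + 2) → ℤ) = fun _ => 0 := rfl
    simpa [eV, eD, e] using one_mem_SU
  have term : ∀ u ∈ box (Fin (m + 2)) N, ∃ p ∈ SU (eV v),
      ev q p = (∏ i, pz q (v i)) ^ 2 * (q ^ hV u * kV q v u * J u) := by
    intro u hu
    by_cases hk : kV q v u = 0
    · exact ⟨0, zero_mem _, by simp [hk]⟩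
    have hu' := mem_box.mp hu
    have hv' := mem_box.mp hv
    obtain ⟨-, -, -, h4, h5⟩ := ker_ne hk
    have hne : u ≠ v := by
      rintro rfl
      exact hvz (eq_zero_two (zero_of_mono (hu' _).1 (hu' _).1 (fun _ => (hu' _).1) h4 h5))
    obtain ⟨p, hp, hpe⟩ := ih _ (hn ▸ size_lt (fun i => (hu' i).1) (kV_le hk) hne) u rfl hu
    have hl : tau (u 0) (u 1) (tl u) (Fin.last m) = 0 :=
      le_antisymm h5 (tau_nonneg (hu' _).1 (hu' _).1 (fun _ => (hu' _).1) _)
    have hh : 0 ≤ hV u := hD_nonneg _ _ _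
    refine ⟨X ^ (hV u).toNat * Rp (v 0) (v 1) (tl v) (u 0) (u 1) (tl u) * p, ?_, ?_⟩
    · have := SU_mul (SU_mul (X_pow_mem (hV u).toNat)
        (Rp_mem (v 0) (v 1) (tl v) (u 0) (u 1) (tl u) hl)) hp
      convert this using 2
      rw [Int.toNat_of_nonneg hh]
      simp only [eV, hV]
      ring
    · have h6 := Rp_ev hq (v 0) (v 1) (tl v) (u 0) (u 1) (tl u) hl (hu' _).1 (hu' _).1
        (fun _ => (hu' _).1)
      rw [map_mul, map_mul, map_pow, ev_X, hpe, ← zpow_natCast, Int.toNat_of_nonneg hh]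
      simp only [prod_two]
      simp only [tl] at h6
      rw [kV]
      linear_combination (-(q ^ hV u * J u)) * h6
  choose! p hp using term
  refine ⟨∑ u ∈ box _ N, p u, sum_mem fun u hu => (hp u hu).1, ?_⟩
  rw [fixed hq N hN J h0 hJ v hv, map_sum, Finset.mul_sum]
  exact Finset.sum_congr rfl fun u hu => (hp u hu).2

end Pool.Agent.Lib.MP_4223bd_al
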