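import Mathlib
import Pool.Agent.Lib.MP_4223bd_al.Fix

set_option autoImplicit false

open Polynomial

namespace Pool.Agent.Lib.MP_4223bd_al

/-! Transport to Cartan matrices: subdiagrams, disjoint unions, types `A` and `D`. -/

variable {K : Type*} [Field K] {q : K}

section General

variable {ι κ : Type*} [Fintype ι] [DecidableEq ι] [Fintype κ] [DecidableEq κ]

def poch (q : K) (a : ι → ℕ) : K := ∏ i, pq q (a i)

def QF (A : Matrix ι ι ℤ) (a : ι → ℕ) : ℤ := ∑ i, ∑ j, (a i : ℤ) * A i j * a j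

def IsSol (q : K) (h : (ι → ℕ) → ℤ) (J : (ι → ℕ) → K) : Prop :=
  J 0 = 1 ∧ ∀ a, J a = ∑ c ∈ Finset.Iic a, q ^ h c / poch q (a - c) * J c

def Nice (q : K) (A : Matrix ι ι ℤ) : Prop :=
  ∃ h : (ι → ℕ) → ℤ, (∀ a, QF A a = 2 * h a) ∧ (∀ a, a ≠ 0 → 0 < h a) ∧
    ∃ J, IsSol q h J ∧ ∀ a, ∃ c, ∃ p ∈ SU c, ev q p = poch q a ^ 2 * J a

omit [DecidableEq ι] in
@[simp] lemma poch_zero : poch q (0 : ι → ℕ) = 1 := by simp [poch, pq]

lemma sol_unique (hq : Good q) {h : (ι → ℕ) → ℤ} (hpos : ∀ a, a ≠ 0 → 0 < h a)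
    {J J' : (ι → ℕ) → K} (hJ : IsSol q h J) (hJ' : IsSol q h J') (a : ι → ℕ) : J a = J' a := by
  induction' hn : ∑ i, a i using Nat.strong_induction_on with n ih generalizing a
  by_cases ha : a = 0
  · rw [ha, hJ.1, hJ'.1]
  have e : ∑ c ∈ Finset.Iio a, q ^ h c / poch q (a - c) * J c =
      ∑ c ∈ Finset.Iio a, q ^ h c / poch q (a - c) * J' c := by
    refine Finset.sum_congr rfl fun c hc => ?_
    obtain ⟨h1, i, hi⟩ := Pi.lt_def.mp (Finset.mem_Iio.mp hc)
    rw [ih _ (hn ▸ Finset.sum_lt_sum (fun j _ => h1 j) ⟨i, Finset.mem_univ _, hi⟩) c rfl]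
  have f1 := hJ.2 a
  have f2 := hJ'.2 a
  rw [← Finset.Iio_insert, Finset.sum_insert (by simp), tsub_self, poch_zero] at f1 f2
  apply mul_left_cancel₀ (one_sub_ne hq (hpos a ha))
  linear_combination f1 - f2 + e

noncomputable def Jrec (q : K) (h : (ι → ℕ) → ℤ) (a : ι → ℕ) : K :=
  if a = 0 then 1 else
    (∑ c ∈ (Finset.Iio a).attach, q ^ h c.1 / poch q (a - c.1) * Jrec q h c.1) / (1 - q ^ h a)
termination_by ∑ i, a i
decreasing_by
  have h := Finset.mem_Iio.mp c.2
  obtain ⟨h1, i, hi⟩ := Pi.lt_def.mp h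
  exact Finset.sum_lt_sum (fun j _ => h1 j) ⟨i, Finset.mem_univ _, hi⟩

lemma exists_sol (hq : Good q) {h : (ι → ℕ) → ℤ} (h0 : h 0 = 0) (hpos : ∀ a, a ≠ 0 → 0 < h a) :
    ∃ J, IsSol q h J := by
  refine ⟨Jrec q h, by rw [Jrec]; simp, fun a => ?_⟩
  by_cases ha : a = 0
  · subst ha
    have : Finset.Iic (0 : ι → ℕ) = {0} := by
      ext c; simp
    rw [this]
    simp [h0]
  · rw [← Finset.Iio_insert, Finset.sum_insert (by simp)]
    have hne := one_sub_ne hq (hpos a ha)
    have e : Jrec q h a * (1 - q ^ h a) =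
        ∑ c ∈ Finset.Iio a, q ^ h c / poch q (a - c) * Jrec q h c := by
      conv_lhs => rw [Jrec]
      rw [if_neg ha, div_mul_cancel₀ _ hne]
      exact Finset.sum_attach (Finset.Iio a) (fun c => q ^ h c / poch q (a - c) * Jrec q h c)
    rw [← e, tsub_self, poch_zero]
    ring

noncomputable def ext (f : ι → κ) (a : ι → ℕ) : κ → ℕ := Function.extend f a 0

omit [Fintype ι] [DecidableEq ι] [Fintype κ] [DecidableEq κ] in
lemma ext_apply {f : ι → κ} (hf : Function.Injective f) (a : ι → ℕ) (i : ι) :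
    ext f a (f i) = a i := hf.extend_apply _ _ _

omit [Fintype ι] [DecidableEq ι] [Fintype κ] [DecidableEq κ] in
lemma ext_out {f : ι → κ} (a : ι → ℕ) {k : κ} (hk : ¬∃ i, f i = k) : ext f a k = 0 :=
  Function.extend_apply' _ _ _ hk

omit [DecidableEq ι] [DecidableEq κ] in
lemma prod_ext {M : Type*} [CommMonoid M] {f : ι → κ} (hf : Function.Injective f)
    (F : κ → M) (hF : ∀ k, (¬∃ i, f i = k) → F k = 1) : ∏ k, F k = ∏ i, F (f i) := by
  symm
  refine Finset.prod_of_injOn f hf.injOn (fun _ _ => Finset.mem_univ _) (fun k _ hk => hF k ?_)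
    (fun _ _ => rfl)
  simpa using hk

omit [DecidableEq ι] [DecidableEq κ] in
lemma sum_ext {f : ι → κ} (hf : Function.Injective f)
    (F : κ → ℤ) (hF : ∀ k, (¬∃ i, f i = k) → F k = 0) : ∑ k, F k = ∑ i, F (f i) := by
  symm
  refine Finset.sum_of_injOn f hf.injOn (fun _ _ => Finset.mem_univ _) (fun k _ hk => hF k ?_)
    (fun _ _ => rfl)
  simpa using hk

lemma Nice.embed {A : Matrix ι ι ℤ} {B : Matrix κ κ ℤ} (hB : Nice q B) {f : ι → κ}
    (hf : Function.Injective f) (hAB : ∀ i j, A i j = B (f i) (f j)) : Nice q A := by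
  obtain ⟨h, h1, h2, J, ⟨h3, h4⟩, h5⟩ := hB
  have e0 : ext f (0 : ι → ℕ) = 0 := by
    funext k
    by_cases hk : ∃ i, f i = k
    · obtain ⟨i, rfl⟩ := hk; rw [ext_apply hf]; rfl
    · rw [ext_out _ hk]; rfl
  have ep : ∀ a : ι → ℕ, poch q (ext f a) = poch q a := by
    intro a
    rw [poch, prod_ext hf _ fun k hk => by rw [ext_out _ hk]; simp [pq]]
    simp only [ext_apply hf, poch]
  have es : ∀ a c : ι → ℕ, ext f a - ext f c = ext f (a - c) := by
    intro a c
    funext k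
    by_cases hk : ∃ i, f i = k
    · obtain ⟨i, rfl⟩ := hk; simp only [Pi.sub_apply, ext_apply hf]
    · simp only [Pi.sub_apply, ext_out _ hk]
  refine ⟨fun a => h (ext f a), fun a => ?_, fun a ha => h2 _ fun h0 => ha ?_,
    fun a => J (ext f a), ⟨by simp only [e0, h3], fun a => ?_⟩, fun a => ?_⟩
  · rw [← h1, QF, QF, sum_ext hf _ fun k hk => by rw [ext_out _ hk]; simp]
    refine Finset.sum_congr rfl fun i _ => ?_
    rw [sum_ext hf _ fun k hk => by rw [ext_out _ hk]; simp]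
    simp only [ext_apply hf, hAB]
  · funext i
    rw [← ext_apply hf a i, h0]; rfl
  · beta_reduce
    rw [h4]
    symm
    refine Finset.sum_nbij' (ext f) (fun c => c ∘ f) ?_ ?_ ?_ ?_ ?_
    · intro c hc
      rw [Finset.mem_Iic] at hc ⊢
      intro k
      by_cases hk : ∃ i, f i = k
      · obtain ⟨i, rfl⟩ := hk; simp only [ext_apply hf]; exact hc i
      · simp only [ext_out _ hk, le_refl]
    · intro c hc
      rw [Finset.mem_Iic] at hc ⊢
      intro i
      rw [← ext_apply hf a i]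
      exact hc (f i)
    · intro c _
      funext i
      exact ext_apply hf c i
    · intro c hc
      rw [Finset.mem_Iic] at hc
      funext k
      by_cases hk : ∃ i, f i = k
      · obtain ⟨i, rfl⟩ := hk; exact ext_apply hf _ i
      · have := hc k
        rw [ext_out _ hk] at this ⊢
        exact (Nat.le_zero.mp this).symm
    · intro c _
      rw [es, ep]
  · rw [← ep]
    exact h5 _

lemma Nice.sigma (hq : Good q) {σ : Type*} [Fintype σ] [DecidableEq σ] {τ : σ → Type*} [∀ s, Fintype (τ s)]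
    [∀ s, DecidableEq (τ s)] (M : ∀ s, Matrix (τ s) (τ s) ℤ) (hM : ∀ s, Nice q (M s)) :
    Nice q (Matrix.blockDiagonal' M) := by
  choose h h1 h2 J hJ h5 using hM
  have hz : ∀ s, h s 0 = 0 := by
    intro s
    have := h1 s 0
    simp only [QF, Pi.zero_apply, Nat.cast_zero, mul_zero, Finset.sum_const_zero] at this
    omega
  have hnn : ∀ s a, 0 ≤ h s a := by
    intro s a
    by_cases ha : a = 0
    · rw [ha, hz]
    · exact (h2 s a ha).le
  have ep : ∀ a : (Σ s, τ s) → ℕ, poch q a = ∏ s, poch q fun i => a ⟨s, i⟩ := by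
    intro a
    simp only [poch]
    rw [Fintype.prod_sigma]
  refine ⟨fun a => ∑ s, h s fun i => a ⟨s, i⟩, fun a => ?_, fun a ha => ?_,
    fun a => ∏ s, J s fun i => a ⟨s, i⟩, ⟨?_, fun a => ?_⟩, fun a => ?_⟩
  · rw [Finset.mul_sum, QF, Fintype.sum_sigma]
    refine Finset.sum_congr rfl fun s _ => ?_
    rw [← h1, QF]
    refine Finset.sum_congr rfl fun i _ => ?_
    rw [Fintype.sum_sigma, Finset.sum_eq_single s]
    · simp only [Matrix.blockDiagonal'_apply_eq]
    · intro t _ ht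
      simp [Matrix.blockDiagonal'_apply_ne _ _ _ ht.symm]
    · simp
  · obtain ⟨⟨s, i⟩, hi⟩ := Function.ne_iff.mp ha
    exact Finset.sum_pos' (fun t _ => hnn t _)
      ⟨s, Finset.mem_univ _, h2 s _ fun h0 => hi (congrFun h0 i)⟩
  · exact Finset.prod_eq_one fun s _ => (hJ s).1
  · beta_reduce
    rw [Finset.prod_congr rfl fun s _ => (hJ s).2 _, Finset.prod_univ_sum]
    symm
    refine Finset.sum_nbij' (fun c s i => c ⟨s, i⟩) (fun x p => x p.1 p.2) ?_ ?_ ?_ ?_ ?_
    · intro c hc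
      rw [Finset.mem_Iic] at hc
      exact Fintype.mem_piFinset.mpr fun s => Finset.mem_Iic.mpr fun i => hc _
    · intro x hx
      exact Finset.mem_Iic.mpr fun p =>
        Finset.mem_Iic.mp (Fintype.mem_piFinset.mp hx p.1) p.2
    · intro c _; rfl
    · intro x _; rfl
    · intro c _
      rw [Finset.prod_mul_distrib, Finset.prod_div_distrib, prod_zp hq, ep]
      rfl
  · choose c p hp using fun s => h5 s fun i => a ⟨s, i⟩
    refine ⟨∑ s, c s, ∏ s, p s, SU_prod _ _ _ fun s _ => (hp s).1, ?_⟩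
    rw [map_prod, ep, ← Finset.prod_pow, ← Finset.prod_mul_distrib]
    exact Finset.prod_congr rfl fun s _ => (hp s).2

lemma sum_Iic_box (a : ι → ℕ) (N : ℤ) (hN : ∀ i, (a i : ℤ) ≤ N) (F : (ι → ℤ) → K) :
    ∑ c ∈ Finset.Iic a, (poch q (a - c))⁻¹ * F (fun i => c i) =
      ∑ w ∈ box ι N, (∏ i, io q (a i - w i)) * F w := by
  refine Finset.sum_of_injOn (fun c i => (c i : ℤ)) ?_ ?_ ?_ ?_
  · intro c _ d _ h
    funext i
    exact Int.ofNat_inj.mp (congrFun h i)
  · intro c hc
    refine mem_box.mpr fun i => ⟨by positivity, le_trans ?_ (hN i)⟩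
    exact Int.ofNat_le.mpr (Finset.mem_Iic.mp hc i)
  · intro w hw hnot
    by_contra h
    apply hnot
    have hw' := mem_box.mp hw
    refine ⟨fun i => (w i).toNat, ?_, ?_⟩
    · simp only [Finset.coe_Iic, Set.mem_Iic]
      intro i
      have := nonneg_of_io
        (Finset.prod_ne_zero_iff.mp (left_ne_zero_of_mul h) i (Finset.mem_univ _))
      show (w i).toNat ≤ a i
      omega
    · funext i
      exact Int.toNat_of_nonneg (hw' i).1
  · intro c hc
    congr 1
    rw [poch, ← Finset.prod_inv_distrib]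
    refine Finset.prod_congr rfl fun i _ => ?_
    have : c i ≤ a i := Finset.mem_Iic.mp hc i
    beta_reduce
    rw [io, if_pos (by omega), pz, Pi.sub_apply]
    congr 2
    omega

end General

section TypeD

variable {m : ℕ}

def Adj (i j : Fin (m + 2)) : ℤ :=
  if (j.val = 2 ∧ i.val ≤ 1) ∨ (3 ≤ j.val ∧ i.val + 1 = j.val) then 1 else 0

def Dm (m : ℕ) : Matrix (Fin (m + 2)) (Fin (m + 2)) ℤ :=
  fun i j => (if i = j then 2 else 0) - Adj i j - Adj j i

lemma sum_two (g : Fin (m + 2) → ℤ) : ∑ i, g i = g 0 + g 1 + ∑ j : Fin m, g j.succ.succ := by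
  rw [Fin.sum_univ_succ, Fin.sum_univ_succ]
  exact (add_assoc _ _ _).symm

lemma sum_adj (v : Fin (m + 2) → ℤ) (k : Fin (m + 1)) (j : Fin (m + 2)) (h : j.val = k.val + 2) :
    ∑ i, v i * Adj i j = tau (v 0) (v 1) (tl v) k := by
  revert h
  refine Fin.cases (fun h => ?_) (fun k h => ?_) k
  · rw [sum_two, Finset.sum_eq_zero]
    · have h' : j.val = 2 := by simpa using h
      simp [Adj, h']
    · intro i _
      have h' : j.val = 2 := by simpa using h
      simp [Adj, h']
  · rw [Finset.sum_eq_single k.succ.succ]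
    · rw [Adj, if_pos (by simp only [Fin.val_succ] at h ⊢; omega), mul_one]; rfl
    · intro i _ hi
      have : i.val ≠ k.val + 2 := fun h' => hi (Fin.ext h')
      rw [Adj, if_neg (by simp only [Fin.val_succ] at h ⊢; omega), mul_zero]
    · simp

lemma form_Dm (v : Fin (m + 2) → ℤ) : ∑ i, ∑ j, v i * Dm m i j * v j = 2 * hV v := by
  have e1 : ∑ i, ∑ j, v i * (if i = j then 2 else 0) * v j = 2 * ∑ i, v i * v i := by
    rw [Finset.mul_sum]
    refine Finset.sum_congr rfl fun i _ => ?_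
    rw [Finset.sum_eq_single i]
    · simp; ring
    · intro j _ hj; simp [hj.symm]
    · simp
  have e2 : ∑ j, ∑ i, v i * Adj i j * v j = eV v := by
    simp only [← Finset.sum_mul]
    rw [sum_two, eV, eD]
    have z0 : ∑ i, v i * Adj i (0 : Fin (m + 2)) = 0 := by simp [Adj]
    have z1 : ∑ i, v i * Adj i (1 : Fin (m + 2)) = 0 := by simp [Adj]
    rw [z0, z1, zero_mul, zero_mul, zero_add, zero_add]
    exact Finset.sum_congr rfl fun j _ => by rw [sum_adj v j.castSucc j.succ.succ rfl]; rfl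
  have e3 : ∑ i, ∑ j, v i * Adj j i * v j = eV v := by
    rw [← e2]
    exact Finset.sum_congr rfl fun i _ => Finset.sum_congr rfl fun j _ => by ring
  rw [Finset.sum_comm] at e2
  simp only [Dm, mul_sub, sub_mul, Finset.sum_sub_distrib]
  rw [e1, e2, e3, sum_two, hV, hD, Finset.sum_sub_distrib, eV, eD]
  simp only [tl]
  ring

theorem nice_Dm (hq : Good q) (m : ℕ) : Nice q (Dm m) := by
  have hpos : ∀ a : Fin (m + 2) → ℕ, a ≠ 0 → 0 < hV fun i => (a i : ℤ) := by
    intro a ha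
    refine lt_of_le_of_ne (hD_nonneg _ _ _) fun h => ha ?_
    have := eq_zero_two (v := fun i => (a i : ℤ))
      (zero_of_hD (by positivity) (by positivity) (fun _ => Int.natCast_nonneg _) h.symm)
    funext i
    exact Int.ofNat_inj.mp (congrFun this i)
  have h0 : (hV fun i => (((0 : Fin (m + 2) → ℕ) i : ℕ) : ℤ)) = 0 := by
    simp [hV, hD, tl]
  obtain ⟨J, hJ⟩ := exists_sol hq (h := fun a : Fin (m + 2) → ℕ => hV fun i => (a i : ℤ)) h0 hpos
  refine ⟨fun a => hV fun i => (a i : ℤ), fun a => form_Dm _, hpos, J, hJ, fun a => ?_⟩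
  set N : ℤ := ∑ i, (a i : ℤ) with hN
  have hle : ∀ i, (a i : ℤ) ≤ N := fun i =>
    Finset.single_le_sum (f := fun i => (a i : ℤ)) (fun _ _ => by positivity) (Finset.mem_univ i)
  obtain ⟨p, hp, hpe⟩ := numer_mem hq N (by positivity) (fun v => J fun i => (v i).toNat) hJ.1
    (fun v hv => by
      have hv' := mem_box.mp hv
      have e : ∀ i, (((v i).toNat : ℕ) : ℤ) = v i := fun i => Int.toNat_of_nonneg (hv' i).1
      have := sum_Iic_box (q := q) (fun i => (v i).toNat) N (fun i => by rw [e]; exact (hv' i).2)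
        (fun w => q ^ hV w * J fun i => (w i).toNat)
      simp only [e, Int.toNat_natCast] at this
      rw [hJ.2]
      refine Eq.trans (Finset.sum_congr rfl fun c _ => by ring)
        (this.trans (Finset.sum_congr rfl fun w _ => by ring)))
    (fun i => (a i : ℤ)) (mem_box.mpr fun i => ⟨by positivity, hle i⟩)
  exact ⟨_, p, hp, by simpa [pz, poch] using hpe⟩

theorem nice_A (hq : Good q) (n : ℕ) : Nice q (CartanMatrix.A n) := by
  refine (nice_Dm hq n).embed (f := fun i => ⟨i.val + 1, by omega⟩) ?_ ?_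
  · intro i j h
    simp only [Fin.mk.injEq] at h
    exact Fin.ext (by omega)
  · intro i j
    simp only [CartanMatrix.A, Matrix.of_apply, Dm, Adj, Fin.ext_iff]
    split_ifs <;> omega

theorem nice_D (hq : Good q) (n : ℕ) (hn : 4 ≤ n) : Nice q (CartanMatrix.D n) := by
  obtain ⟨m, rfl⟩ : ∃ m, n = m + 2 := ⟨n - 2, by omega⟩
  refine (nice_Dm hq m).embed (f := Fin.rev) Fin.rev_injective ?_
  intro i j
  have hi := i.2
  have hj := j.2
  simp only [CartanMatrix.D, Matrix.of_apply, Dm, Adj, Fin.ext_iff, Fin.val_rev]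
  split_ifs <;> omega

end TypeD

end Pool.Agent.Lib.MP_4223bd_al
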