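import Mathlib
import Pool.Agent.Lib.MP_4223bd_al.Nice

set_option autoImplicit false

open Polynomial

namespace Pool.Agent.Lib.MP_4223bd_al

/-! A quantum torus acting on finitely supported functions, its trace, the polynomial
wall-crossing maps, and elements with symmetric unimodal coefficients. -/

variable {K : Type*} [Field K] {q : K}

/-- Values at `q` of symmetric unimodal Laurent polynomials with centre `c / 2`. -/
def SL (q : K) (c : ℤ) (x : K) : Prop :=
  ∃ D : ℕ, ∃ p ∈ SU (c + 2 * D), ev q p = q ^ D * x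

lemma SL_raise {c : ℤ} {x : K} {D : ℕ} {p : ℤ[X]} (hp : p ∈ SU (c + 2 * D))
    (h : ev q p = q ^ D * x) (E : ℕ) :
    X ^ E * p ∈ SU (c + 2 * (D + E : ℕ)) ∧ ev q (X ^ E * p) = q ^ (D + E) * x := by
  refine ⟨?_, by rw [map_mul, map_pow, ev_X, h]; ring⟩
  convert SU_mul (X_pow_mem E) hp using 2
  push_cast; ring

lemma SL_zero (c : ℤ) : SL q c 0 := ⟨0, 0, zero_mem _, by simp⟩

lemma SL.add {c : ℤ} {x y : K} (hx : SL q c x) (hy : SL q c y) : SL q c (x + y) := by
  obtain ⟨D, p, hp, h⟩ := hx
  obtain ⟨E, r, hr, h'⟩ := hy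
  obtain ⟨a1, a2⟩ := SL_raise hp h E
  obtain ⟨b1, b2⟩ := SL_raise hr h' D
  rw [add_comm E D] at b1 b2
  exact ⟨D + E, _, add_mem a1 b1, by rw [map_add, a2, b2]; ring⟩

lemma SL.mul {c d : ℤ} {x y : K} (hx : SL q c x) (hy : SL q d y) : SL q (c + d) (x * y) := by
  obtain ⟨D, p, hp, h⟩ := hx
  obtain ⟨E, r, hr, h'⟩ := hy
  refine ⟨D + E, p * r, ?_, by rw [map_mul, h, h']; ring⟩
  convert SU_mul hp hr using 2
  push_cast; ring

lemma SL_zpow (hq : Good q) (k : ℤ) : SL q (2 * k) (q ^ k) := by
  refine ⟨(-k).toNat, X ^ k.toNat, ?_, ?_⟩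
  · convert X_pow_mem k.toNat using 2
    omega
  · rw [map_pow, ev_X, ← zpow_natCast, ← zpow_natCast, ← zpow_add₀ hq.1]
    congr 1
    omega

lemma SL_gb (n k : ℤ) : SL q (k * (n - k)) (ev q (gb n k)) :=
  ⟨0, gb n k, by simpa using gb_mem n k, by simp⟩

lemma SL.cast {c d : ℤ} {x : K} (hx : SL q c x) (h : c = d) : SL q d x := h ▸ hx

lemma ev_gb_pascal (hq : Good q) (n : ℕ) (k : ℤ) :
    ev q (gb (n + 1) k) = q ^ k * ev q (gb n k) + ev q (gb n (k - 1)) := by
  simp only [ev_gb hq]
  rw [pz_step (n := (n : ℤ) + 1) (by omega), add_sub_cancel_right, io_step hq k,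
    show (n : ℤ) - k = (n + 1 - k) - 1 by ring, io_step hq, show (n : ℤ) - (k - 1) = n + 1 - k by ring,
    zp hq (show (n : ℤ) + 1 = (n + 1 - k) + k by ring)]
  ring

section Torus

variable {M : Type*} [AddCommGroup M]

/-- A bi-additive integral form. -/
structure Form (M : Type*) [AddCommGroup M] where
  b : M → M → ℤ
  add_left : ∀ x y w, b (x + y) w = b x w + b y w
  add_right : ∀ x y w, b x (y + w) = b x y + b x w

variable (B : Form M)

lemma Form.zero_left (w : M) : B.b 0 w = 0 := by
  have := B.add_left 0 0 w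
  rw [add_zero] at this; omega

lemma Form.zero_right (w : M) : B.b w 0 = 0 := by
  have := B.add_right w 0 0
  rw [add_zero] at this; omega

lemma Form.neg_right (x w : M) : B.b x (-w) = -B.b x w := by
  have := B.add_right x w (-w)
  rw [add_neg_cancel, B.zero_right] at this; omega

lemma Form.neg_left (x w : M) : B.b (-x) w = -B.b x w := by
  have := B.add_left x (-x) w
  rw [add_neg_cancel, B.zero_left] at this; omega

lemma Form.nsmul_left (j : ℕ) (x w : M) : B.b (j • x) w = j * B.b x w := by
  induction j with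
  | zero => simp [B.zero_left]
  | succ j ih => rw [succ_nsmul, B.add_left, ih]; push_cast; ring

lemma Form.nsmul_right (j : ℕ) (x w : M) : B.b x (j • w) = j * B.b x w := by
  induction j with
  | zero => simp [B.zero_right]
  | succ j ih => rw [succ_nsmul, B.add_right, ih]; push_cast; ring

/-- The commutation form. -/
def Form.L (x y : M) : ℤ := B.b x y - B.b y x

lemma Form.L_add_left (x y w : M) : B.L (x + y) w = B.L x w + B.L y w := by
  simp only [Form.L, B.add_left, B.add_right]; ring

lemma Form.L_self (x : M) : B.L x x = 0 := by simp [Form.L]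

lemma Form.L_swap (x y : M) : B.L x y = -B.L y x := by simp [Form.L]

lemma Form.L_neg_left (x y : M) : B.L (-x) y = -B.L x y := by
  simp only [Form.L, B.neg_left, B.neg_right]; ring

abbrev En (K M : Type*) [Field K] := Module.End K (M →₀ K)

noncomputable def z (q : K) (m : M) : En K M :=
  Finsupp.linearCombination K fun x => q ^ B.b m x • Finsupp.single (m + x) (1 : K)

lemma z_single (m x : M) (c : K) :
    z B q m (Finsupp.single x c) = (c * q ^ B.b m x) • Finsupp.single (m + x) (1 : K) := by
  rw [z, Finsupp.linearCombination_single, smul_smul]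

lemma z_mul (hq : Good q) (m n : M) : z B q m * z B q n = q ^ B.b m n • z B q (m + n) := by
  apply Finsupp.lhom_ext
  intro x c
  rw [Module.End.mul_apply, z_single, map_smul, z_single, LinearMap.smul_apply, z_single,
    smul_smul, smul_smul, add_assoc, B.add_left, B.add_right, zpow_add₀ hq.1, zpow_add₀ hq.1]
  congr 1
  ring

lemma z_zero : z B q 0 = 1 := by
  apply Finsupp.lhom_ext
  intro x c
  rw [z_single, B.zero_left]
  simp

lemma z_comm (hq : Good q) (m n : M) :
    z B q m * z B q n = q ^ B.L m n • (z B q n * z B q m) := by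
  rw [z_mul B hq, z_mul B hq, smul_smul, ← zpow_add₀ hq.1, add_comm n m, Form.L]
  congr 2
  ring

/-- Evaluation at the vacuum vector. -/
noncomputable def vac : En K M →ₗ[K] (M →₀ K) := LinearMap.applyₗ (Finsupp.single 0 1)

lemma vac_z (m : M) : vac (z B q m) = Finsupp.single m 1 := by
  simp [vac, z_single, B.zero_right]

noncomputable def tr : En K M →ₗ[K] K := (Finsupp.lapply 0).comp vac

open Classical in
lemma tr_z (m : M) : tr (z B q m) = if m = 0 then 1 else 0 := by
  simp [tr, vac_z, Finsupp.single_apply]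

lemma tr_one : tr (1 : En K M) = 1 := by
  simp [tr, vac]

/-- The span of the monomials with exponent in `S`. -/
noncomputable def Sp (q : K) (S : Set M) : Submodule K (En K M) := Submodule.span K (z B q '' S)

lemma z_mem {S : Set M} {m : M} (h : m ∈ S) : z B q m ∈ Sp B q S :=
  Submodule.subset_span ⟨m, h, rfl⟩

lemma Sp_mul (hq : Good q) {S : Set M} (hS : ∀ x ∈ S, ∀ y ∈ S, x + y ∈ S) {u v : En K M}
    (hu : u ∈ Sp B q S) (hv : v ∈ Sp B q S) : u * v ∈ Sp B q S := by
  induction hu using Submodule.span_induction with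
  | zero => simp
  | add x y _ _ hx hy => rw [add_mul]; exact add_mem hx hy
  | smul c x _ hx => rw [smul_mul_assoc]; exact Submodule.smul_mem _ _ hx
  | mem x hx =>
    induction hv using Submodule.span_induction with
    | zero => simp
    | add x y _ _ hx hy => rw [mul_add]; exact add_mem hx hy
    | smul c x _ hx => rw [mul_smul_comm]; exact Submodule.smul_mem _ _ hx
    | mem y hy =>
      obtain ⟨m, hm, rfl⟩ := hx
      obtain ⟨n, hn, rfl⟩ := hy
      rw [z_mul B hq]
      exact Submodule.smul_mem _ _ (z_mem B (hS m hm n hn))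

lemma tr_comm (hq : Good q) {u v : En K M} (hu : u ∈ Sp B q Set.univ)
    (hv : v ∈ Sp B q Set.univ) : tr (u * v) = tr (v * u) := by
  induction hu using Submodule.span_induction with
  | zero => simp
  | add x y _ _ hx hy => rw [add_mul, mul_add, map_add, map_add, hx, hy]
  | smul c x _ hx => rw [smul_mul_assoc, mul_smul_comm, map_smul, map_smul, hx]
  | mem x hx =>
    induction hv using Submodule.span_induction with
    | zero => simp
    | add x y _ _ hx hy => rw [add_mul, mul_add, map_add, map_add, hx, hy]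
    | smul c x _ hx => rw [smul_mul_assoc, mul_smul_comm, map_smul, map_smul, hx]
    | mem y hy =>
      obtain ⟨m, -, rfl⟩ := hx
      obtain ⟨n, -, rfl⟩ := hy
      rw [z_comm B hq m n, map_smul, z_mul B hq, map_smul, tr_z]
      split_ifs with h
      · have : n = -m := eq_neg_of_add_eq_zero_left h
        rw [this, B.L_swap, B.L_neg_left, B.L_self]
        simp
      · simp

/-- Normalised monomials. -/
noncomputable def Gz (q : K) (m : M) (e : ℤ) : En K M := q ^ ((e + B.b m m) / 2) • z B q m

lemma Gz_mul (hq : Good q) {m n : M} {e f : ℤ} (h1 : Even (e + B.b m m))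
    (h2 : Even (f + B.b n n)) :
    Gz B q m e * Gz B q n f = Gz B q (m + n) (e + f + B.L m n) ∧
      Even (e + f + B.L m n + B.b (m + n) (m + n)) := by
  obtain ⟨a, ha⟩ := h1
  obtain ⟨c, hc⟩ := h2
  have e1 : e + f + B.L m n + B.b (m + n) (m + n) = 2 * (a + c + B.b m n) := by
    simp only [Form.L, B.add_left, B.add_right]; omega
  refine ⟨?_, by rw [e1]; exact even_two_mul _⟩
  rw [Gz, Gz, Gz, smul_mul_assoc, mul_smul_comm, z_mul B hq, smul_smul, smul_smul,
    ← zpow_add₀ hq.1, ← zpow_add₀ hq.1, e1, ha, hc]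
  congr 2
  omega

lemma Gz_shift (hq : Good q) (m : M) (e k : ℤ) : q ^ k • Gz B q m e = Gz B q m (e + 2 * k) := by
  rw [Gz, Gz, smul_smul, ← zpow_add₀ hq.1]
  congr 2
  omega

/-- The wall-crossing polynomial. -/
noncomputable def PP (q : K) (n : M) : ℕ → ℕ → En K M
  | _, 0 => 1
  | t, l + 1 => (1 + q ^ t • Gz B q n 1) * PP q n (t + 1) l

lemma PP_add (n : M) (l k : ℕ) : ∀ t, PP B q n t (l + k) = PP B q n t l * PP B q n (t + l) k := by
  induction l with
  | zero => intro t; simp [PP]
  | succ l ih =>
    intro t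
    rw [show l + 1 + k = (l + k) + 1 by ring, PP, PP, ih, mul_assoc,
      show t + 1 + l = t + (l + 1) by ring]

lemma PP_commute (n : M) (l : ℕ) : ∀ t, Commute (Gz B q n 1) (PP B q n t l) := by
  induction l with
  | zero => intro t; exact Commute.one_right _
  | succ l ih =>
    intro t
    exact ((Commute.one_right _).add_right ((Commute.refl _).smul_right _)).mul_right (ih _)

lemma PP_commute2 (n : M) (l k s : ℕ) : ∀ t, Commute (PP B q n t l) (PP B q n s k) := by
  induction l with
  | zero => intro t; exact Commute.one_left _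
  | succ l ih =>
    intro t
    exact ((Commute.one_left _).add_left ((PP_commute B n k s).smul_left _)).mul_left (ih _)

lemma PP_z (hq : Good q) (n m : M) (k : ℕ) (hk : B.L n m = k) (l : ℕ) :
    ∀ t, PP B q n t l * z B q m = z B q m * PP B q n (t + k) l := by
  induction l with
  | zero => intro t; simp [PP]
  | succ l ih =>
    intro t
    have h1 : Gz B q n 1 * z B q m = q ^ k • (z B q m * Gz B q n 1) := by
      rw [Gz, smul_mul_assoc, mul_smul_comm, z_comm B hq n m, hk, smul_comm, zpow_natCast]
    rw [PP, PP, mul_assoc, ih, ← mul_assoc, ← mul_assoc, show t + 1 + k = t + k + 1 by ring]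
    congr 1
    rw [add_mul, mul_add, one_mul, mul_one, smul_mul_assoc, h1, mul_smul_comm, smul_smul, pow_add]

noncomputable def th (q : K) (n : M) : En K M →ₗ[K] En K M :=
  (Finsupp.linearCombination K fun m => z B q m * PP B q n 0 (B.L n m).toNat).comp vac

lemma th_z (n m : M) : th B q n (z B q m) = z B q m * PP B q n 0 (B.L n m).toNat := by
  simp [th, vac_z]

lemma th_one (n : M) : th B q n 1 = 1 := by
  rw [← z_zero B (q := q), th_z]
  simp [Form.L, B.zero_left, B.zero_right, PP]

lemma L_add_right (x y w : M) : B.L x (y + w) = B.L x y + B.L x w := by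
  simp only [Form.L, B.add_left, B.add_right]; ring

lemma th_mul (hq : Good q) (n : M) {u v : En K M} (hu : u ∈ Sp B q {m | 0 ≤ B.L n m})
    (hv : v ∈ Sp B q {m | 0 ≤ B.L n m}) : th B q n (u * v) = th B q n u * th B q n v := by
  induction hu using Submodule.span_induction with
  | zero => simp
  | add x y _ _ hx hy => rw [add_mul, map_add, map_add, hx, hy, add_mul]
  | smul c x _ hx => rw [smul_mul_assoc, map_smul, map_smul, hx, smul_mul_assoc]
  | mem x hx =>
    induction hv using Submodule.span_induction with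
    | zero => simp
    | add x y _ _ hx hy => rw [mul_add, map_add, map_add, hx, hy, mul_add]
    | smul c x _ hx => rw [mul_smul_comm, map_smul, map_smul, hx, mul_smul_comm]
    | mem y hy =>
      obtain ⟨a, ha, rfl⟩ := hx
      obtain ⟨b, hb, rfl⟩ := hy
      have ha' : 0 ≤ B.L n a := ha
      have hb' : 0 ≤ B.L n b := hb
      have e : (B.L n (a + b)).toNat = (B.L n b).toNat + (B.L n a).toNat := by
        rw [L_add_right]; omega
      rw [z_mul B hq, map_smul, th_z, th_z, th_z, e, PP_add, mul_assoc, ← mul_assoc (PP B q n 0 _),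
        PP_z B hq n b (B.L n b).toNat (by omega), mul_assoc, (PP_commute2 B n _ _ _ _).eq,
        ← mul_assoc (z B q a), z_mul B hq, smul_mul_assoc]

/-- Elements whose coefficients are symmetric unimodal with the canonical centres. -/
inductive Cent (q : K) (c : ℤ) : En K M → Prop
  | zero : Cent q c 0
  | mono (m : M) (s : K) (h : SL q (c + B.b m m) s) : Cent q c (s • z B q m)
  | add {u v : En K M} : Cent q c u → Cent q c v → Cent q c (u + v)

lemma Cent.sum {c : ℤ} {ι : Type*} (s : Finset ι) (f : ι → En K M)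
    (h : ∀ i ∈ s, Cent B q c (f i)) : Cent B q c (∑ i ∈ s, f i) :=
  Finset.sum_induction f _ (fun _ _ => Cent.add) Cent.zero h

lemma tr_cent (hq : Good q) {c d : ℤ} {u v : En K M} (hu : Cent B q c u) (hv : Cent B q d v) :
    SL q (c + d) (tr (u * v)) := by
  induction hu with
  | zero => simpa using SL_zero _
  | add _ _ h1 h2 => rw [add_mul, map_add]; exact h1.add h2
  | mono m s hs =>
    induction hv with
    | zero => simpa using SL_zero _
    | add _ _ h1 h2 => rw [mul_add, map_add]; exact h1.add h2
    | mono n r hr =>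
      rw [smul_mul_assoc, mul_smul_comm, z_mul B hq, map_smul, map_smul, map_smul, tr_z]
      split_ifs with h
      · have : n = -m := eq_neg_of_add_eq_zero_right h
        subst this
        simp only [smul_eq_mul, mul_one]
        refine (hs.mul (hr.mul (SL_zpow hq _))).cast ?_
        simp only [B.neg_left, B.neg_right]
        ring
      · simpa using SL_zero _

lemma PP_expand (hq : Good q) (n : M) (l : ℕ) : ∀ t : ℕ, PP B q n t l =
    ∑ j ∈ Finset.range (l + 1),
      (q ^ ((t : ℤ) * j + (j.choose 2 : ℕ)) * ev q (gb l j)) • Gz B q n 1 ^ j := by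
  induction l with
  | zero => intro t; simp [PP, ev_gb hq]
  | succ l ih =>
    intro t
    have top : ev q (gb (l : ℤ) ((l + 1 : ℕ) : ℤ)) = 0 := by
      rw [ev_gb hq, io_neg (n := (l : ℤ) - (l + 1 : ℕ)) (by omega), mul_zero]
    have bot : ev q (gb (l : ℤ) (((0 : ℕ) : ℤ) - 1)) = 0 := by
      rw [ev_gb hq, io_neg (n := ((0 : ℕ) : ℤ) - 1) (by omega)]; simp
    rw [PP, ih, add_mul, one_mul]
    simp only [Nat.cast_succ l, ev_gb_pascal hq, mul_add, add_smul, Finset.sum_add_distrib]
    congr 1
    · rw [Finset.sum_range_succ _ (l + 1), top]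
      simp only [mul_zero, zero_smul, add_zero]
      refine Finset.sum_congr rfl fun j _ => ?_
      rw [← mul_assoc, ← zpow_add₀ hq.1]
      congr 3
      push_cast; ring
    · rw [Finset.sum_range_succ' _ (l + 1), bot]
      simp only [mul_zero, zero_smul, add_zero, Finset.mul_sum]
      refine Finset.sum_congr rfl fun j _ => ?_
      rw [smul_mul_assoc, mul_smul_comm, smul_smul, ← pow_succ', ← mul_assoc, ← zpow_natCast,
        ← zpow_add₀ hq.1, Nat.choose_succ_succ' j 1, Nat.choose_one_right]
      congr 2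
      · congr 1; push_cast; ring
      · congr 2; push_cast; ring

lemma Gz_pow (hq : Good q) {n : M} (hn : Even (1 + B.b n n)) (j : ℕ) :
    Gz B q n 1 ^ j = Gz B q (j • n) j ∧ Even ((j : ℤ) + B.b (j • n) (j • n)) := by
  induction j with
  | zero => simp [Gz, B.zero_left, z_zero]
  | succ j ih =>
    have h := Gz_mul B hq ih.2 hn
    have e : B.L (j • n) n = 0 := by simp [Form.L, B.nsmul_left, B.nsmul_right]
    rw [e, add_zero, ← succ_nsmul] at h
    rw [pow_succ, ih.1]
    exact_mod_cast h

lemma th_cent (hq : Good q) {n : M} (hn : Even (1 + B.b n n)) {c : ℤ} {u : En K M}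
    (hu : Cent B q c u) : Cent B q c (th B q n u) := by
  induction hu with
  | zero => simpa using Cent.zero
  | add _ _ h1 h2 => rw [map_add]; exact h1.add h2
  | mono m s hs =>
    rw [map_smul, th_z]
    rcases le_or_gt (B.L n m) 0 with h | h
    · rw [Int.toNat_of_nonpos h, PP, mul_one]
      exact Cent.mono m s hs
    rw [PP_expand B hq, Finset.mul_sum, Finset.smul_sum]
    refine Cent.sum B _ _ fun j _ => ?_
    obtain ⟨h1, a, ha⟩ := Gz_pow B hq hn j
    rw [h1, Gz, mul_smul_comm, mul_smul_comm, z_mul B hq, smul_smul, smul_smul, smul_smul]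
    refine Cent.mono _ _ ?_
    refine (((hs.mul ((SL_zpow hq _).mul (SL_gb _ _))).mul (SL_zpow hq _)).mul
      (SL_zpow hq _)).cast ?_
    have e2 : 2 * ((j.choose 2 : ℕ) : ℤ) = j * (j - 1) := by
      rcases j with _ | j
      · simp
      · have := Nat.triangle_succ j
        have h3 : 2 * (j + 1).choose 2 = (j + 1) * j := by
          rw [Nat.choose_two_right, Nat.add_sub_cancel]
          exact Nat.mul_div_cancel' (Nat.even_mul_pred_self (j + 1)).two_dvd
        push_cast
        rw [add_sub_cancel_right]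
        exact_mod_cast h3
    have e3 : 2 * (((j : ℤ) + B.b (j • n) (j • n)) / 2) = j + B.b (j • n) (j • n) := by omega
    rw [Int.toNat_of_nonneg h.le]
    simp only [B.add_left, B.add_right, Form.L] at *
    rw [B.nsmul_left j n m, B.nsmul_right j m n]
    push_cast
    linear_combination e2 + e3

/-- The composite of the wall-crossing maps along a list. -/
noncomputable def Th (q : K) : List M → En K M →ₗ[K] En K M
  | [] => LinearMap.id
  | n :: ns => (Th q ns).comp (th B q n)

def Dom (q : K) : List M → En K M → Prop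
  | [], u => u ∈ Sp B q Set.univ
  | n :: ns, u => u ∈ Sp B q {m | 0 ≤ B.L n m} ∧ Dom q ns (th B q n u)

lemma Dom_one (ns : List M) : Dom B q ns 1 ∧ Th B q ns 1 = 1 := by
  induction ns with
  | nil => exact ⟨z_zero B (q := q) ▸ z_mem B (Set.mem_univ _), rfl⟩
  | cons n ns ih =>
    refine ⟨⟨?_, by rw [th_one]; exact ih.1⟩, ?_⟩
    · rw [← z_zero B (q := q)]
      exact z_mem B (by simp [Form.L, B.zero_left, B.zero_right])
    · rw [Th, LinearMap.comp_apply, th_one, ih.2]

lemma Dom_mul (hq : Good q) (ns : List M) : ∀ {u v : En K M}, Dom B q ns u → Dom B q ns v →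
    Dom B q ns (u * v) ∧ Th B q ns (u * v) = Th B q ns u * Th B q ns v := by
  induction ns with
  | nil => intro u v hu hv; exact ⟨Sp_mul B hq (by simp) hu hv, rfl⟩
  | cons n ns ih =>
    intro u v hu hv
    have h1 := th_mul B hq n hu.1 hv.1
    have h2 := ih hu.2 hv.2
    refine ⟨⟨Sp_mul B hq (fun x hx y hy => ?_) hu.1 hv.1, by rw [h1]; exact h2.1⟩, ?_⟩
    · have hx' : 0 ≤ B.L n x := hx
      have hy' : 0 ≤ B.L n y := hy
      show 0 ≤ B.L n (x + y)
      rw [L_add_right]; omega
    · simp only [Th, LinearMap.comp_apply]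
      rw [h1, h2.2]

lemma Dom_Sp (ns : List M) : ∀ {u : En K M}, Dom B q ns u → Th B q ns u ∈ Sp B q Set.univ := by
  induction ns with
  | nil => intro u hu; exact hu
  | cons n ns ih => intro u hu; exact ih hu.2

lemma Th_cent (hq : Good q) (ns : List M) (hn : ∀ n ∈ ns, Even (1 + B.b n n)) {c : ℤ} :
    ∀ {u : En K M}, Cent B q c u → Cent B q c (Th B q ns u) := by
  induction ns with
  | nil => intro u hu; exact hu
  | cons n ns ih =>
    intro u hu
    exact ih (fun x hx => hn x (List.mem_cons_of_mem _ hx))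
      (th_cent B hq (hn n List.mem_cons_self) hu)

lemma Dom_fixed (ns : List M) {m : M} (h : ∀ n ∈ ns, B.L n m = 0) (s : K) :
    Dom B q ns (s • z B q m) ∧ Th B q ns (s • z B q m) = s • z B q m := by
  induction ns with
  | nil => exact ⟨Submodule.smul_mem _ _ (z_mem B (Set.mem_univ _)), rfl⟩
  | cons n ns ih =>
    have h0 := h n List.mem_cons_self
    have h1 : th B q n (s • z B q m) = s • z B q m := by
      rw [map_smul, th_z, h0]; simp [PP]
    have h2 := ih fun x hx => h x (List.mem_cons_of_mem _ hx)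
    refine ⟨⟨Submodule.smul_mem _ _ (z_mem B h0.ge), by rw [h1]; exact h2.1⟩, ?_⟩
    rw [Th, LinearMap.comp_apply, h1, h2.2]

end Torus

end Pool.Agent.Lib.MP_4223bd_al
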