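import Mathlib
import Pool.Agent.Lib.MP_4223bd_al.Nice

set_option autoImplicit false

namespace Pool.Agent.Lib.MP_4223bd_al

/-! Normal ordering in q-Weyl algebras and the recursion for twisted traces. -/

variable {K : Type*} [Field K] {q : K} {R : Type*} [Ring R] [Algebra K R]

def mon {n : ℕ} (e : Fin n → R) (a : Fin n → ℕ) : R := (List.ofFn fun j => e j ^ a j).prod

lemma mon_zero' (e : Fin 0 → R) (a : Fin 0 → ℕ) : mon e a = 1 := by simp [mon]

lemma mon_succ {n : ℕ} (e : Fin (n + 1) → R) (a : Fin (n + 1) → ℕ) :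
    mon e a = e 0 ^ a 0 * mon (fun j => e j.succ) (fun j => a j.succ) := by
  simp [mon, List.ofFn_succ]

lemma mon_zero {n : ℕ} (e : Fin n → R) : mon e 0 = 1 := by
  simp [mon]

lemma commute_mon {n : ℕ} {x : R} {e : Fin n → R} (h : ∀ j, Commute x (e j)) (a : Fin n → ℕ) :
    Commute x (mon e a) := by
  induction n with
  | zero => rw [mon_zero']; exact Commute.one_right _
  | succ n ih => rw [mon_succ]; exact ((h 0).pow_right _).mul_right (ih (fun j => h _) _)

lemma mon_commute {n n' : ℕ} {e : Fin n → R} {f : Fin n' → R} (h : ∀ i j, Commute (e i) (f j))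
    (a : Fin n → ℕ) (b : Fin n' → ℕ) : Commute (mon e a) (mon f b) :=
  (commute_mon (fun i => (commute_mon (h i) b).symm) a).symm

lemma qc_pow (hq : Good q) {x y : R} {l : ℤ} (h : x * y = q ^ l • (y * x)) (k : ℕ) :
    x * y ^ k = q ^ (l * k) • (y ^ k * x) := by
  induction k with
  | zero => simp
  | succ k ih =>
    rw [pow_succ, ← mul_assoc, ih, smul_mul_assoc, mul_assoc, h, mul_smul_comm, smul_smul,
      ← zpow_add₀ hq.1, mul_assoc]
    congr 2
    push_cast; ring

lemma qc_mon (hq : Good q) {n : ℕ} {x : R} {e : Fin n → R} {l : Fin n → ℤ}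
    (h : ∀ j, x * e j = q ^ l j • (e j * x)) (a : Fin n → ℕ) :
    x * mon e a = q ^ (∑ j, l j * a j) • (mon e a * x) := by
  induction n with
  | zero => simp [mon_zero']
  | succ n ih =>
    rw [mon_succ, ← mul_assoc, qc_pow hq (h 0), smul_mul_assoc, mul_assoc,
      ih (fun j => h j.succ), mul_smul_comm, smul_smul, ← zpow_add₀ hq.1, Fin.sum_univ_succ,
      mul_assoc]

lemma qc_symm (hq : Good q) {x y : R} {l : ℤ} (h : x * y = q ^ l • (y * x)) :
    y * x = q ^ (-l) • (x * y) := by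
  rw [h, smul_smul, ← zpow_add₀ hq.1]; simp

lemma qc_mon_mon (hq : Good q) {n n' : ℕ} {e : Fin n → R} {f : Fin n' → R} {l : Fin n → Fin n' → ℤ}
    (h : ∀ i j, e i * f j = q ^ l i j • (f j * e i)) (a : Fin n → ℕ) (b : Fin n' → ℕ) :
    mon e a * mon f b = q ^ (∑ i, ∑ j, (a i : ℤ) * l i j * b j) • (mon f b * mon e a) := by
  have h1 := qc_symm hq (qc_mon hq (fun i => qc_symm hq (qc_mon hq (h i) b)) a)
  rw [h1]
  congr 2
  rw [← Finset.sum_neg_distrib]
  refine Finset.sum_congr rfl fun i _ => ?_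
  rw [neg_mul, neg_neg, Finset.sum_mul]
  exact Finset.sum_congr rfl fun j _ => by ring

lemma mon_inv {n : ℕ} {p pi : Fin n → R} (h1 : ∀ j, pi j * p j = 1)
    (h2 : ∀ i j, Commute (pi i) (p j)) {a g : Fin n → ℕ} (hg : g ≤ a) :
    mon pi a * mon p (a - g) = mon pi g := by
  induction n with
  | zero => simp [mon_zero']
  | succ n ih =>
    have h3 : pi 0 ^ a 0 * p 0 ^ (a 0 - g 0) = pi 0 ^ g 0 := by
      obtain ⟨c, hc⟩ := Nat.exists_eq_add_of_le (hg 0)
      rw [hc, Nat.add_sub_cancel_left, pow_add, mul_assoc, ← (h2 0 0).mul_pow, h1]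
      simp
    have h4 := ih (p := fun j => p j.succ) (pi := fun j => pi j.succ) (fun j => h1 _)
      (fun i j => h2 _ _) (a := fun j => a j.succ) (g := fun j => g j.succ) (fun j => hg _)
    have h5 : Commute (p 0 ^ (a 0 - g 0)) (mon (fun j => pi j.succ) fun j => a j.succ) :=
      commute_mon (fun j => ((h2 j.succ 0).symm.pow_left _)) _
    rw [mon_succ, mon_succ p, mon_succ pi g, ← h3, ← h4, mul_assoc, mul_assoc,
      ← mul_assoc (mon _ _), Pi.sub_apply, ← h5.eq, mul_assoc]
    rfl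

section One

variable {e e' p : R}

lemma weyl_step (h : e * e' = q • (e' * e) + (1 - q) • p) (h2 : Commute p e') (k : ℕ) :
    e * e' ^ k = q ^ k • (e' ^ k * e) + (1 - q ^ k) • (p * e' ^ (k - 1)) := by
  induction k with
  | zero => simp
  | succ k ih =>
    rw [pow_succ, ← mul_assoc, ih, add_mul, smul_mul_assoc, smul_mul_assoc, mul_assoc, h,
      Nat.add_sub_cancel, mul_add, mul_smul_comm, mul_smul_comm, ← (h2.pow_right k).eq,
      ← mul_assoc, pow_succ q]
    rcases k with _ | k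
    · simp
    · rw [Nat.add_sub_cancel, mul_assoc p, ← pow_succ e' k]
      module

def WW (q : K) (m n c : ℤ) : K :=
  q ^ ((m - c) * (n - c)) * pz q m * pz q n * io q c * io q (m - c) * io q (n - c)

lemma WW_step (hq : Good q) (m : ℕ) (n c : ℤ) :
    WW q (m + 1) n c = q ^ (n - c) * WW q m n c + (1 - q ^ (n - (c - 1))) * WW q m n (c - 1) := by
  have h1 : (1 - q ^ (n - (c - 1))) * io q (n - (c - 1)) = io q (n - c) := by
    rw [← io_step hq]; congr 1; ring
  have h2 : (1 - q ^ (n - (c - 1))) * WW q m n (c - 1) = q ^ ((m - (c - 1)) * (n - (c - 1))) *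
      pz q m * pz q n * io q (c - 1) * io q (m - (c - 1)) * io q (n - c) := by
    rw [← h1, WW]; ring
  rw [h2, WW, WW, pz_step (n := (m : ℤ) + 1) (by omega), add_sub_cancel_right, io_step hq c,
    show (m : ℤ) - (c - 1) = m + 1 - c by ring, show (m : ℤ) - c = (m + 1 - c) - 1 by ring,
    io_step hq, zp hq (show (m : ℤ) + 1 = (m + 1 - c) + c by ring),
    zp hq (show ((m : ℤ) + 1 - c) * (n - c) = (n - c) + (m + 1 - c - 1) * (n - c) by ring),
    zp hq (show ((m : ℤ) + 1 - c) * (n - (c - 1)) =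
      ((n - c) + (m + 1 - c - 1) * (n - c)) + (m + 1 - c) by ring),
    zp hq (show (n - c) + ((m : ℤ) + 1 - c - 1) * (n - c) = (n - c) + (m + 1 - c - 1) * (n - c)
      from rfl)]
  ring

lemma weyl_pow (hq : Good q) (h : e * e' = q • (e' * e) + (1 - q) • p) (h1 : Commute p e)
    (h2 : Commute p e') (n m : ℕ) :
    e ^ m * e' ^ n =
      ∑ c ∈ Finset.range (m + 1), WW q m n c • (p ^ c * e' ^ (n - c) * e ^ (m - c)) := by
  induction m with
  | zero => simp [WW, pz_mul_io hq]
  | succ m ih =>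
    have top : WW q m n ((m + 1 : ℕ) : ℤ) = 0 := by
      rw [WW, io_neg (n := (m : ℤ) - (m + 1 : ℕ)) (by omega)]; simp
    have bot : WW q m n (((0 : ℕ) : ℤ) - 1) = 0 := by
      rw [WW, io_neg (n := ((0 : ℕ) : ℤ) - 1) (by omega)]; simp
    rw [pow_succ', mul_assoc, ih, Finset.mul_sum]
    simp only [Nat.cast_succ m, WW_step hq, add_smul, Finset.sum_add_distrib]
    rw [Finset.sum_range_succ _ (m + 1), Finset.sum_range_succ' _ (m + 1), top, bot]
    simp only [mul_zero, zero_smul, add_zero]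
    rw [← Finset.sum_add_distrib]
    refine Finset.sum_congr rfl fun c hc => ?_
    have hc' : c ≤ m := by have := Finset.mem_range.mp hc; omega
    by_cases hn : n < c
    · have : WW q m n c = 0 := by
        rw [WW, io_neg (n := (n : ℤ) - c) (by omega), mul_zero]
      simp [this]
    obtain ⟨k, rfl⟩ := Nat.exists_eq_add_of_le (not_lt.mp hn)
    have e1 : e * (p ^ c * e' ^ k * e ^ (m - c)) = q ^ k • (p ^ c * e' ^ k * e ^ (m + 1 - c)) +
        (1 - q ^ k) • (p ^ (c + 1) * e' ^ (k - 1) * e ^ (m - c)) := by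
      rw [← mul_assoc, ← mul_assoc, ← (h1.pow_left c).eq, mul_assoc (p ^ c), weyl_step h h2,
        mul_add, add_mul, mul_smul_comm, mul_smul_comm, smul_mul_assoc, smul_mul_assoc,
        show m + 1 - c = (m - c) + 1 by omega, pow_succ' e, pow_succ p]
      simp only [mul_assoc]
    rw [mul_smul_comm, Nat.add_sub_cancel_left, e1, show c + k - (c + 1) = k - 1 by omega,
      show m + 1 - (c + 1) = m - c by omega]
    push_cast
    rw [add_sub_cancel_right, add_sub_cancel_left, zpow_natCast]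
    module

def W2 (q : K) (m g : ℕ) : K := q ^ (g * g) * pq q m ^ 2 * (pq q (m - g))⁻¹ * (pq q g)⁻¹ ^ 2

lemma weyl_diag (hq : Good q) (h : e * e' = q • (e' * e) + (1 - q) • p) (h1 : Commute p e)
    (h2 : Commute p e') (m : ℕ) :
    e ^ m * e' ^ m = ∑ g ∈ Finset.range (m + 1), W2 q m g • (p ^ (m - g) * e' ^ g * e ^ g) := by
  rw [weyl_pow hq h h1 h2, ← Finset.sum_range_reflect]
  refine Finset.sum_congr rfl fun g hg => ?_
  have hg' : g ≤ m := by have := Finset.mem_range.mp hg; omega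
  obtain ⟨k, rfl⟩ := Nat.exists_eq_add_of_le hg'
  rw [show g + k + 1 - 1 - g = k by omega, Nat.add_sub_cancel, Nat.add_sub_cancel_left]
  congr 1
  rw [WW, W2, show ((g + k : ℕ) : ℤ) - k = g by omega, Nat.add_sub_cancel_left]
  simp only [io, pz, Int.toNat_natCast, Int.natCast_nonneg, if_true]
  rw [← Nat.cast_mul, zpow_natCast]
  ring

end One

lemma sum_Iic_cons {N : Type*} [AddCommMonoid N] {n : ℕ} (a : Fin (n + 1) → ℕ)
    (F : (Fin (n + 1) → ℕ) → N) :
    ∑ c ∈ Finset.Iic a, F c = ∑ x ∈ Finset.range (a 0 + 1),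
      ∑ t ∈ Finset.Iic (fun j : Fin n => a j.succ), F (Fin.cons x t) := by
  rw [← Finset.sum_product']
  symm
  refine Finset.sum_equiv (Fin.consEquiv fun _ => ℕ) (fun p => ?_) (fun p _ => rfl)
  simp [Pi.le_def, Fin.forall_fin_succ, Fin.consEquiv, Nat.lt_succ_iff]

structure WeylFam (q : K) {n : ℕ} (e e' p : Fin n → R) : Prop where
  rel : ∀ j, e j * e' j = q • (e' j * e j) + (1 - q) • p j
  off : ∀ i j, i ≠ j → Commute (e i) (e' j)
  pe : ∀ i j, Commute (p i) (e j)
  pe' : ∀ i j, Commute (p i) (e' j)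

lemma weyl_mon (hq : Good q) {n : ℕ} {e e' p : Fin n → R} (h : WeylFam q e e' p)
    (a : Fin n → ℕ) :
    mon e a * mon e' a = ∑ g ∈ Finset.Iic a,
      (∏ j, W2 q (a j) (g j)) • (mon p (a - g) * mon e' g * mon e g) := by
  induction n with
  | zero =>
    have : Finset.Iic a = {a} := by
      ext c; simp [Subsingleton.elim c a]
    simp [this, mon_zero']
  | succ n ih =>
    have h' : WeylFam q (fun j => e j.succ) (fun j => e' j.succ) (fun j : Fin n => p j.succ) :=
      ⟨fun j => h.rel _, fun i j hij => h.off _ _ fun h0 => hij (Fin.succ_injective _ h0),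
        fun i j => h.pe _ _, fun i j => h.pe' _ _⟩
    have c1 : Commute (e' 0 ^ a 0) (mon (fun j => e j.succ) fun j => a j.succ) :=
      commute_mon (fun j => ((h.off j.succ 0 (Fin.succ_ne_zero j)).symm.pow_left _)) _
    rw [sum_Iic_cons, mon_succ, mon_succ e', mul_assoc, ← mul_assoc (mon _ _), ← c1.eq, mul_assoc,
      ← mul_assoc, ih h', weyl_diag hq (h.rel 0) (h.pe 0 0) (h.pe' 0 0), Finset.sum_mul]
    refine Finset.sum_congr rfl fun x _ => ?_
    rw [Finset.mul_sum]
    refine Finset.sum_congr rfl fun t _ => ?_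
    rw [smul_mul_assoc, mul_smul_comm, smul_smul, Fin.prod_univ_succ, mon_succ p, mon_succ e',
      mon_succ e]
    simp only [Fin.cons_zero, Fin.cons_succ, Pi.sub_apply]
    congr 1
    set P := mon (fun j => p j.succ) ((fun j => a j.succ) - t) with hP
    have c2 : Commute (e' 0 ^ x) P := commute_mon (fun j => ((h.pe' j.succ 0).symm.pow_left _)) _
    have c3 : Commute (e 0 ^ x) P := commute_mon (fun j => ((h.pe j.succ 0).symm.pow_left _)) _
    have c4 : Commute (e 0 ^ x) (mon (fun j => e' j.succ) t) :=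
      commute_mon (fun j => ((h.off 0 j.succ (Fin.succ_ne_zero j).symm).pow_left _)) _
    change _ = p 0 ^ (a 0 - x) * P * _ * _
    simp only [mul_assoc]
    congr 1
    rw [← mul_assoc (e 0 ^ x), c3.eq, mul_assoc, ← mul_assoc (e' 0 ^ x), c2.eq, mul_assoc,
      ← mul_assoc (e 0 ^ x), c4.eq, mul_assoc]

lemma mon_mem (A : Submonoid R) {n : ℕ} {e : Fin n → R} (h : ∀ j, e j ∈ A) (a : Fin n → ℕ) :
    mon e a ∈ A := by
  induction n with
  | zero => rw [mon_zero']; exact one_mem _
  | succ n ih => rw [mon_succ]; exact mul_mem (pow_mem (h 0) _) (ih (fun j => h _) _)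

/-- The relations between the generators. -/
structure Rels (q : K) {n n' : ℕ} (l : Fin n → Fin n' → ℤ) (A : Submonoid R)
    (a a' p pi : Fin n → R) (b b' r ri : Fin n' → R) : Prop where
  wa : WeylFam q a a' p
  wb : WeylFam q b b' r
  ab' : ∀ i j, Commute (a i) (b' j)
  ba' : ∀ j i, Commute (b j) (a' i)
  pb' : ∀ i j, Commute (p i) (b' j)
  pip : ∀ i, pi i * p i = 1
  pip' : ∀ i j, Commute (pi i) (p j)
  rir : ∀ i, ri i * r i = 1
  rir' : ∀ i j, Commute (ri i) (r j)
  rip : ∀ j i, Commute (ri j) (p i)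
  pia : ∀ i j, Commute (pi i) (a j)
  pib : ∀ i j, Commute (pi i) (b j)
  rib : ∀ i j, Commute (ri i) (b j)
  ar : ∀ i j, a i * r j = q ^ (-l i j) • (r j * a i)
  ari : ∀ i j, a i * ri j = q ^ l i j • (ri j * a i)
  ma : ∀ i, a i ∈ A
  ma' : ∀ i, a' i ∈ A
  mpi : ∀ i, pi i ∈ A
  mb : ∀ i, b i ∈ A
  mb' : ∀ i, b' i ∈ A
  mri : ∀ i, ri i ∈ A

theorem trace_rec (hq : Good q) {n n' : ℕ} {l : Fin n → Fin n' → ℤ} {A : Submonoid R}
    {a a' p pi : Fin n → R} {b b' r ri : Fin n' → R} (h : Rels q l A a a' p pi b b' r ri)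
    (T : R →ₗ[K] K) (hT : ∀ x ∈ A, ∀ y ∈ A, T (x * y) = T (y * x))
    (x : Fin n → ℕ) (y : Fin n' → ℕ) :
    T (mon pi x * mon ri y * (mon a x * mon b' y) * (mon b y * mon a' x)) =
      ∑ g ∈ Finset.Iic x, ∑ d ∈ Finset.Iic y,
        (∏ i, W2 q (x i) (g i)) * (∏ j, W2 q (y j) (d j)) *
          q ^ (∑ i, ∑ j, (g i : ℤ) * l i j * d j) *
          T (mon pi g * mon ri d * (mon a g * mon b' d) * (mon b d * mon a' g)) := by
  have s1 : mon pi x * mon ri y * (mon a x * mon b' y) * (mon b y * mon a' x) =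
      mon pi x * mon ri y * mon b' y * (mon a x * mon a' x) * mon b y := by
    rw [(mon_commute h.ab' x y).eq, (mon_commute h.ba' y x).eq]
    simp only [mul_assoc]
  rw [s1, weyl_mon hq h.wa, Finset.mul_sum, Finset.sum_mul, map_sum]
  refine Finset.sum_congr rfl fun g hg => ?_
  have hg' := Finset.mem_Iic.mp hg
  have s2 : mon pi x * mon ri y * mon b' y * (mon p (x - g) * mon a' g * mon a g) * mon b y =
      (mon pi g * mon ri y * (mon b' y * mon a' g)) * (mon a g * mon b y) := by
    rw [← mon_inv h.pip h.pip' hg']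
    have c1 := (mon_commute h.pb' (x - g) y).eq
    have c2 := (mon_commute h.rip y (x - g)).eq
    simp only [mul_assoc]
    congr 1
    rw [← mul_assoc (mon b' y), ← c1, mul_assoc, ← mul_assoc (mon ri y), c2, mul_assoc]
  have s3 : (mon a g * mon b y) * (mon pi g * mon ri y * (mon b' y * mon a' g)) =
      q ^ (∑ i, ∑ j, (g i : ℤ) * l i j * y j) •
        (mon pi g * mon ri y * mon a g * (mon b y * mon b' y) * mon a' g) := by
    have c1 := (mon_commute h.pib g y).eq
    have c2 := (mon_commute h.pia g g).eq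
    have c3 := (mon_commute h.rib y y).eq
    have c4 := qc_mon_mon hq h.ari g y
    calc _ = mon a g * (mon b y * mon pi g) * mon ri y * (mon b' y * mon a' g) := by
          simp only [mul_assoc]
      _ = (mon a g * mon pi g) * (mon b y * mon ri y) * (mon b' y * mon a' g) := by
          rw [← c1]; simp only [mul_assoc]
      _ = mon pi g * (mon a g * mon ri y) * mon b y * (mon b' y * mon a' g) := by
          rw [← c2, ← c3]; simp only [mul_assoc]
      _ = _ := by
          rw [c4]; simp only [mul_smul_comm, smul_mul_assoc, mul_assoc]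
  rw [mul_smul_comm, smul_mul_assoc, map_smul, s2, hT _ (mul_mem (mul_mem (mon_mem A h.mpi _)
    (mon_mem A h.mri _)) (mul_mem (mon_mem A h.mb' _) (mon_mem A h.ma' _))) _
    (mul_mem (mon_mem A h.ma _) (mon_mem A h.mb _)), s3, map_smul, weyl_mon hq h.wb,
    Finset.mul_sum, Finset.sum_mul, map_sum, Finset.smul_sum, Finset.smul_sum]
  refine Finset.sum_congr rfl fun d hd => ?_
  have hd' := Finset.mem_Iic.mp hd
  have s4 : mon pi g * mon ri y * mon a g * (mon r (y - d) * mon b' d * mon b d) * mon a' g =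
      q ^ (∑ i, ∑ j, (g i : ℤ) * (-l i j) * (y - d) j) •
        (mon pi g * mon ri d * (mon a g * mon b' d) * (mon b d * mon a' g)) := by
    have c1 := qc_mon_mon hq h.ar g (y - d)
    rw [← mon_inv h.rir h.rir' hd']
    calc _ = mon pi g * mon ri y * (mon a g * mon r (y - d)) * mon b' d * mon b d * mon a' g := by
          simp only [mul_assoc]
      _ = _ := by
          rw [c1]; simp only [mul_smul_comm, smul_mul_assoc, mul_assoc]
  have ex : (∑ i, ∑ j, (g i : ℤ) * l i j * d j) = (∑ i, ∑ j, (g i : ℤ) * l i j * y j) +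
      ∑ i, ∑ j, (g i : ℤ) * (-l i j) * (y - d) j := by
    rw [← Finset.sum_add_distrib]
    refine Finset.sum_congr rfl fun i _ => ?_
    rw [← Finset.sum_add_distrib]
    refine Finset.sum_congr rfl fun j _ => ?_
    rw [Pi.sub_apply, Nat.cast_sub (hd' j)]
    ring
  rw [mul_smul_comm, smul_mul_assoc, map_smul, s4, map_smul, ex, zpow_add₀ hq.1]
  simp only [smul_eq_mul]
  ring

end Pool.Agent.Lib.MP_4223bd_al
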