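import Mathlib
import Pool.Agent.Lib.MP_4223bd_al.Torus
import Pool.Agent.Lib.MP_4223bd_al.Weyl

set_option autoImplicit false

open Polynomial

namespace Pool.Agent.Lib.MP_4223bd_al

/-! From a realisation of the generators in a quantum torus to unimodality of the numerators. -/

variable {K : Type*} [Field K] {q : K}

lemma SU_divX {c : ℤ} {p : ℤ[X]} (hp : p ∈ SU c) : p.coeff 0 = 0 → p.divX ∈ SU (c - 2) := by
  induction hp using AddSubmonoid.closure_induction with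
  | zero => intro _; simp
  | add x y hx hy h1 h2 =>
    intro h
    have a1 := (SU_coeff hx).1 0
    have a2 := (SU_coeff hy).1 0
    rw [coeff_add] at h
    rw [divX_add]
    exact add_mem (h1 (by omega)) (h2 (by omega))
  | mem x hx =>
    obtain ⟨i, l, h1, rfl⟩ := hx
    intro h
    rcases i with _ | i
    · simp [coeff_blk] at h
    · have : (blk (i + 1) l).divX = blk i l := by
        ext k
        rw [coeff_divX, coeff_blk, coeff_blk]
        split_ifs <;> omega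
      rw [this]
      exact blk_mem _ _ (by push_cast at h1; omega)

lemma SU_div (D : ℕ) : ∀ {c : ℤ} {p : ℤ[X]}, X ^ D * p ∈ SU c → ∃ c', p ∈ SU c' := by
  induction D with
  | zero => intro c p h; exact ⟨c, by simpa using h⟩
  | succ D ih =>
    intro c p h
    have h1 := SU_divX h (by simp [pow_succ', mul_assoc])
    have h2 : (X ^ (D + 1) * p).divX = X ^ D * p := by
      ext k
      rw [coeff_divX, pow_succ', mul_assoc, coeff_X_mul]
    exact ih (h2 ▸ h1)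

/-- Quotients of integral polynomials whose denominator has constant term one. -/
def Reg (q : K) : Subsemiring K where
  carrier := {x | ∃ A D : ℤ[X], D.coeff 0 = 1 ∧ ev q D * x = ev q A}
  one_mem' := ⟨1, 1, by simp, by simp⟩
  zero_mem' := ⟨0, 1, by simp, by simp⟩
  mul_mem' := by
    rintro x y ⟨A, D, h1, h2⟩ ⟨A', D', h3, h4⟩
    refine ⟨A * A', D * D', by simp [h1, h3], ?_⟩
    rw [map_mul, map_mul, ← h2, ← h4]; ring
  add_mem' := by
    rintro x y ⟨A, D, h1, h2⟩ ⟨A', D', h3, h4⟩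
    refine ⟨A * D' + A' * D, D * D', by simp [h1, h3], ?_⟩
    rw [map_add, map_mul, map_mul, map_mul, ← h2, ← h4]; ring

lemma reg_zpow {k : ℤ} (hk : 0 ≤ k) : q ^ k ∈ Reg q := by
  refine ⟨X ^ k.toNat, 1, by simp, ?_⟩
  rw [map_one, one_mul, map_pow, ev_X, ← zpow_natCast, Int.toNat_of_nonneg hk]

lemma reg_inv (hq : Good q) {k : ℤ} (hk : 0 < k) : (1 - q ^ k)⁻¹ ∈ Reg q := by
  refine ⟨1, 1 - X ^ k.toNat, ?_, ?_⟩
  · rw [coeff_sub, coeff_X_pow, if_neg (by omega)]; simp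
  · rw [map_sub, map_one, map_pow, ev_X, ← zpow_natCast, Int.toNat_of_nonneg hk.le,
      mul_inv_cancel₀ (one_sub_ne hq hk)]

lemma reg_sub (k : ℕ) : 1 - q ^ k ∈ Reg q := ⟨1 - X ^ k, 1, by simp, by simp⟩

lemma SU_of_SL (hq : Good q) (hi : Function.Injective (ev q)) {c : ℤ} {x : K} (h : SL q c x)
    (hx : x ∈ Reg q) : ∃ c, ∃ p ∈ SU c, ev q p = x := by
  obtain ⟨D, p, hp, h1⟩ := h
  obtain ⟨A, E, h2, h3⟩ := hx
  have h4 : E * p = X ^ D * A := hi (by rw [map_mul, map_mul, map_pow, ev_X, h1, ← h3]; ring)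
  obtain ⟨r, rfl⟩ : X ^ D ∣ p :=
    prime_X.pow_dvd_of_dvd_mul_left D (by rw [X_dvd_iff, h2]; exact one_ne_zero) ⟨A, h4⟩
  obtain ⟨c', hc⟩ := SU_div D hp
  refine ⟨c', r, hc, mul_left_cancel₀ (pow_ne_zero D hq.1) ?_⟩
  rw [← h1, map_mul, map_pow, ev_X]

section

variable {ι : Type*} [Fintype ι] [DecidableEq ι]

omit [DecidableEq ι] in
lemma reg_poch (hq : Good q) (a : ι → ℕ) : poch q a ∈ Reg q ∧ (poch q a)⁻¹ ∈ Reg q := by
  refine ⟨prod_mem fun i _ => prod_mem fun j _ => reg_sub _, ?_⟩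
  rw [poch, ← Finset.prod_inv_distrib]
  refine prod_mem fun i _ => ?_
  rw [pq, ← Finset.prod_inv_distrib]
  refine prod_mem fun j _ => ?_
  rw [← zpow_natCast]
  exact reg_inv hq (by positivity)

lemma reg_sol (hq : Good q) {h : (ι → ℕ) → ℤ} (h0 : h 0 = 0) (hpos : ∀ a, a ≠ 0 → 0 < h a)
    {J : (ι → ℕ) → K} (hJ : IsSol q h J) (a : ι → ℕ) : J a ∈ Reg q := by
  induction' hn : ∑ i, a i using Nat.strong_induction_on with n ih generalizing a
  by_cases ha : a = 0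
  · rw [ha, hJ.1]; exact one_mem _
  have f1 := hJ.2 a
  rw [← Finset.Iio_insert, Finset.sum_insert (by simp), tsub_self, poch_zero] at f1
  have f2 : J a = (1 - q ^ h a)⁻¹ * ∑ c ∈ Finset.Iio a, q ^ h c / poch q (a - c) * J c := by
    rw [eq_inv_mul_iff_mul_eq₀ (one_sub_ne hq (hpos a ha))]
    linear_combination f1
  rw [f2]
  refine mul_mem (reg_inv hq (hpos a ha)) (sum_mem fun c hc => mul_mem ?_ ?_)
  · rw [div_eq_mul_inv]
    refine mul_mem (reg_zpow ?_) (reg_poch hq _).2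
    by_cases hc0 : c = 0
    · rw [hc0, h0]
    · exact (hpos c hc0).le
  · obtain ⟨h1, i, hi⟩ := Pi.lt_def.mp (Finset.mem_Iio.mp hc)
    exact ih _ (hn ▸ Finset.sum_lt_sum (fun j _ => h1 j) ⟨i, Finset.mem_univ _, hi⟩) c rfl

omit [DecidableEq ι] in
lemma prod_W2 (hq : Good q) (x g : ι → ℕ) : ∏ i, W2 q (x i) (g i) =
    q ^ (∑ i, (g i : ℤ) * g i) * poch q x ^ 2 * (poch q (x - g))⁻¹ * (poch q g)⁻¹ ^ 2 := by
  simp only [W2, poch, Finset.prod_mul_distrib, Finset.prod_pow, Finset.prod_inv_distrib,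
    ← prod_zp hq, Pi.sub_apply, ← Nat.cast_mul, zpow_natCast]

omit [DecidableEq ι] in
lemma poch_ne (hq : Good q) (a : ι → ℕ) : poch q a ≠ 0 :=
  Finset.prod_ne_zero_iff.mpr fun _ _ => pq_ne hq _

end

def hB {n n' : ℕ} (l : Fin n → Fin n' → ℤ) (a : Fin n ⊕ Fin n' → ℕ) : ℤ :=
  ∑ i, (a (.inl i) : ℤ) * a (.inl i) + ∑ j, (a (.inr j) : ℤ) * a (.inr j) +
    ∑ i, ∑ j, (a (.inl i) : ℤ) * l i j * a (.inr j)

lemma bip_sol (hq : Good q) {n n' : ℕ} (l : Fin n → Fin n' → ℤ)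
    (F : (Fin n → ℕ) → (Fin n' → ℕ) → K) (F0 : F 0 0 = 1)
    (hF : ∀ x y, F x y = ∑ g ∈ Finset.Iic x, ∑ d ∈ Finset.Iic y,
      (∏ i, W2 q (x i) (g i)) * (∏ j, W2 q (y j) (d j)) *
        q ^ (∑ i, ∑ j, (g i : ℤ) * l i j * d j) * F g d) :
    IsSol q (hB l) fun a => F (fun i => a (.inl i)) (fun j => a (.inr j)) / poch q a ^ 2 := by
  have ep : ∀ a : Fin n ⊕ Fin n' → ℕ,
      poch q a = poch q (fun i => a (.inl i)) * poch q fun j => a (.inr j) := fun a => by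
    simp only [poch, Fintype.prod_sum_type]
  refine ⟨by beta_reduce; rw [poch_zero, one_pow, div_one]; exact F0, fun a => ?_⟩
  beta_reduce
  rw [hF, ← Finset.sum_product', Finset.sum_div]
  symm
  refine Finset.sum_nbij' (fun c => (fun i => c (.inl i), fun j => c (.inr j)))
    (fun p => Sum.elim p.1 p.2) ?_ ?_ ?_ ?_ ?_
  · intro c hc
    rw [Finset.mem_Iic] at hc
    exact Finset.mem_product.mpr ⟨Finset.mem_Iic.mpr fun i => hc _, Finset.mem_Iic.mpr fun i => hc _⟩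
  · intro p hp
    obtain ⟨h1, h2⟩ := Finset.mem_product.mp hp
    rw [Finset.mem_Iic] at h1 h2 ⊢
    rintro (i | j)
    · exact h1 i
    · exact h2 j
  · intro c _
    funext i
    cases i <;> rfl
  · intro p _; rfl
  · intro c _
    rw [prod_W2 hq, prod_W2 hq, ep, ep c, ep a, hB, zpow_add₀ hq.1, zpow_add₀ hq.1]
    have h1 := poch_ne hq fun i => a (.inl i)
    have h2 := poch_ne hq fun i => a (.inr i)
    have h3 := poch_ne hq fun i => c (.inl i)
    have h4 := poch_ne hq fun i => c (.inr i)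
    have h5 := poch_ne hq fun i => (a - c) (.inl i)
    have h6 := poch_ne hq fun i => (a - c) (.inr i)
    change _ = _ * _ * (poch q fun i => (a - c) (.inl i))⁻¹ * _ *
      (_ * _ * (poch q fun i => (a - c) (.inr i))⁻¹ * _) * _ * _ / _
    field_simp

section Img

variable {M : Type*} [AddCommGroup M] (B : Form M)

/-- `u` is the image of a monomial with exponent `m`. -/
def Img (q : K) (ns : List M) (m : M) (u : En K M) : Prop :=
  ∃ k : ℤ, Dom B q ns (q ^ k • z B q m) ∧ Th B q ns (q ^ k • z B q m) = u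

variable {B}

lemma Img.mul (hq : Good q) {ns : List M} {m n : M} {u v : En K M} (hu : Img B q ns m u)
    (hv : Img B q ns n v) : Img B q ns (m + n) (u * v) := by
  obtain ⟨k, h1, rfl⟩ := hu
  obtain ⟨k', h2, rfl⟩ := hv
  have h := Dom_mul B hq ns h1 h2
  rw [smul_mul_assoc, mul_smul_comm, z_mul B hq, smul_smul, smul_smul, ← zpow_add₀ hq.1,
    ← zpow_add₀ hq.1] at h
  exact ⟨_, h⟩

lemma Img.qc (hq : Good q) {ns : List M} {m n : M} {u v : En K M} (hu : Img B q ns m u)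
    (hv : Img B q ns n v) : u * v = q ^ B.L m n • (v * u) := by
  obtain ⟨k, h1, rfl⟩ := hu
  obtain ⟨k', h2, rfl⟩ := hv
  rw [← (Dom_mul B hq ns h1 h2).2, ← (Dom_mul B hq ns h2 h1).2, ← map_smul]
  congr 1
  simp only [smul_mul_assoc, mul_smul_comm]
  rw [z_comm B hq m n]
  simp only [smul_smul]
  congr 1
  ring

lemma Img.comm (hq : Good q) {ns : List M} {m n : M} {u v : En K M} (hu : Img B q ns m u)
    (hv : Img B q ns n v) (h : B.L m n = 0) : Commute u v := by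
  have := hu.qc hq hv
  rw [h, zpow_zero, one_smul] at this
  exact this

lemma Img.mem {ns : List M} {m : M} {u : En K M} (hu : Img B q ns m u) :
    u ∈ Sp B q Set.univ := by
  obtain ⟨k, h1, rfl⟩ := hu
  exact Dom_Sp B ns h1

lemma Img.cent (hq : Good q) {ns : List M} (hn : ∀ n ∈ ns, Even (1 + B.b n n)) {m : M}
    {u : En K M} (hu : Img B q ns m u) : ∃ c, Cent B q c u := by
  obtain ⟨k, -, rfl⟩ := hu
  exact ⟨2 * k - B.b m m, Th_cent B hq ns hn (Cent.mono m _ ((SL_zpow hq k).cast (by ring)))⟩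

lemma Img_fixed {ns : List M} {m : M} (h : ∀ n ∈ ns, B.L n m = 0) (e : ℤ) :
    Img B q ns m (Gz B q m e) ∧ Img B q ns (-m) (Gz B q (-m) e) :=
  ⟨⟨_, Dom_fixed B ns h _⟩, ⟨_, Dom_fixed B ns (fun n hn => by
    rw [B.L_swap, B.L_neg_left, B.L_swap, h n hn]; rfl) _⟩⟩

variable (B)

def ImM (hq : Good q) (ns : List M) : Submonoid (En K M) where
  carrier := {u | ∃ m, Img B q ns m u}
  one_mem' := ⟨0, 0, by simpa [z_zero] using Dom_one B ns⟩
  mul_mem' := by
    rintro u v ⟨m, hu⟩ ⟨n, hv⟩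
    exact ⟨_, hu.mul hq hv⟩

lemma Img.imM (hq : Good q) {ns : List M} {m : M} {u : En K M} (hu : Img B q ns m u) :
    u ∈ ImM B hq ns := ⟨m, hu⟩

def SpM (hq : Good q) : Submonoid (En K M) where
  carrier := Sp B q Set.univ
  one_mem' := (Dom_one B []).1
  mul_mem' := Sp_mul B hq (by simp)

lemma Gz_inv (hq : Good q) {m : M} (h : Even (B.b m m)) : Gz B q (-m) 0 * Gz B q m 0 = 1 := by
  rw [(Gz_mul B hq (by simpa [B.neg_left, B.neg_right] using h) (by simpa using h)).1,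
    B.L_neg_left, B.L_self, neg_add_cancel, Gz, B.zero_left, z_zero]
  simp

/-- The data of a realisation. -/
structure Real (q : K) {n n' : ℕ} (l : Fin n → Fin n' → ℤ) (N1 N2 : List M)
    (a a' : Fin n → En K M) (b b' : Fin n' → En K M) (ga ga' pa : Fin n → M)
    (gb gb' pb : Fin n' → M) : Prop where
  o1 : ∀ m ∈ N1, Even (1 + B.b m m)
  o2 : ∀ m ∈ N2, Even (1 + B.b m m)
  ia : ∀ i, Img B q N1 (ga i) (a i)
  ib' : ∀ j, Img B q N1 (gb' j) (b' j)
  ia' : ∀ i, Img B q N2 (ga' i) (a' i)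
  ib : ∀ j, Img B q N2 (gb j) (b j)
  fa1 : ∀ i, ∀ m ∈ N1, B.L m (pa i) = 0
  fa2 : ∀ i, ∀ m ∈ N2, B.L m (pa i) = 0
  fb1 : ∀ j, ∀ m ∈ N1, B.L m (pb j) = 0
  fb2 : ∀ j, ∀ m ∈ N2, B.L m (pb j) = 0
  ea : ∀ i, Even (B.b (pa i) (pa i))
  eb : ∀ j, Even (B.b (pb j) (pb j))
  l1 : ∀ i j, B.L (ga i) (gb' j) = 0
  l2 : ∀ j i, B.L (gb j) (ga' i) = 0
  l3 : ∀ i j, B.L (pa i) (ga j) = 0 ∧ B.L (pa i) (ga' j) = 0 ∧ B.L (pa i) (pa j) = 0
  l4 : ∀ i j, B.L (pa i) (gb j) = 0 ∧ B.L (pa i) (gb' j) = 0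
  l5 : ∀ i j, B.L (pb i) (gb j) = 0 ∧ B.L (pb i) (gb' j) = 0 ∧ B.L (pb i) (pb j) = 0
  l6 : ∀ j i, B.L (pb j) (pa i) = 0 ∧ B.L (pb j) (ga i) = l i j
  ra : ∀ i, a i * a' i = q • (a' i * a i) + (1 - q) • Gz B q (pa i) 0
  rb : ∀ j, b j * b' j = q • (b' j * b j) + (1 - q) • Gz B q (pb j) 0
  ca : ∀ i j, i ≠ j → Commute (a i) (a' j)
  cb : ∀ i j, i ≠ j → Commute (b i) (b' j)

variable {B}

theorem Real.nice (hq : Good q) (hi : Function.Injective (ev q)) {n n' : ℕ}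
    {l : Fin n → Fin n' → ℤ} {N1 N2 : List M} {a a' : Fin n → En K M} {b b' : Fin n' → En K M}
    {ga ga' pa : Fin n → M} {gb gb' pb : Fin n' → M}
    (h : Real B q l N1 N2 a a' b b' ga ga' pa gb gb' pb)
    {A : Matrix (Fin n ⊕ Fin n') (Fin n ⊕ Fin n') ℤ} (hA : ∀ c, QF A c = 2 * hB l c)
    (hpos : ∀ c, c ≠ 0 → 0 < hB l c) : Nice q A := by
  have pa1 := fun i => Img_fixed (q := q) (h.fa1 i) 0
  have pa2 := fun i => Img_fixed (q := q) (h.fa2 i) 0
  have pb1 := fun i => Img_fixed (q := q) (h.fb1 i) 0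
  have pb2 := fun i => Img_fixed (q := q) (h.fb2 i) 0
  have ng : ∀ {x y : M}, B.L x y = 0 → B.L (-x) y = 0 := fun h0 => by
    rw [B.L_neg_left, h0, neg_zero]
  have R : Rels q l (SpM B hq) a a' (fun i => Gz B q (pa i) 0) (fun i => Gz B q (-pa i) 0)
      b b' (fun i => Gz B q (pb i) 0) (fun i => Gz B q (-pb i) 0) :=
    { wa := ⟨h.ra, h.ca, fun i j => (pa1 i).1.comm hq (h.ia j) (h.l3 i j).1,
        fun i j => (pa2 i).1.comm hq (h.ia' j) (h.l3 i j).2.1⟩
      wb := ⟨h.rb, h.cb, fun i j => (pb2 i).1.comm hq (h.ib j) (h.l5 i j).1,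
        fun i j => (pb1 i).1.comm hq (h.ib' j) (h.l5 i j).2.1⟩
      ab' := fun i j => (h.ia i).comm hq (h.ib' j) (h.l1 i j)
      ba' := fun j i => (h.ib j).comm hq (h.ia' i) (h.l2 j i)
      pb' := fun i j => (pa1 i).1.comm hq (h.ib' j) (h.l4 i j).2
      pip := fun i => Gz_inv B hq (h.ea i)
      pip' := fun i j => (pa1 i).2.comm hq (pa1 j).1 (ng (h.l3 i j).2.2)
      rir := fun i => Gz_inv B hq (h.eb i)
      rir' := fun i j => (pb1 i).2.comm hq (pb1 j).1 (ng (h.l5 i j).2.2)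
      rip := fun j i => (pb1 j).2.comm hq (pa1 i).1 (ng (h.l6 j i).1)
      pia := fun i j => (pa1 i).2.comm hq (h.ia j) (ng (h.l3 i j).1)
      pib := fun i j => (pa2 i).2.comm hq (h.ib j) (ng (h.l4 i j).1)
      rib := fun i j => (pb2 i).2.comm hq (h.ib j) (ng (h.l5 i j).1)
      ar := fun i j => by rw [(h.ia i).qc hq (pb1 j).1, B.L_swap, (h.l6 j i).2]
      ari := fun i j => by
        rw [(h.ia i).qc hq (pb1 j).2, B.L_swap, B.L_neg_left, (h.l6 j i).2, neg_neg]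
      ma := fun i => (h.ia i).mem
      ma' := fun i => (h.ia' i).mem
      mpi := fun i => (pa1 i).2.mem
      mb := fun i => (h.ib i).mem
      mb' := fun i => (h.ib' i).mem
      mri := fun i => (pb1 i).2.mem }
  have S := bip_sol hq l _ (by simp only [mon_zero, mul_one, tr_one])
    (trace_rec hq R tr fun x hx y hy => tr_comm B hq hx hy)
  refine ⟨hB l, hA, hpos, _, S, fun c => ?_⟩
  have hr := mul_mem (pow_mem (reg_poch hq c).1 2) (reg_sol hq (by simp [hB]) hpos S c)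
  rw [mul_div_cancel₀ _ (pow_ne_zero 2 (poch_ne hq c))] at hr ⊢
  have k1 := mon_mem (R := En K M) (ImM B hq N1)
    (fun i => (pa1 i).2.imM B hq) fun i => c (.inl i)
  have k2 := mon_mem (R := En K M) (ImM B hq N1)
    (fun i => (pb1 i).2.imM B hq) fun i => c (.inr i)
  have k3 := mon_mem (R := En K M) (ImM B hq N1)
    (fun i => (h.ia i).imM B hq) fun i => c (.inl i)
  have k4 := mon_mem (R := En K M) (ImM B hq N1)
    (fun i => (h.ib' i).imM B hq) fun i => c (.inr i)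
  have k5 := mon_mem (R := En K M) (ImM B hq N2)
    (fun i => (h.ib i).imM B hq) fun i => c (.inr i)
  have k6 := mon_mem (R := En K M) (ImM B hq N2)
    (fun i => (h.ia' i).imM B hq) fun i => c (.inl i)
  obtain ⟨m1, u1⟩ := (ImM B hq N1).mul_mem ((ImM B hq N1).mul_mem k1 k2)
    ((ImM B hq N1).mul_mem k3 k4)
  obtain ⟨m2, u2⟩ := (ImM B hq N2).mul_mem k5 k6
  obtain ⟨c1, v1⟩ := u1.cent hq h.o1
  obtain ⟨c2, v2⟩ := u2.cent hq h.o2
  exact SU_of_SL hq hi (tr_cent B hq v1 v2) hr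

end Img

end Pool.Agent.Lib.MP_4223bd_al
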