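import Mathlib
import Pool.Agent.Lib.MP_4223bd_al.Torus

set_option autoImplicit false

namespace Pool.Agent.Lib.MP_4223bd_al

/-! Lattice vectors coded by natural numbers, and checkers for wall-crossing chains and for
relations between sums of monomials. -/

variable {K : Type*} [Field K] {q : K}

def dig (x i : ℕ) : ℕ := Nat.mod (Nat.shiftRight x (Nat.mul 4 i)) 16

def dec (x : ℕ) : ℕ → ℤ := fun i => (dig x i : ℤ)

lemma dig_eq (x i : ℕ) : dig x i = x / 16 ^ i % 16 := by
  show (x >>> (4 * i)) % 16 = _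
  rw [Nat.shiftRight_eq_div_pow, pow_mul]
  norm_num

lemma dig_succ (x i : ℕ) : dig x (i + 1) = dig (x / 16) i := by
  rw [dig_eq, dig_eq, pow_succ', Nat.div_div_eq_div_mul]

lemma dig_add (i : ℕ) : ∀ x y : ℕ, (∀ j, dig x j < 8) → (∀ j, dig y j < 8) →
    dig (x + y) i = dig x i + dig y i := by
  induction i with
  | zero =>
    intro x y hx hy
    have h1 := hx 0
    have h2 := hy 0
    simp only [dig_eq, pow_zero, Nat.div_one] at *
    omega
  | succ i ih =>
    intro x y hx hy
    have h1 := hx 0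
    have h2 := hy 0
    simp only [dig_eq, pow_zero, Nat.div_one] at h1 h2
    rw [dig_succ, dig_succ, dig_succ, show (x + y) / 16 = x / 16 + y / 16 by omega]
    exact ih _ _ (fun j => dig_succ x j ▸ hx _) (fun j => dig_succ y j ▸ hy _)

def bnd : ℕ := 16 ^ 132

def mask : ℕ := (16 ^ 132 - 1) / 15 * 8

def small (x : ℕ) : Bool := Nat.beq (Nat.land x mask) 0 && Nat.blt x bnd

lemma mask_bit : ∀ i < 132, mask.testBit (4 * i + 3) = true := by decide +kernel

lemma small_dig {x : ℕ} (h : small x = true) (i : ℕ) : dig x i < 8 := by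
  simp only [small, Bool.and_eq_true, Nat.beq_eq, Nat.blt_eq] at h
  by_cases hi : i < 132
  · have h1 : (x &&& mask).testBit (4 * i + 3) = false := by
      rw [show x &&& mask = 0 from h.1, Nat.zero_testBit]
    rw [Nat.testBit_and, mask_bit i hi, Bool.and_true, ← Nat.testBit_shiftRight,
      Nat.testBit_eq_decide_div_mod_eq] at h1
    show (x >>> (4 * i)) % 16 < 8
    simp only [decide_eq_false_iff_not] at h1
    omega
  · rw [dig_eq, Nat.div_eq_of_lt (lt_of_lt_of_le h.2 (Nat.pow_le_pow_right (by norm_num)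
      (not_lt.mp hi)))]
    norm_num

lemma dec_add {x y : ℕ} (hx : small x = true) (hy : small y = true) :
    dec (x + y) = dec x + dec y := by
  funext i
  simp only [dec, Pi.add_apply, dig_add i x y (small_dig hx) (small_dig hy), Nat.cast_add]

def sd (x : ℕ) (l : List ℕ) : ℕ := List.rec 0 (fun i _ r => Nat.add (dig x i) r) l

lemma sd_cons (x i : ℕ) (l : List ℕ) : sd x (i :: l) = dig x i + sd x l := rfl

lemma sd_append (x : ℕ) (l l' : List ℕ) : sd x (l ++ l') = sd x l + sd x l' := by
  induction l with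
  | nil => exact (Nat.zero_add _).symm
  | cons i l ih => rw [List.cons_append, sd_cons, sd_cons, ih, add_assoc]

lemma sd_replicate (x k i : ℕ) : sd x (List.replicate k i) = k * dig x i := by
  induction k with
  | zero => simp [sd]
  | succ k ih => rw [List.replicate_succ, sd_cons, ih]; ring

def SF (E : List (ℕ × ℕ)) (x y : ℕ → ℤ) : ℤ := (E.map fun p => x p.1 * y p.2).sum

def mkForm (E : List (ℕ × ℕ)) : Form (ℕ → ℤ) where
  b := SF E
  add_left x y w := by
    simp only [SF, Pi.add_apply, add_mul, List.sum_map_add]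
  add_right x y w := by
    simp only [SF, Pi.add_apply, mul_add, List.sum_map_add]

abbrev Row := ℕ × List ℕ × List ℕ

def posE (R : List Row) : List (ℕ × ℕ) := R.flatMap fun r => r.2.1.map fun j => (r.1, j)

def negE (R : List Row) : List (ℕ × ℕ) := R.flatMap fun r => r.2.2.map fun j => (r.1, j)

def rowForm (R : List Row) (dl : List ℕ) : Form (ℕ → ℤ) :=
  mkForm (posE R ++ dl.map fun i => (i, i))

def dualP (R : List Row) (y : ℕ) : List ℕ :=
  List.rec [] (fun r _ ih => List.replicate (Nat.sub (sd y r.2.1) (sd y r.2.2)) r.1 ++ ih) R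

def dualN (R : List Row) (y : ℕ) : List ℕ :=
  List.rec [] (fun r _ ih => List.replicate (Nat.sub (sd y r.2.2) (sd y r.2.1)) r.1 ++ ih) R

def selfB (R : List Row) (dl : List ℕ) (y : ℕ) : ℕ :=
  Nat.add (List.rec 0 (fun r _ ih => Nat.add (Nat.mul (dig y r.1) (sd y r.2.1)) ih) R)
    (List.rec 0 (fun i _ ih => Nat.add (Nat.mul (dig y i) (dig y i)) ih) dl)

def IsDual (B : Form (ℕ → ℤ)) (y : ℕ) (P N : List ℕ) : Prop :=
  ∀ x, B.L (dec x) (dec y) = (sd x P : ℤ) - sd x N

lemma SF_append (E E' : List (ℕ × ℕ)) (x y : ℕ → ℤ) : SF (E ++ E') x y = SF E x y + SF E' x y := by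
  simp [SF]

lemma SF_row (i : ℕ) (l : List ℕ) (x y : ℕ) :
    SF (l.map fun j => (i, j)) (dec x) (dec y) = dig x i * sd y l := by
  induction l with
  | nil => simp [SF, sd]
  | cons j l ih =>
    simp only [SF, List.map_cons, List.sum_cons, sd_cons] at ih ⊢
    rw [ih]; simp only [dec]; push_cast; ring

lemma isDual {R : List Row} (hR : (negE R).Perm ((posE R).map Prod.swap)) (dl : List ℕ) (y : ℕ) :
    IsDual (rowForm R dl) y (dualP R y) (dualN R y) := by
  intro x
  have h1 : SF (posE R) (dec y) (dec x) = SF (negE R) (dec x) (dec y) := by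
    rw [SF, SF, (hR.map _).sum_eq, List.map_map]
    congr 1
    exact List.map_congr_left fun p _ => mul_comm _ _
  have h2 : SF (dl.map fun i => (i, i)) (dec x) (dec y) =
      SF (dl.map fun i => (i, i)) (dec y) (dec x) := by
    rw [SF, SF, List.map_map, List.map_map]
    congr 1
    exact List.map_congr_left fun p _ => mul_comm _ _
  have h3 : SF (posE R) (dec x) (dec y) - SF (negE R) (dec x) (dec y) =
      (sd x (dualP R y) : ℤ) - sd x (dualN R y) := by
    clear hR h1
    induction R with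
    | nil => simp [posE, negE, SF, dualP, dualN]
    | cons r R ih =>
      have e1 : dualP (r :: R) y =
        List.replicate (sd y r.2.1 - sd y r.2.2) r.1 ++ dualP R y := rfl
      have e2 : dualN (r :: R) y =
        List.replicate (sd y r.2.2 - sd y r.2.1) r.1 ++ dualN R y := rfl
      have e3 : ((sd y r.2.1 - sd y r.2.2 : ℕ) : ℤ) - (sd y r.2.2 - sd y r.2.1 : ℕ) =
        sd y r.2.1 - sd y r.2.2 := by omega
      rw [posE, negE] at ih
      rw [posE, negE, List.flatMap_cons, List.flatMap_cons, SF_append, SF_append, SF_row, SF_row,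
        e1, e2, sd_append, sd_append, sd_replicate, sd_replicate]
      push_cast [-Nat.cast_sub]
      linear_combination ih - (dig x r.1 : ℤ) * e3
  show SF _ _ _ - SF _ _ _ = _
  rw [SF_append, SF_append, ← h3, h1, h2]
  ring

lemma selfB_eq (R : List Row) (dl : List ℕ) (y : ℕ) :
    (rowForm R dl).b (dec y) (dec y) = selfB R dl y := by
  show SF _ _ _ = _
  rw [SF_append, selfB, Nat.add_eq, Nat.cast_add]
  congr 1
  · induction R with
    | nil => simp [posE, SF]
    | cons r R ih =>
      rw [posE] at ih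
      rw [posE, List.flatMap_cons, SF_append, SF_row, ih]
      simp
  · induction dl with
    | nil => simp [SF]
    | cons i dl ih =>
      simp only [SF, List.map_cons, List.sum_cons] at ih ⊢
      rw [ih]
      simp [dec]

abbrev LL := List (ℕ × ℕ)

variable (B : Form (ℕ → ℤ))

noncomputable def GG (q : K) (p : ℕ × ℕ) : En K (ℕ → ℤ) := Gz B q (dec p.1) ((p.2 : ℤ) - 512)

noncomputable def val (q : K) (l : LL) : En K (ℕ → ℤ) := (l.map (GG B q)).sum

def Par (p : ℕ × ℕ) : Prop := Even ((p.2 : ℤ) - 512 + B.b (dec p.1) (dec p.1))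

def exA (n l0 l : ℕ) : ℕ → ℕ → ℕ → LL → LL :=
  Nat.rec (fun _ x e acc => (x, e) :: acc)
    (fun _ ih t x e acc => cond (small x && Nat.ble l0 e)
      (List.casesOn (ih (Nat.succ t) x e acc) [] fun h tl =>
        ih (Nat.succ t) (Nat.add x n) (Nat.sub (Nat.add e (Nat.succ (Nat.mul 2 t))) l0) (h :: tl))
      []) l

lemma cases_ne {α β : Type} {l : List α} {f : List α → List β}
    (h : (List.casesOn l [] fun a t => f (a :: t) : List β) ≠ []) :
    l ≠ [] ∧ (List.casesOn l [] fun a t => f (a :: t) : List β) = f l := by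
  cases l with
  | nil => exact absurd rfl h
  | cons a t => exact ⟨List.cons_ne_nil _ _, rfl⟩

lemma cond_ne {β : Type} {c : Bool} {u : List β} (h : cond c u [] ≠ []) :
    c = true ∧ cond c u [] = u := by
  cases c with
  | false => exact absurd rfl h
  | true => exact ⟨rfl, rfl⟩

lemma exA_ok (hq : Good q) {n l0 : ℕ} (hn : small n = true)
    (hp : Even (1 + B.b (dec n) (dec n))) (l : ℕ) : ∀ (t x e : ℕ) (acc : LL),
    exA n l0 l t x e acc ≠ [] → B.L (dec x) (dec n) = -l0 → Par B (x, e) →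
    (∀ p ∈ acc, Par B p) → (∀ p ∈ exA n l0 l t x e acc, Par B p) ∧
      val B q (exA n l0 l t x e acc) = val B q acc + GG B q (x, e) * PP B q (dec n) t l := by
  induction l with
  | zero =>
    intro t x e acc _ _ h1 h2
    refine ⟨fun p hp => ?_, ?_⟩
    · rcases List.mem_cons.mp hp with rfl | h
      · exact h1
      · exact h2 p h
    · show val B q ((x, e) :: acc) = _
      simp [val, PP, add_comm]
  | succ l ih =>
    intro t x e acc h0 hL h1 h2
    have e0 : exA n l0 (l + 1) t x e acc = cond (small x && Nat.ble l0 e)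
      (List.casesOn (exA n l0 l (t + 1) x e acc) [] fun h tl =>
        exA n l0 l (t + 1) (x + n) (e + (2 * t + 1) - l0) (h :: tl)) [] := rfl
    rw [e0] at h0 ⊢
    obtain ⟨c1, c2⟩ := cond_ne h0
    rw [c2] at h0 ⊢
    obtain ⟨c3, c4⟩ := cases_ne (f := exA n l0 l (t + 1) (x + n) (e + (2 * t + 1) - l0)) h0
    rw [c4] at h0 ⊢
    simp only [Bool.and_eq_true, Nat.ble_eq] at c1
    obtain ⟨a1, a2⟩ := ih (t + 1) x e acc c3 hL h1 h2
    obtain ⟨g1, g2⟩ := Gz_mul B hq h1 hp
    have ee : ((e + (2 * t + 1) - l0 : ℕ) : ℤ) - 512 =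
      (e : ℤ) - 512 + 1 + B.L (dec x) (dec n) + 2 * t := by rw [hL]; omega
    obtain ⟨b1, b2⟩ := ih (t + 1) (x + n) (e + (2 * t + 1) - l0) _ h0
      (by rw [dec_add c1.1 hn, B.L_add_left, B.L_self, hL, add_zero])
      (by
        simp only [Par, dec_add c1.1 hn, ee] at g2 ⊢
        obtain ⟨k, hk⟩ := g2
        exact ⟨k + t, by omega⟩) a1
    refine ⟨b1, ?_⟩
    rw [b2, a2, PP, ← mul_assoc, mul_add, mul_one, add_mul, add_assoc, mul_smul_comm]
    congr 3
    simp only [GG] at g1 ⊢
    rw [g1, dec_add c1.1 hn, ee, ← Gz_shift B hq, zpow_natCast]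

def stA (n : ℕ) (P N : List ℕ) (l : LL) : LL → LL :=
  List.rec (fun acc => acc)
    (fun p _ ih acc => Prod.casesOn p fun x e => cond (Nat.ble (sd x P) (sd x N))
      (List.casesOn (exA n (Nat.sub (sd x N) (sd x P)) (Nat.sub (sd x N) (sd x P)) 0 x e acc) []
        fun h tl => ih (h :: tl)) []) l

lemma stA_ok (hq : Good q) {n : ℕ} {P N : List ℕ} (hn : small n = true)
    (hp : Even (1 + B.b (dec n) (dec n))) (hd : IsDual B n P N) (l : LL) : ∀ acc : LL,
    stA n P N l acc ≠ [] → (∀ p ∈ l, Par B p) → (∀ p ∈ acc, Par B p) →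
    (∀ p ∈ stA n P N l acc, Par B p) ∧
      val B q (stA n P N l acc) = val B q acc + th B q (dec n) (val B q l) ∧
      val B q l ∈ Sp B q {m | 0 ≤ B.L (dec n) m} := by
  induction l with
  | nil => intro acc _ _ h2; exact ⟨h2, by simp [val, stA], by simp [val]⟩
  | cons p l ih =>
    obtain ⟨x, e⟩ := p
    intro acc h0 h1 h2
    have e0 : stA n P N ((x, e) :: l) acc = cond (Nat.ble (sd x P) (sd x N))
      (List.casesOn (exA n (sd x N - sd x P) (sd x N - sd x P) 0 x e acc) []
        fun h tl => stA n P N l (h :: tl)) [] := rfl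
    rw [e0] at h0 ⊢
    obtain ⟨c1, c2⟩ := cond_ne h0
    rw [c2] at h0 ⊢
    obtain ⟨c3, c4⟩ := cases_ne (f := stA n P N l) h0
    rw [c4] at h0 ⊢
    rw [Nat.ble_eq] at c1
    have hL : B.L (dec x) (dec n) = -(sd x N - sd x P : ℕ) := by rw [hd x]; omega
    have hL' : B.L (dec n) (dec x) = (sd x N - sd x P : ℕ) := by rw [B.L_swap, hL, neg_neg]
    obtain ⟨a1, a2⟩ := exA_ok B hq hn hp _ 0 x e acc c3 hL (h1 _ List.mem_cons_self) h2
    obtain ⟨b1, b2, b3⟩ := ih _ h0 (fun p hp => h1 p (List.mem_cons_of_mem _ hp)) a1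
    have ev : val B q ((x, e) :: l) = GG B q (x, e) + val B q l := by simp [val]
    refine ⟨b1, ?_, ?_⟩
    · rw [b2, a2, ev, map_add, add_assoc, GG, Gz, map_smul, th_z, hL', Int.toNat_natCast,
        smul_mul_assoc]
    · rw [ev]
      refine add_mem (Submodule.smul_mem _ _ (z_mem B ?_)) b3
      show 0 ≤ B.L (dec n) (dec x)
      rw [hL']; positivity

def chn (S : List Row) : LL → LL :=
  List.rec (fun l => l)
    (fun s _ ih l => Prod.casesOn s fun n d => Prod.casesOn d fun P N =>
      List.casesOn (stA n P N l []) [] fun h tl => ih (h :: tl)) S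

def StepOK (s : Row) : Prop :=
  small s.1 = true ∧ Even (1 + B.b (dec s.1) (dec s.1)) ∧ IsDual B s.1 s.2.1 s.2.2

lemma val_mem (l : LL) : val B q l ∈ Sp B q Set.univ := by
  refine list_sum_mem fun u hu => ?_
  obtain ⟨p, -, rfl⟩ := List.mem_map.mp hu
  exact Submodule.smul_mem _ _ (z_mem B (Set.mem_univ _))

theorem chn_ok (hq : Good q) (S : List Row) (hS : ∀ s ∈ S, StepOK B s) : ∀ l : LL,
    chn S l ≠ [] → (∀ p ∈ l, Par B p) → (∀ p ∈ chn S l, Par B p) ∧
      Dom B q (S.map fun s => dec s.1) (val B q l) ∧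
      Th B q (S.map fun s => dec s.1) (val B q l) = val B q (chn S l) := by
  induction S with
  | nil => intro l _ h1; exact ⟨h1, val_mem B l, rfl⟩
  | cons s S ih =>
    obtain ⟨n, P, N⟩ := s
    intro l h0 h1
    have e0 : chn ((n, P, N) :: S) l =
      List.casesOn (stA n P N l []) [] fun h tl => chn S (h :: tl) := rfl
    rw [e0] at h0 ⊢
    obtain ⟨c3, c4⟩ := cases_ne (f := chn S) h0
    rw [c4] at h0 ⊢
    obtain ⟨s1, s2, s3⟩ := hS _ List.mem_cons_self
    obtain ⟨a1, a2, a3⟩ := stA_ok B hq s1 s2 s3 l [] c3 h1 (by simp)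
    obtain ⟨b1, b2, b3⟩ := ih (fun s hs => hS s (List.mem_cons_of_mem _ hs)) _ h0 a1
    have a4 : th B q (dec n) (val B q l) = val B q (stA n P N l []) := by
      rw [a2]; simp [val]
    refine ⟨b1, ⟨a3, by rw [a4]; exact b2⟩, ?_⟩
    rw [List.map_cons, Th, LinearMap.comp_apply, a4, b3]

/-! Relations -/

noncomputable def kv (q : K) (k : ℕ) : En K (ℕ → ℤ) :=
  Gz B q (dec (k / 2048)) ((k % 2048 : ℕ) - 1024)

noncomputable def dif (q : K) (l : LL) : En K (ℕ → ℤ) :=
  (l.map fun p => kv B q p.1 - kv B q p.2).sum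

lemma en_sub (u : En K (ℕ → ℤ)) : u - u = 0 := sub_self u

def inn (a1 a2 y f : ℕ) (P N : List ℕ) (l : LL) : LL → LL :=
  List.rec (fun acc => acc)
    (fun p _ ih acc => Prod.casesOn p fun x e =>
      cond (Nat.beq (Nat.add (sd x P) a1) (Nat.add (sd x N) a2)) (ih acc)
        (cond (small x && Nat.ble (sd x P) e && Nat.ble (sd x N) e &&
            Nat.blt (e + f + sd x P + sd x N + 2 * a1 + 2 * a2) 2048)
          (ih (((x + y) * 2048 + (e + f + sd x P + 2 * a1 - sd x N),
            (x + y) * 2048 + (e + f + sd x N + 2 * a2 - sd x P)) :: acc)) [])) l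

lemma kv_key (u k : ℕ) (hk : k < 2048) : kv B q (u * 2048 + k) = Gz B q (dec u) (k - 1024) := by
  rw [kv, show (u * 2048 + k) / 2048 = u by omega, show (u * 2048 + k) % 2048 = k by omega]

lemma inn_ok (hq : Good q) {a1 a2 y f : ℕ} {P N : List ℕ} (hy : small y = true)
    (hp : Par B (y, f)) (hd : IsDual B y P N) (l : LL) : ∀ acc : LL,
    inn a1 a2 y f P N l acc ≠ [] → (∀ p ∈ l, Par B p) →
    dif B q (inn a1 a2 y f P N l acc) = dif B q acc +
      (q ^ a1 • (val B q l * GG B q (y, f)) - q ^ a2 • (GG B q (y, f) * val B q l)) := by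
  induction l with
  | nil =>
    intro acc _ _
    simp only [val, List.map_nil, List.sum_nil, zero_mul, mul_zero, smul_zero]
    rw [en_sub, add_zero]
    rfl
  | cons p l ih =>
    obtain ⟨x, e⟩ := p
    intro acc h0 h1
    have e0 : inn a1 a2 y f P N ((x, e) :: l) acc =
      cond (Nat.beq (sd x P + a1) (sd x N + a2)) (inn a1 a2 y f P N l acc)
        (cond (small x && Nat.ble (sd x P) e && Nat.ble (sd x N) e &&
            Nat.blt (e + f + sd x P + sd x N + 2 * a1 + 2 * a2) 2048)
          (inn a1 a2 y f P N l (((x + y) * 2048 + (e + f + sd x P + 2 * a1 - sd x N),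
            (x + y) * 2048 + (e + f + sd x N + 2 * a2 - sd x P)) :: acc)) []) := rfl
    have hx := h1 _ List.mem_cons_self
    have h1' : ∀ p ∈ l, Par B p := fun p hp => h1 p (List.mem_cons_of_mem _ hp)
    have g1 : q ^ a1 • (GG B q (x, e) * GG B q (y, f)) = Gz B q (dec x + dec y)
        ((e : ℤ) - 512 + (f - 512) + (sd x P - sd x N) + 2 * a1) := by
      rw [← hd x, ← Gz_shift B hq, zpow_natCast, ← (Gz_mul B hq hx hp).1]; rfl
    have g2 : q ^ a2 • (GG B q (y, f) * GG B q (x, e)) = Gz B q (dec x + dec y)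
        ((f : ℤ) - 512 + (e - 512) + -(sd x P - sd x N) + 2 * a2) := by
      rw [← hd x, ← B.L_swap, ← Gz_shift B hq, zpow_natCast, add_comm (dec x),
        ← (Gz_mul B hq hp hx).1]; rfl
    have ev : val B q ((x, e) :: l) = GG B q (x, e) + val B q l := by simp [val]
    rw [ev, add_mul (GG B q _), mul_add (GG B q _), smul_add, smul_add, g1, g2]
    rw [e0] at h0 ⊢
    cases hc : Nat.beq (sd x P + a1) (sd x N + a2) with
    | true =>
      rw [hc, cond_true] at h0
      rw [cond_true, ih acc h0 h1']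
      have := Nat.eq_of_beq_eq_true hc
      rw [show (f : ℤ) - 512 + (e - 512) + -(sd x P - sd x N) + 2 * a2 =
        (e : ℤ) - 512 + (f - 512) + (sd x P - sd x N) + 2 * a1 by omega]
      abel
    | false =>
      rw [hc, cond_false] at h0
      obtain ⟨c1, c2⟩ := cond_ne h0
      rw [c2] at h0
      rw [cond_false, c2, ih _ h0 h1']
      simp only [Bool.and_eq_true, Nat.ble_eq, Nat.blt_eq] at c1
      obtain ⟨⟨⟨c1, c3⟩, c4⟩, c5⟩ := c1
      rw [dif, List.map_cons, List.sum_cons, kv_key B _ _ (by omega), kv_key B _ _ (by omega),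
        dec_add c1 hy, ← dif,
        show (f : ℤ) - 512 + (e - 512) + -(sd x P - sd x N) + 2 * a2 =
          ((e + f + sd x N + 2 * a2 - sd x P : ℕ) : ℤ) - 1024 by omega,
        show (e : ℤ) - 512 + (f - 512) + (sd x P - sd x N) + 2 * a1 =
          ((e + f + sd x P + 2 * a1 - sd x N : ℕ) : ℤ) - 1024 by omega]
      abel

abbrev YL := List ((ℕ × ℕ) × List ℕ × List ℕ)

def out (a1 a2 : ℕ) (X : LL) (Y : YL) : LL → LL :=
  List.rec (fun acc => acc)
    (fun s _ ih acc => Prod.casesOn s fun p d => Prod.casesOn p fun y f =>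
      Prod.casesOn d fun P N => cond (small y)
        (List.casesOn (inn a1 a2 y f P N X acc) [] fun h tl => ih (h :: tl)) []) Y

lemma out_ok (hq : Good q) {a1 a2 : ℕ} {X : LL} (hX : ∀ p ∈ X, Par B p) (Y : YL) : ∀ acc : LL,
    out a1 a2 X Y acc ≠ [] → (∀ s ∈ Y, Par B s.1 ∧ IsDual B s.1.1 s.2.1 s.2.2) →
    dif B q (out a1 a2 X Y acc) = dif B q acc +
      (q ^ a1 • (val B q X * val B q (Y.map Prod.fst)) -
        q ^ a2 • (val B q (Y.map Prod.fst) * val B q X)) := by
  induction Y with
  | nil =>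
    intro acc _ _
    simp only [val, List.map_nil, List.sum_nil, zero_mul, mul_zero, smul_zero]
    rw [en_sub, add_zero]
    rfl
  | cons s Y ih =>
    obtain ⟨⟨y, f⟩, P, N⟩ := s
    intro acc h0 h1
    have e0 : out a1 a2 X (((y, f), P, N) :: Y) acc = cond (small y)
      (List.casesOn (inn a1 a2 y f P N X acc) [] fun h tl => out a1 a2 X Y (h :: tl)) [] := rfl
    have ev : val B q ((((y, f), P, N) :: Y).map Prod.fst) =
      GG B q (y, f) + val B q (Y.map Prod.fst) := by simp [val]
    rw [ev, add_mul (GG B q _), mul_add (val B q X), smul_add, smul_add]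
    rw [e0] at h0 ⊢
    obtain ⟨c1, c2⟩ := cond_ne h0
    rw [c2] at h0 ⊢
    obtain ⟨c3, c4⟩ := cases_ne (f := out a1 a2 X Y) h0
    rw [c4] at h0 ⊢
    obtain ⟨s1, s2⟩ := h1 _ List.mem_cons_self
    rw [ih _ h0 fun s hs => h1 s (List.mem_cons_of_mem _ hs), inn_ok B hq c1 s1 s2 X acc c3 hX]
    abel

def mrg (k : ℕ) : List ℕ → List ℕ → List ℕ :=
  Nat.rec (fun a b => a ++ b)
    (fun _ ih a b => List.casesOn a b fun x xs => List.casesOn b (x :: xs) fun y ys =>
      cond (Nat.ble x y) (x :: ih xs (y :: ys)) (y :: ih (x :: xs) ys)) k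

lemma mrg_perm (k : ℕ) : ∀ a b : List ℕ, (mrg k a b).Perm (a ++ b) := by
  induction k with
  | zero => intro a b; rfl
  | succ k ih =>
    intro a b
    rcases a with _ | ⟨x, xs⟩
    · rfl
    rcases b with _ | ⟨y, ys⟩
    · rw [List.append_nil]; rfl
    have e0 : mrg (k + 1) (x :: xs) (y :: ys) =
      cond (Nat.ble x y) (x :: mrg k xs (y :: ys)) (y :: mrg k (x :: xs) ys) := rfl
    rw [e0]
    cases Nat.ble x y with
    | true => exact (ih _ _).cons x
    | false => exact ((ih _ _).cons y).trans List.perm_middle.symm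

def alt (l : List ℕ) : Bool → List ℕ :=
  List.rec (fun _ => []) (fun a _ ih b => cond b (a :: ih false) (ih true)) l

lemma alt_perm (l : List ℕ) : (alt l true ++ alt l false).Perm l := by
  induction l with
  | nil => rfl
  | cons a l ih => exact (List.perm_append_comm.trans ih).cons a

def msort (k : ℕ) : List ℕ → List ℕ :=
  Nat.rec (fun l => l)
    (fun _ ih l => List.casesOn l [] fun x t => List.casesOn t [x] fun y u =>
      mrg 4000 (ih (alt (x :: y :: u) true)) (ih (alt (x :: y :: u) false))) k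

lemma msort_perm (k : ℕ) : ∀ l : List ℕ, (msort k l).Perm l := by
  induction k with
  | zero => intro l; rfl
  | succ k ih =>
    intro l
    rcases l with _ | ⟨x, _ | ⟨y, u⟩⟩
    · rfl
    · rfl
    · exact (mrg_perm 4000 _ _).trans (((ih _).append (ih _)).trans (alt_perm (x :: y :: u)))

def leq (a : List ℕ) : List ℕ → Bool :=
  List.rec (fun b => List.casesOn b true fun _ _ => false)
    (fun x _ ih b => List.casesOn b false fun y ys => cond (Nat.beq x y) (ih ys) false) a

lemma leq_eq (a : List ℕ) : ∀ b, leq a b = true → a = b := by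
  induction a with
  | nil => intro b h; cases b with
    | nil => rfl
    | cons _ _ => exact absurd h (by simp [leq])
  | cons x a ih =>
    intro b h
    rcases b with _ | ⟨y, ys⟩
    · exact absurd h (by simp [leq])
    have e0 : leq (x :: a) (y :: ys) = cond (Nat.beq x y) (leq a ys) false := rfl
    rw [e0] at h
    cases hc : Nat.beq x y with
    | false => rw [hc] at h; exact absurd h (by simp)
    | true =>
      rw [hc] at h
      rw [Nat.eq_of_beq_eq_true hc, ih ys h]

def pairOK (a1 a2 k1 k2 : ℕ) (X : LL) (Y : YL) : Bool :=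
  List.casesOn (out a1 a2 X Y [(k1, k2)]) false fun h t =>
    leq (msort 20 ((h :: t).map Prod.fst)) (msort 20 ((h :: t).map Prod.snd))

theorem pair_ok (hq : Good q) {a1 a2 k1 k2 : ℕ} {X : LL} {Y : YL}
    (h : pairOK a1 a2 k1 k2 X Y = true) (hX : ∀ p ∈ X, Par B p)
    (hY : ∀ s ∈ Y, Par B s.1 ∧ IsDual B s.1.1 s.2.1 s.2.2) :
    q ^ a1 • (val B q X * val B q (Y.map Prod.fst)) + kv B q k1 =
      q ^ a2 • (val B q (Y.map Prod.fst) * val B q X) + kv B q k2 := by
  have h1 := out_ok B hq (a1 := a1) (a2 := a2) hX Y [(k1, k2)]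
  rw [pairOK] at h
  generalize out a1 a2 X Y [(k1, k2)] = r at h h1
  rcases r with _ | ⟨r, t⟩
  · exact absurd h (by simp)
  have h2 := h1 (List.cons_ne_nil _ _) hY
  have h3 : ((r :: t).map Prod.fst).Perm ((r :: t).map Prod.snd) :=
    (msort_perm 20 _).symm.trans (leq_eq _ _ h ▸ msort_perm 20 _)
  have h4 : ∀ l : LL, dif B q l =
      ((l.map Prod.fst).map (kv B q)).sum - ((l.map Prod.snd).map (kv B q)).sum := by
    intro l
    induction l with
    | nil => exact (en_sub 0).symm
    | cons p l ih =>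
      simp only [dif, List.map_cons, List.sum_cons] at ih ⊢
      rw [ih]; abel
  rw [h4, (h3.map _).sum_eq, en_sub] at h2
  simp only [dif, List.map_cons, List.map_nil, List.sum_cons, List.sum_nil, add_zero] at h2
  rw [← add_zero (_ + kv B q k2), h2]
  abel

end Pool.Agent.Lib.MP_4223bd_al
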