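import Mathlib
import Pool.Agent.Lib.MP_4223bd_al.DataX
import Pool.Agent.Lib.MP_4223bd_al.DataY

set_option autoImplicit false

namespace Pool.Agent.Lib.MP_4223bd_al

/-! The exchange and commutation relations between the two families. -/

lemma pair_0_0 :
    pairOK 0 1 (PI.getD 0 0 * 2048 + 1026) (PI.getD 0 0 * 2048 + 1024) X0 Y0 = true := by
  decide +kernel

lemma pair_0_2 :
    pairOK 0 0 0 0 X0 Y2 = true := by
  decide +kernel

lemma pair_0_4 :
    pairOK 0 0 0 0 X0 Y4 = true := by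
  decide +kernel

lemma pair_0_6 :
    pairOK 0 0 0 0 X0 Y6 = true := by
  decide +kernel

lemma pair_2_0 :
    pairOK 0 0 0 0 X2 Y0 = true := by
  decide +kernel

lemma pair_2_2 :
    pairOK 0 1 (PI.getD 2 0 * 2048 + 1026) (PI.getD 2 0 * 2048 + 1024) X2 Y2 = true := by
  decide +kernel

lemma pair_2_4 :
    pairOK 0 0 0 0 X2 Y4 = true := by
  decide +kernel

lemma pair_2_6 :
    pairOK 0 0 0 0 X2 Y6 = true := by
  decide +kernel

lemma pair_4_0 :
    pairOK 0 0 0 0 X4 Y0 = true := by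
  decide +kernel

lemma pair_4_2 :
    pairOK 0 0 0 0 X4 Y2 = true := by
  decide +kernel

lemma pair_4_4 :
    pairOK 0 1 (PI.getD 4 0 * 2048 + 1026) (PI.getD 4 0 * 2048 + 1024) X4 Y4 = true := by
  decide +kernel

lemma pair_4_6 :
    pairOK 0 0 0 0 X4 Y6 = true := by
  decide +kernel

lemma pair_6_0 :
    pairOK 0 0 0 0 X6 Y0 = true := by
  decide +kernel

lemma pair_6_2 :
    pairOK 0 0 0 0 X6 Y2 = true := by
  decide +kernel

lemma pair_6_4 :
    pairOK 0 0 0 0 X6 Y4 = true := by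
  decide +kernel

lemma pair_6_6 :
    pairOK 0 1 (PI.getD 6 0 * 2048 + 1026) (PI.getD 6 0 * 2048 + 1024) X6 Y6 = true := by
  decide +kernel

end Pool.Agent.Lib.MP_4223bd_al
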