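import Mathlib
import Pool.Agent.Lib.MP_4223bd_al.DataX
import Pool.Agent.Lib.MP_4223bd_al.DataY

set_option autoImplicit false

namespace Pool.Agent.Lib.MP_4223bd_al

/-! The exchange and commutation relations between the two families. -/

lemma pair_1_1 :
    pairOK 1 0 (PI.getD 1 0 * 2048 + 1024) (PI.getD 1 0 * 2048 + 1026) X1 Y1 = true := by
  decide +kernel

lemma pair_1_3 :
    pairOK 0 0 0 0 X1 Y3 = true := by
  decide +kernel

lemma pair_1_5 :
    pairOK 0 0 0 0 X1 Y5 = true := by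
  decide +kernel

lemma pair_1_7 :
    pairOK 0 0 0 0 X1 Y7 = true := by
  decide +kernel

lemma pair_3_1 :
    pairOK 0 0 0 0 X3 Y1 = true := by
  decide +kernel

lemma pair_3_3 :
    pairOK 1 0 (PI.getD 3 0 * 2048 + 1024) (PI.getD 3 0 * 2048 + 1026) X3 Y3 = true := by
  decide +kernel

lemma pair_3_5 :
    pairOK 0 0 0 0 X3 Y5 = true := by
  decide +kernel

lemma pair_3_7 :
    pairOK 0 0 0 0 X3 Y7 = true := by
  decide +kernel

lemma pair_5_1 :
    pairOK 0 0 0 0 X5 Y1 = true := by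
  decide +kernel

lemma pair_5_3 :
    pairOK 0 0 0 0 X5 Y3 = true := by
  decide +kernel

lemma pair_5_5 :
    pairOK 1 0 (PI.getD 5 0 * 2048 + 1024) (PI.getD 5 0 * 2048 + 1026) X5 Y5 = true := by
  decide +kernel

lemma pair_5_7 :
    pairOK 0 0 0 0 X5 Y7 = true := by
  decide +kernel

lemma pair_7_1 :
    pairOK 0 0 0 0 X7 Y1 = true := by
  decide +kernel

lemma pair_7_3 :
    pairOK 0 0 0 0 X7 Y3 = true := by
  decide +kernel

lemma pair_7_5 :
    pairOK 0 0 0 0 X7 Y5 = true := by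
  decide +kernel

lemma pair_7_7 :
    pairOK 1 0 (PI.getD 7 0 * 2048 + 1024) (PI.getD 7 0 * 2048 + 1026) X7 Y7 = true := by
  decide +kernel

end Pool.Agent.Lib.MP_4223bd_al
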