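import Mathlib
import Pool.Agent.Lib.MP_4223bd_al.Bip
import Pool.Agent.Lib.MP_4223bd_al.Pair0
import Pool.Agent.Lib.MP_4223bd_al.Pair1

set_option autoImplicit false

namespace Pool.Agent.Lib.MP_4223bd_al

/-! The realisation for `E8`, and types `E6`, `E7`, `E8`. -/

variable {K : Type*} [Field K] {q : K}

noncomputable def B8 : Form (ℕ → ℤ) := rowForm RR DL

noncomputable def Lc (x y : ℕ) : ℤ := (sd x (dualP RR y) : ℤ) - sd x (dualN RR y)

lemma L_eq (x y : ℕ) : B8.L (dec x) (dec y) = Lc x y := isDual RR_perm DL y x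

lemma b_eq (y : ℕ) : B8.b (dec y) (dec y) = selfB RR DL y := selfB_eq RR DL y

lemma step_ok {s : Row} (h : stepB s = true) :
    StepOK B8 s ∧ ∀ p ∈ PI, B8.L (dec s.1) (dec p) = 0 := by
  simp only [stepB, Bool.and_eq_true, Nat.beq_eq, List.all_eq_true] at h
  obtain ⟨⟨⟨⟨h1, h2⟩, h3⟩, h4⟩, h5⟩ := h
  have hd : IsDual B8 s.1 s.2.1 s.2.2 := by
    rw [← leq_eq _ _ h3, ← leq_eq _ _ h4]
    exact isDual RR_perm DL _
  refine ⟨⟨h1, ?_, hd⟩, fun p hp => ?_⟩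
  · have h6 : selfB RR DL s.1 % 2 = 1 := h2
    rw [b_eq]
    exact ⟨(selfB RR DL s.1 + 1) / 2, by omega⟩
  · rw [B8.L_swap, hd p, h5 p hp, sub_self, neg_zero]

lemma fam (hq : Good q) {S : List Row} (hS : S.all stepB = true) {g : ℕ} {X : LL}
    (hX : chn S [(g, 512)] = X) (hg : selfB RR DL g = 0) (hne : X ≠ []) :
    (∀ p ∈ X, Par B8 p) ∧ Img B8 q (S.map fun s => dec s.1) (dec g) (val B8 q X) := by
  subst hX
  obtain ⟨h1, h2, h3⟩ := chn_ok B8 hq S (fun s hs => (step_ok (List.all_eq_true.mp hS s hs)).1)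
    [(g, 512)] hne (fun p hp => by
      rw [List.mem_singleton.mp hp, Par, b_eq, hg]; exact ⟨0, by norm_num⟩)
  simp only [val, List.map_cons, List.map_nil, List.sum_cons, List.sum_nil, add_zero] at h2 h3
  exact ⟨h1, _, h2, h3⟩

lemma dual_ok {Y : YL} (hY : Y.all dualB = true) (h : ∀ p ∈ Y.map Prod.fst, Par B8 p) :
    ∀ s ∈ Y, Par B8 s.1 ∧ IsDual B8 s.1.1 s.2.1 s.2.2 := by
  intro s hs
  have h1 := List.all_eq_true.mp hY s hs
  simp only [dualB, Bool.and_eq_true] at h1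
  refine ⟨h _ (List.mem_map_of_mem hs), ?_⟩
  rw [← leq_eq _ _ h1.1, ← leq_eq _ _ h1.2]
  exact isDual RR_perm DL _

def gA : Fin 4 → ℕ := ![0x1, 0x100, 0x10000, 0x1000000]
def gB : Fin 4 → ℕ := ![0x10, 0x1000, 0x100000, 0x10000000]
def hA : Fin 4 → ℕ := ![0x100000000, 0x10000000000, 0x1000000000000, 0x100000000000000]
def hC : Fin 4 → ℕ := ![0x1000000000, 0x100000000000, 0x10000000000000, 0x1000000000000000]
noncomputable def pA : Fin 4 → ℕ := ![PI.getD 0 0, PI.getD 2 0, PI.getD 4 0, PI.getD 6 0]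
noncomputable def pB : Fin 4 → ℕ := ![PI.getD 1 0, PI.getD 3 0, PI.getD 5 0, PI.getD 7 0]
noncomputable def XA : Fin 4 → LL := ![X0, X2, X4, X6]
noncomputable def XB : Fin 4 → LL := ![X1, X3, X5, X7]
noncomputable def YA : Fin 4 → YL := ![Y0, Y2, Y4, Y6]
noncomputable def YB : Fin 4 → YL := ![Y1, Y3, Y5, Y7]
def l8 : Fin 4 → Fin 4 → ℤ := ![![-1, 0, 0, 0], ![-1, -1, 0, -1], ![0, -1, -1, 0], ![0, 0, -1, 0]]

lemma facts1 : ∀ i : Fin 4, (selfB RR DL (gA i) = 0 ∧ selfB RR DL (gB i) = 0 ∧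
    selfB RR DL (hA i) = 0 ∧ selfB RR DL (hC i) = 0) ∧
    (selfB RR DL (pA i) % 2 = 0 ∧ selfB RR DL (pB i) % 2 = 0) ∧ (pA i ∈ PI ∧ pB i ∈ PI) ∧
    XA i ≠ [] ∧ XB i ≠ [] ∧ (YA i).map Prod.fst ≠ [] ∧ (YB i).map Prod.fst ≠ [] := by
  decide +kernel

lemma facts2 : ∀ i j : Fin 4, (Lc (gA i) (gB j) = 0 ∧ Lc (hC i) (hA j) = 0) ∧
    (Lc (pA i) (gA j) = 0 ∧ Lc (pA i) (hA j) = 0 ∧ Lc (pA i) (pA j) = 0) ∧
    (Lc (pA i) (hC j) = 0 ∧ Lc (pA i) (gB j) = 0) ∧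
    (Lc (pB i) (hC j) = 0 ∧ Lc (pB i) (gB j) = 0 ∧ Lc (pB i) (pB j) = 0) ∧
    Lc (pB i) (pA j) = 0 ∧ Lc (pB i) (gA j) = l8 j i := by
  decide +kernel

lemma chains (i : Fin 4) : chn S1 [(gA i, 512)] = XA i ∧ chn S1 [(gB i, 512)] = XB i ∧
    chn S2 [(hA i, 512)] = (YA i).map Prod.fst ∧ chn S2 [(hC i, 512)] = (YB i).map Prod.fst ∧
    (YA i).all dualB = true ∧ (YB i).all dualB = true := by
  fin_cases i
  · exact ⟨X0_ok, X1_ok, Y0_ok, Y1_ok, Y0_dual, Y1_dual⟩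
  · exact ⟨X2_ok, X3_ok, Y2_ok, Y3_ok, Y2_dual, Y3_dual⟩
  · exact ⟨X4_ok, X5_ok, Y4_ok, Y5_ok, Y4_dual, Y5_dual⟩
  · exact ⟨X6_ok, X7_ok, Y6_ok, Y7_ok, Y6_dual, Y7_dual⟩

lemma pairs_diag (i : Fin 4) :
    pairOK 0 1 (pA i * 2048 + 1026) (pA i * 2048 + 1024) (XA i) (YA i) = true ∧
    pairOK 1 0 (pB i * 2048 + 1024) (pB i * 2048 + 1026) (XB i) (YB i) = true := by
  fin_cases i
  · exact ⟨pair_0_0, pair_1_1⟩
  · exact ⟨pair_2_2, pair_3_3⟩
  · exact ⟨pair_4_4, pair_5_5⟩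
  · exact ⟨pair_6_6, pair_7_7⟩

lemma pairs_off (i j : Fin 4) (h : i ≠ j) :
    pairOK 0 0 0 0 (XA i) (YA j) = true ∧ pairOK 0 0 0 0 (XB i) (YB j) = true := by
  fin_cases i <;> fin_cases j
  · exact absurd rfl h
  · exact ⟨pair_0_2, pair_1_3⟩
  · exact ⟨pair_0_4, pair_1_5⟩
  · exact ⟨pair_0_6, pair_1_7⟩
  · exact ⟨pair_2_0, pair_3_1⟩
  · exact absurd rfl h
  · exact ⟨pair_2_4, pair_3_5⟩
  · exact ⟨pair_2_6, pair_3_7⟩
  · exact ⟨pair_4_0, pair_5_1⟩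
  · exact ⟨pair_4_2, pair_5_3⟩
  · exact absurd rfl h
  · exact ⟨pair_4_6, pair_5_7⟩
  · exact ⟨pair_6_0, pair_7_1⟩
  · exact ⟨pair_6_2, pair_7_3⟩
  · exact ⟨pair_6_4, pair_7_5⟩
  · exact absurd rfl h

lemma kv_two (hq : Good q) (u : ℕ) : kv B8 q (u * 2048 + 1024) = Gz B8 q (dec u) 0 ∧
    kv B8 q (u * 2048 + 1026) = q • Gz B8 q (dec u) 0 := by
  have h := Gz_shift B8 hq (dec u) 0 1
  rw [zpow_one] at h
  rw [kv_key B8 _ _ (by norm_num), kv_key B8 _ _ (by norm_num), h]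
  exact ⟨rfl, rfl⟩

lemma rel_of {R : Type*} [AddCommGroup R] [Module K R] {u v g : R} (h : u + q • g = q • v + g) :
    u = q • v + (1 - q) • g := by
  rw [sub_smul, one_smul, ← add_sub_assoc, ← h, add_sub_cancel_right]

lemma can_of {R : Type*} [AddCommGroup R] {u v g : R} (h : u + g = v + g) : u = v :=
  add_right_cancel h

theorem real8 (hq : Good q) : Real B8 q l8 (S1.map fun s => dec s.1) (S2.map fun s => dec s.1)
    (fun i => val B8 q (XA i)) (fun i => val B8 q ((YA i).map Prod.fst))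
    (fun i => val B8 q ((YB i).map Prod.fst)) (fun i => val B8 q (XB i))
    (fun i => dec (gA i)) (fun i => dec (hA i)) (fun i => dec (pA i))
    (fun i => dec (hC i)) (fun i => dec (gB i)) (fun i => dec (pB i)) := by
  have f1 := fun i => fam hq S1_ok (chains i).1 (facts1 i).1.1 (facts1 i).2.2.2.1
  have f2 := fun i => fam hq S1_ok (chains i).2.1 (facts1 i).1.2.1 (facts1 i).2.2.2.2.1
  have f3 := fun i => fam hq S2_ok (chains i).2.2.1 (facts1 i).1.2.2.1 (facts1 i).2.2.2.2.2.1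
  have f4 := fun i => fam hq S2_ok (chains i).2.2.2.1 (facts1 i).1.2.2.2 (facts1 i).2.2.2.2.2.2
  have d3 := fun i => dual_ok (chains i).2.2.2.2.1 (f3 i).1
  have d4 := fun i => dual_ok (chains i).2.2.2.2.2 (f4 i).1
  have st : ∀ {S : List Row}, S.all stepB = true → ∀ m ∈ S.map fun s => dec s.1,
      Even (1 + B8.b m m) ∧ ∀ p ∈ PI, B8.L m (dec p) = 0 := by
    intro S hS m hm
    obtain ⟨s, hs, rfl⟩ := List.mem_map.mp hm
    have := step_ok (List.all_eq_true.mp hS s hs)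
    exact ⟨this.1.2.1, this.2⟩
  have ev : ∀ u, selfB RR DL u % 2 = 0 → Even (B8.b (dec u) (dec u)) := fun u hu => by
    rw [b_eq]; exact ⟨selfB RR DL u / 2, by omega⟩
  refine
    { o1 := fun m hm => (st S1_ok m hm).1
      o2 := fun m hm => (st S2_ok m hm).1
      ia := fun i => (f1 i).2
      ib' := fun i => (f2 i).2
      ia' := fun i => (f3 i).2
      ib := fun i => (f4 i).2
      fa1 := fun i m hm => (st S1_ok m hm).2 _ (facts1 i).2.2.1.1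
      fa2 := fun i m hm => (st S2_ok m hm).2 _ (facts1 i).2.2.1.1
      fb1 := fun i m hm => (st S1_ok m hm).2 _ (facts1 i).2.2.1.2
      fb2 := fun i m hm => (st S2_ok m hm).2 _ (facts1 i).2.2.1.2
      ea := fun i => ev _ (facts1 i).2.1.1
      eb := fun i => ev _ (facts1 i).2.1.2
      l1 := fun i j => (L_eq _ _).trans (facts2 i j).1.1
      l2 := fun i j => (L_eq _ _).trans (facts2 i j).1.2
      l3 := fun i j => by simp only [L_eq]; exact (facts2 i j).2.1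
      l4 := fun i j => by simp only [L_eq]; exact (facts2 i j).2.2.1
      l5 := fun i j => by simp only [L_eq]; exact (facts2 i j).2.2.2.1
      l6 := fun i j => by simp only [L_eq]; exact (facts2 i j).2.2.2.2
      ra := fun i => ?_
      rb := fun i => ?_
      ca := fun i j h => ?_
      cb := fun i j h => ?_ }
  · have h := pair_ok B8 hq (pairs_diag i).1 (f1 i).1 (d3 i)
    rw [(kv_two hq _).1, (kv_two hq _).2, pow_zero, one_smul, pow_one] at h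
    exact rel_of (R := En K (ℕ → ℤ)) h
  · have h := pair_ok B8 hq (pairs_diag i).2 (f2 i).1 (d4 i)
    rw [(kv_two hq _).1, (kv_two hq _).2, pow_zero, one_smul, pow_one] at h
    exact rel_of (R := En K (ℕ → ℤ)) h.symm
  · have h := pair_ok B8 hq (pairs_off i j h).1 (f1 i).1 (d3 j)
    rw [pow_zero, one_smul, one_smul] at h
    exact can_of (R := En K (ℕ → ℤ)) h
  · have h := pair_ok B8 hq (pairs_off j i h.symm).2 (f2 j).1 (d4 i)
    rw [pow_zero, one_smul, one_smul] at h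
    exact (can_of (R := En K (ℕ → ℤ)) h).symm

def A8 : Matrix (Fin 4 ⊕ Fin 4) (Fin 4 ⊕ Fin 4) ℤ :=
  Matrix.fromBlocks (Matrix.diagonal fun _ => 2) (Matrix.of l8) (Matrix.of l8).transpose
    (Matrix.diagonal fun _ => 2)

lemma hB8 (c : Fin 4 ⊕ Fin 4 → ℕ) : 120 * hB l8 c =
    30 * (2 * (c (.inl 3) : ℤ) - c (.inr 2)) ^ 2 + 10 * (3 * (c (.inr 2) : ℤ) - 2 * c (.inl 2)) ^ 2 +
    5 * (4 * (c (.inl 2) : ℤ) - 3 * c (.inr 1)) ^ 2 +
    3 * (5 * (c (.inr 1) : ℤ) - 4 * c (.inl 1)) ^ 2 + 30 * (2 * (c (.inl 0) : ℤ) - c (.inr 0)) ^ 2 +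
    10 * (3 * (c (.inr 0) : ℤ) - 2 * c (.inl 1)) ^ 2 +
    30 * (2 * (c (.inr 3) : ℤ) - c (.inl 1)) ^ 2 + 2 * (c (.inl 1) : ℤ) ^ 2 := by
  simp [hB, l8, Fin.sum_univ_four]
  ring

theorem nice_A8 (hq : Good q) (hi : Function.Injective (ev q)) : Nice q A8 := by
  refine (real8 hq).nice hq hi (fun c => ?_) fun c hc => ?_
  · simp [QF, hB, A8, l8, Fintype.sum_sum_type, Fin.sum_univ_four, Matrix.diagonal]
    ring
  · by_contra hn
    apply hc
    have h := hB8 c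
    have z : ∀ {x : ℤ}, x ^ 2 ≤ 0 → x = 0 := fun hx => pow_eq_zero_iff two_ne_zero |>.mp
      (le_antisymm hx (sq_nonneg _))
    have s1 := sq_nonneg (2 * (c (.inl 3) : ℤ) - c (.inr 2))
    have s2 := sq_nonneg (3 * (c (.inr 2) : ℤ) - 2 * c (.inl 2))
    have s3 := sq_nonneg (4 * (c (.inl 2) : ℤ) - 3 * c (.inr 1))
    have s4 := sq_nonneg (5 * (c (.inr 1) : ℤ) - 4 * c (.inl 1))
    have s5 := sq_nonneg (2 * (c (.inl 0) : ℤ) - c (.inr 0))
    have s6 := sq_nonneg (3 * (c (.inr 0) : ℤ) - 2 * c (.inl 1))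
    have s7 := sq_nonneg (2 * (c (.inr 3) : ℤ) - c (.inl 1))
    have s8 := sq_nonneg (c (.inl 1) : ℤ)
    have t1 := z (by linarith : (2 * (c (.inl 3) : ℤ) - c (.inr 2)) ^ 2 ≤ 0)
    have t2 := z (by linarith : (3 * (c (.inr 2) : ℤ) - 2 * c (.inl 2)) ^ 2 ≤ 0)
    have t3 := z (by linarith : (4 * (c (.inl 2) : ℤ) - 3 * c (.inr 1)) ^ 2 ≤ 0)
    have t4 := z (by linarith : (5 * (c (.inr 1) : ℤ) - 4 * c (.inl 1)) ^ 2 ≤ 0)
    have t5 := z (by linarith : (2 * (c (.inl 0) : ℤ) - c (.inr 0)) ^ 2 ≤ 0)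
    have t6 := z (by linarith : (3 * (c (.inr 0) : ℤ) - 2 * c (.inl 1)) ^ 2 ≤ 0)
    have t7 := z (by linarith : (2 * (c (.inr 3) : ℤ) - c (.inl 1)) ^ 2 ≤ 0)
    have t8 := z (by linarith : (c (.inl 1) : ℤ) ^ 2 ≤ 0)
    funext i
    rcases i with i | i <;> fin_cases i <;> simp <;> omega

theorem nice_E8 (hq : Good q) (hi : Function.Injective (ev q)) : Nice q CartanMatrix.E₈ :=
  (nice_A8 hq hi).embed
    (f := ![.inl 0, .inr 3, .inr 0, .inl 1, .inr 1, .inl 2, .inr 2, .inl 3]) (by decide)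
    (by intro i j; fin_cases i <;> fin_cases j <;> rfl)

theorem nice_E7 (hq : Good q) (hi : Function.Injective (ev q)) : Nice q CartanMatrix.E₇ :=
  (nice_E8 hq hi).embed (f := Fin.castSucc) (Fin.castSucc_injective _)
    (by intro i j; fin_cases i <;> fin_cases j <;> rfl)

theorem nice_E6 (hq : Good q) (hi : Function.Injective (ev q)) : Nice q CartanMatrix.E₆ :=
  (nice_E7 hq hi).embed (f := Fin.castSucc) (Fin.castSucc_injective _)
    (by intro i j; fin_cases i <;> fin_cases j <;> rfl)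

end Pool.Agent.Lib.MP_4223bd_al
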