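import Mathlib
import Pool.Agent.Lib.MP_4223bd_al.QId

set_option autoImplicit false
set_option linter.unusedSimpArgs false

namespace Pool.Agent.Lib.MP_4223bd_al

/-! The recursion in rank two, cleared of denominators, and the numerators of `B2` at `(2,2)` and
of `G2` at `(3,3)`. -/

variable {K : Type*} [Field K] {q t : K}

def wTwo (t : K) (x u : ℕ) : K := pq t x ^ 2 / (pq t (x - u) * pq t u ^ 2)

def Rec2 (q t : K) (h : ℕ → ℕ → ℕ) (J : ℕ → ℕ → K) : Prop :=
  J 0 0 = 1 ∧ ∀ x y, J x y = ∑ u ∈ Finset.range (x + 1), ∑ v ∈ Finset.range (y + 1),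
    q ^ h u v / (pq q (x - u) * pq t (y - v)) * J u v

def RecN (q t : K) (h : ℕ → ℕ → ℕ) (n : ℕ → ℕ → K) : Prop :=
  n 0 0 = 1 ∧ ∀ x y, n x y = ∑ u ∈ Finset.range (x + 1), ∑ v ∈ Finset.range (y + 1),
    q ^ h u v * wTwo q x u * wTwo t y v * n u v

lemma good_pow (hq : Good q) (d : ℕ) : Good (q ^ (d + 1)) := by
  refine ⟨pow_ne_zero _ hq.1, fun k => ?_⟩
  rw [← pow_mul, show (d + 1) * (k + 1) = (d * k + d + k) + 1 by ring]
  exact hq.2 _

lemma recN_of (hq : Good q) (ht : Good t) {h : ℕ → ℕ → ℕ} {J : ℕ → ℕ → K} (hJ : Rec2 q t h J) :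
    RecN q t h fun x y => (pq q x * pq t y) ^ 2 * J x y := by
  refine ⟨by simp [hJ.1, pq], fun x y => ?_⟩
  beta_reduce
  rw [hJ.2 x y, Finset.mul_sum]
  refine Finset.sum_congr rfl fun u _ => ?_
  rw [Finset.mul_sum]
  refine Finset.sum_congr rfl fun v _ => ?_
  have h1 := pq_ne hq (x - u)
  have h2 := pq_ne hq u
  have h3 := pq_ne ht (y - v)
  have h4 := pq_ne ht v
  simp only [wTwo]
  field_simp

lemma ww_self (ht : Good t) (x : ℕ) : wTwo t x x = 1 := by
  have h := pq_ne ht x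
  rw [wTwo, Nat.sub_self, show pq t 0 = 1 by simp [pq], one_mul, div_self (pow_ne_zero _ h)]

lemma ww_zero (ht : Good t) (x : ℕ) : wTwo t x 0 = pq t x := by
  have h := pq_ne ht x
  rw [wTwo, Nat.sub_zero, show pq t 0 = 1 by simp [pq]]
  field_simp

lemma pq1 : pq t 1 = 1 - t := by simp [pq]

lemma pq2 : pq t 2 = (1 - t) * (1 - t ^ 2) := by simp [pq, Finset.prod_range_succ]

lemma pq3 : pq t 3 = (1 - t) * (1 - t ^ 2) * (1 - t ^ 3) := by simp [pq, Finset.prod_range_succ]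

lemma ww21 (ht : Good t) : wTwo t 2 1 = (1 + t) * (1 - t ^ 2) := by
  have h := pq_ne ht 1
  rw [wTwo, div_eq_iff (mul_ne_zero h (pow_ne_zero _ h)), pq1, pq2]
  ring

lemma ww31 (ht : Good t) : wTwo t 3 1 = (1 + t + t ^ 2) * ((1 - t ^ 2) * (1 - t ^ 3)) := by
  have h := pq_ne ht 1
  have h' := pq_ne ht 2
  rw [wTwo, div_eq_iff (mul_ne_zero h' (pow_ne_zero _ h)), pq1, pq2, pq3]
  ring

lemma ww32 (ht : Good t) : wTwo t 3 2 = (1 + t + t ^ 2) * (1 - t ^ 3) := by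
  have h := pq_ne ht 1
  have h' := pq_ne ht 2
  rw [wTwo, div_eq_iff (mul_ne_zero h (pow_ne_zero _ h')), pq1, pq2, pq3]
  ring

def hTwoB (x y : ℕ) : ℕ := (((x : ℤ) * 2 * x + x * (-2) * y + (y * (-2) * x + y * 4 * y)) / 2).toNat

def hTwoG (x y : ℕ) : ℕ := (((x : ℤ) * 2 * x + x * (-3) * y + (y * (-3) * x + y * 6 * y)) / 2).toNat

theorem numB (hq : Good q) {n : ℕ → ℕ → K} (hn : RecN q (q ^ 2) hTwoB n) :
    n 2 2 = 1 + q + 3 * q ^ 2 + 2 * q ^ 3 + 5 * q ^ 4 + 2 * q ^ 5 + 3 * q ^ 6 + q ^ 7 + q ^ 8 := by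
  have ht : Good (q ^ 2) := good_pow hq 1
  obtain ⟨e00, R⟩ := hn
  have v00 : hTwoB 0 0 = 0 := by decide
  have v01 : hTwoB 0 1 = 2 := by decide
  have v02 : hTwoB 0 2 = 8 := by decide
  have v10 : hTwoB 1 0 = 1 := by decide
  have v11 : hTwoB 1 1 = 1 := by decide
  have v12 : hTwoB 1 2 = 5 := by decide
  have v20 : hTwoB 2 0 = 4 := by decide
  have v21 : hTwoB 2 1 = 2 := by decide
  have v22 : hTwoB 2 2 = 4 := by decide
  have e01 : n 0 1 = 1 := by
    have r := R 0 1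
    simp only [Finset.sum_range_succ, Finset.range_zero, Finset.sum_empty, zero_add,
      ww_self hq, ww_self ht, ww_zero hq, ww_zero ht, ww21 hq, ww21 ht, ww31 hq, ww31 ht,
      ww32 hq, ww32 ht, pq1, pq2, pq3, v00, v01, e00] at r
    apply mul_left_cancel₀ (hq.2 1)
    linear_combination r
  have e10 : n 1 0 = 1 := by
    have r := R 1 0
    simp only [Finset.sum_range_succ, Finset.range_zero, Finset.sum_empty, zero_add,
      ww_self hq, ww_self ht, ww_zero hq, ww_zero ht, ww21 hq, ww21 ht, ww31 hq, ww31 ht,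
      ww32 hq, ww32 ht, pq1, pq2, pq3, v00, v10, e00] at r
    apply mul_left_cancel₀ (hq.2 0)
    linear_combination r
  have e02 : n 0 2 = 1 := by
    have r := R 0 2
    simp only [Finset.sum_range_succ, Finset.range_zero, Finset.sum_empty, zero_add,
      ww_self hq, ww_self ht, ww_zero hq, ww_zero ht, ww21 hq, ww21 ht, ww31 hq, ww31 ht,
      ww32 hq, ww32 ht, pq1, pq2, pq3, v00, v01, v02, e00, e01] at r
    apply mul_left_cancel₀ (hq.2 7)
    linear_combination r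
  have e11 : n 1 1 = 1 + q + q ^ 2 := by
    have r := R 1 1
    simp only [Finset.sum_range_succ, Finset.range_zero, Finset.sum_empty, zero_add,
      ww_self hq, ww_self ht, ww_zero hq, ww_zero ht, ww21 hq, ww21 ht, ww31 hq, ww31 ht,
      ww32 hq, ww32 ht, pq1, pq2, pq3, v00, v01, v10, v11, e00, e01, e10] at r
    apply mul_left_cancel₀ (hq.2 0)
    linear_combination r
  have e20 : n 2 0 = 1 := by
    have r := R 2 0
    simp only [Finset.sum_range_succ, Finset.range_zero, Finset.sum_empty, zero_add,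
      ww_self hq, ww_self ht, ww_zero hq, ww_zero ht, ww21 hq, ww21 ht, ww31 hq, ww31 ht,
      ww32 hq, ww32 ht, pq1, pq2, pq3, v00, v10, v20, e00, e10] at r
    apply mul_left_cancel₀ (hq.2 3)
    linear_combination r
  have e12 : n 1 2 = 1 + q + q ^ 2 + q ^ 3 + q ^ 4 := by
    have r := R 1 2
    simp only [Finset.sum_range_succ, Finset.range_zero, Finset.sum_empty, zero_add,
      ww_self hq, ww_self ht, ww_zero hq, ww_zero ht, ww21 hq, ww21 ht, ww31 hq, ww31 ht,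
      ww32 hq, ww32 ht, pq1, pq2, pq3, v00, v01, v02, v10, v11, v12, e00, e01, e02, e10, e11] at r
    apply mul_left_cancel₀ (hq.2 4)
    linear_combination r
  have e21 : n 2 1 = 1 + q + 3 * q ^ 2 + q ^ 3 + q ^ 4 := by
    have r := R 2 1
    simp only [Finset.sum_range_succ, Finset.range_zero, Finset.sum_empty, zero_add,
      ww_self hq, ww_self ht, ww_zero hq, ww_zero ht, ww21 hq, ww21 ht, ww31 hq, ww31 ht,
      ww32 hq, ww32 ht, pq1, pq2, pq3, v00, v01, v10, v11, v20, v21, e00, e01, e10, e11, e20] at r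
    apply mul_left_cancel₀ (hq.2 1)
    linear_combination r
  have e22 : n 2 2 = 1 + q + 3 * q ^ 2 + 2 * q ^ 3 + 5 * q ^ 4 + 2 * q ^ 5 + 3 * q ^ 6 + q ^ 7 + q ^ 8 := by
    have r := R 2 2
    simp only [Finset.sum_range_succ, Finset.range_zero, Finset.sum_empty, zero_add,
      ww_self hq, ww_self ht, ww_zero hq, ww_zero ht, ww21 hq, ww21 ht, ww31 hq, ww31 ht,
      ww32 hq, ww32 ht, pq1, pq2, pq3, v00, v01, v02, v10, v11, v12, v20, v21, v22, e00, e01, e02, e10, e11, e12, e20, e21] at r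
    apply mul_left_cancel₀ (hq.2 3)
    linear_combination r
  exact e22

theorem numG (hq : Good q) {n : ℕ → ℕ → K} (hn : RecN q (q ^ 3) hTwoG n) :
    n 3 3 = 1 + 2 * q + 5 * q ^ 2 + 11 * q ^ 3 + 16 * q ^ 4 + 24 * q ^ 5 + 39 * q ^ 6 + 46 * q ^ 7 + 60 * q ^ 8 + 84 * q ^ 9 + 88 * q ^ 10 + 99 * q ^ 11 + 119 * q ^ 12 + 110 * q ^ 13 + 110 * q ^ 14 + 119 * q ^ 15 + 99 * q ^ 16 + 88 * q ^ 17 + 84 * q ^ 18 + 60 * q ^ 19 + 46 * q ^ 20 + 39 * q ^ 21 + 24 * q ^ 22 + 16 * q ^ 23 + 11 * q ^ 24 + 5 * q ^ 25 + 2 * q ^ 26 + q ^ 27 := by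
  have ht : Good (q ^ 3) := good_pow hq 2
  obtain ⟨e00, R⟩ := hn
  have v00 : hTwoG 0 0 = 0 := by decide
  have v01 : hTwoG 0 1 = 3 := by decide
  have v02 : hTwoG 0 2 = 12 := by decide
  have v03 : hTwoG 0 3 = 27 := by decide
  have v10 : hTwoG 1 0 = 1 := by decide
  have v11 : hTwoG 1 1 = 1 := by decide
  have v12 : hTwoG 1 2 = 7 := by decide
  have v13 : hTwoG 1 3 = 19 := by decide
  have v20 : hTwoG 2 0 = 4 := by decide
  have v21 : hTwoG 2 1 = 1 := by decide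
  have v22 : hTwoG 2 2 = 4 := by decide
  have v23 : hTwoG 2 3 = 13 := by decide
  have v30 : hTwoG 3 0 = 9 := by decide
  have v31 : hTwoG 3 1 = 3 := by decide
  have v32 : hTwoG 3 2 = 3 := by decide
  have v33 : hTwoG 3 3 = 9 := by decide
  have e01 : n 0 1 = 1 := by
    have r := R 0 1
    simp only [Finset.sum_range_succ, Finset.range_zero, Finset.sum_empty, zero_add,
      ww_self hq, ww_self ht, ww_zero hq, ww_zero ht, ww21 hq, ww21 ht, ww31 hq, ww31 ht,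
      ww32 hq, ww32 ht, pq1, pq2, pq3, v00, v01, e00] at r
    apply mul_left_cancel₀ (hq.2 2)
    linear_combination r
  have e10 : n 1 0 = 1 := by
    have r := R 1 0
    simp only [Finset.sum_range_succ, Finset.range_zero, Finset.sum_empty, zero_add,
      ww_self hq, ww_self ht, ww_zero hq, ww_zero ht, ww21 hq, ww21 ht, ww31 hq, ww31 ht,
      ww32 hq, ww32 ht, pq1, pq2, pq3, v00, v10, e00] at r
    apply mul_left_cancel₀ (hq.2 0)
    linear_combination r
  have e02 : n 0 2 = 1 := by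
    have r := R 0 2
    simp only [Finset.sum_range_succ, Finset.range_zero, Finset.sum_empty, zero_add,
      ww_self hq, ww_self ht, ww_zero hq, ww_zero ht, ww21 hq, ww21 ht, ww31 hq, ww31 ht,
      ww32 hq, ww32 ht, pq1, pq2, pq3, v00, v01, v02, e00, e01] at r
    apply mul_left_cancel₀ (hq.2 11)
    linear_combination r
  have e11 : n 1 1 = 1 + q + q ^ 2 + q ^ 3 := by
    have r := R 1 1
    simp only [Finset.sum_range_succ, Finset.range_zero, Finset.sum_empty, zero_add,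
      ww_self hq, ww_self ht, ww_zero hq, ww_zero ht, ww21 hq, ww21 ht, ww31 hq, ww31 ht,
      ww32 hq, ww32 ht, pq1, pq2, pq3, v00, v01, v10, v11, e00, e01, e10] at r
    apply mul_left_cancel₀ (hq.2 0)
    linear_combination r
  have e20 : n 2 0 = 1 := by
    have r := R 2 0
    simp only [Finset.sum_range_succ, Finset.range_zero, Finset.sum_empty, zero_add,
      ww_self hq, ww_self ht, ww_zero hq, ww_zero ht, ww21 hq, ww21 ht, ww31 hq, ww31 ht,
      ww32 hq, ww32 ht, pq1, pq2, pq3, v00, v10, v20, e00, e10] at r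
    apply mul_left_cancel₀ (hq.2 3)
    linear_combination r
  have e03 : n 0 3 = 1 := by
    have r := R 0 3
    simp only [Finset.sum_range_succ, Finset.range_zero, Finset.sum_empty, zero_add,
      ww_self hq, ww_self ht, ww_zero hq, ww_zero ht, ww21 hq, ww21 ht, ww31 hq, ww31 ht,
      ww32 hq, ww32 ht, pq1, pq2, pq3, v00, v01, v02, v03, e00, e01, e02] at r
    apply mul_left_cancel₀ (hq.2 26)
    linear_combination r
  have e12 : n 1 2 = 1 + q + q ^ 2 + q ^ 3 + q ^ 4 + q ^ 5 + q ^ 6 := by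
    have r := R 1 2
    simp only [Finset.sum_range_succ, Finset.range_zero, Finset.sum_empty, zero_add,
      ww_self hq, ww_self ht, ww_zero hq, ww_zero ht, ww21 hq, ww21 ht, ww31 hq, ww31 ht,
      ww32 hq, ww32 ht, pq1, pq2, pq3, v00, v01, v02, v10, v11, v12, e00, e01, e02, e10, e11] at r
    apply mul_left_cancel₀ (hq.2 6)
    linear_combination r
  have e21 : n 2 1 = 1 + 2 * q + 4 * q ^ 2 + 5 * q ^ 3 + 4 * q ^ 4 + 2 * q ^ 5 + q ^ 6 := by
    have r := R 2 1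
    simp only [Finset.sum_range_succ, Finset.range_zero, Finset.sum_empty, zero_add,
      ww_self hq, ww_self ht, ww_zero hq, ww_zero ht, ww21 hq, ww21 ht, ww31 hq, ww31 ht,
      ww32 hq, ww32 ht, pq1, pq2, pq3, v00, v01, v10, v11, v20, v21, e00, e01, e10, e11, e20] at r
    apply mul_left_cancel₀ (hq.2 0)
    linear_combination r
  have e30 : n 3 0 = 1 := by
    have r := R 3 0
    simp only [Finset.sum_range_succ, Finset.range_zero, Finset.sum_empty, zero_add,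
      ww_self hq, ww_self ht, ww_zero hq, ww_zero ht, ww21 hq, ww21 ht, ww31 hq, ww31 ht,
      ww32 hq, ww32 ht, pq1, pq2, pq3, v00, v10, v20, v30, e00, e10, e20] at r
    apply mul_left_cancel₀ (hq.2 8)
    linear_combination r
  have e13 : n 1 3 = 1 + q + q ^ 2 + q ^ 3 + q ^ 4 + q ^ 5 + q ^ 6 + q ^ 7 + q ^ 8 + q ^ 9 := by
    have r := R 1 3
    simp only [Finset.sum_range_succ, Finset.range_zero, Finset.sum_empty, zero_add,
      ww_self hq, ww_self ht, ww_zero hq, ww_zero ht, ww21 hq, ww21 ht, ww31 hq, ww31 ht,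
      ww32 hq, ww32 ht, pq1, pq2, pq3, v00, v01, v02, v03, v10, v11, v12, v13, e00, e01, e02, e03, e10, e11, e12] at r
    apply mul_left_cancel₀ (hq.2 18)
    linear_combination r
  have e22 : n 2 2 = 1 + 2 * q + 4 * q ^ 2 + 5 * q ^ 3 + 7 * q ^ 4 + 8 * q ^ 5 + 10 * q ^ 6 + 8 * q ^ 7 + 7 * q ^ 8 + 5 * q ^ 9 + 4 * q ^ 10 + 2 * q ^ 11 + q ^ 12 := by
    have r := R 2 2
    simp only [Finset.sum_range_succ, Finset.range_zero, Finset.sum_empty, zero_add,
      ww_self hq, ww_self ht, ww_zero hq, ww_zero ht, ww21 hq, ww21 ht, ww31 hq, ww31 ht,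
      ww32 hq, ww32 ht, pq1, pq2, pq3, v00, v01, v02, v10, v11, v12, v20, v21, v22, e00, e01, e02, e10, e11, e12, e20, e21] at r
    apply mul_left_cancel₀ (hq.2 3)
    linear_combination r
  have e31 : n 3 1 = 1 + 2 * q + 5 * q ^ 2 + 10 * q ^ 3 + 11 * q ^ 4 + 11 * q ^ 5 + 10 * q ^ 6 + 5 * q ^ 7 + 2 * q ^ 8 + q ^ 9 := by
    have r := R 3 1
    simp only [Finset.sum_range_succ, Finset.range_zero, Finset.sum_empty, zero_add,
      ww_self hq, ww_self ht, ww_zero hq, ww_zero ht, ww21 hq, ww21 ht, ww31 hq, ww31 ht,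
      ww32 hq, ww32 ht, pq1, pq2, pq3, v00, v01, v10, v11, v20, v21, v30, v31, e00, e01, e10, e11, e20, e21, e30] at r
    apply mul_left_cancel₀ (hq.2 2)
    linear_combination r
  have e23 : n 2 3 = 1 + 2 * q + 4 * q ^ 2 + 5 * q ^ 3 + 7 * q ^ 4 + 8 * q ^ 5 + 10 * q ^ 6 + 11 * q ^ 7 + 13 * q ^ 8 + 14 * q ^ 9 + 13 * q ^ 10 + 11 * q ^ 11 + 10 * q ^ 12 + 8 * q ^ 13 + 7 * q ^ 14 + 5 * q ^ 15 + 4 * q ^ 16 + 2 * q ^ 17 + q ^ 18 := by
    have r := R 2 3
    simp only [Finset.sum_range_succ, Finset.range_zero, Finset.sum_empty, zero_add,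
      ww_self hq, ww_self ht, ww_zero hq, ww_zero ht, ww21 hq, ww21 ht, ww31 hq, ww31 ht,
      ww32 hq, ww32 ht, pq1, pq2, pq3, v00, v01, v02, v03, v10, v11, v12, v13, v20, v21, v22, v23, e00, e01, e02, e03, e10, e11, e12, e13, e20, e21, e22] at r
    apply mul_left_cancel₀ (hq.2 12)
    linear_combination r
  have e32 : n 3 2 = 1 + 2 * q + 5 * q ^ 2 + 11 * q ^ 3 + 16 * q ^ 4 + 24 * q ^ 5 + 38 * q ^ 6 + 41 * q ^ 7 + 47 * q ^ 8 + 54 * q ^ 9 + 47 * q ^ 10 + 41 * q ^ 11 + 38 * q ^ 12 + 24 * q ^ 13 + 16 * q ^ 14 + 11 * q ^ 15 + 5 * q ^ 16 + 2 * q ^ 17 + q ^ 18 := by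
    have r := R 3 2
    simp only [Finset.sum_range_succ, Finset.range_zero, Finset.sum_empty, zero_add,
      ww_self hq, ww_self ht, ww_zero hq, ww_zero ht, ww21 hq, ww21 ht, ww31 hq, ww31 ht,
      ww32 hq, ww32 ht, pq1, pq2, pq3, v00, v01, v02, v10, v11, v12, v20, v21, v22, v30, v31, v32, e00, e01, e02, e10, e11, e12, e20, e21, e22, e30, e31] at r
    apply mul_left_cancel₀ (hq.2 2)
    linear_combination r
  have e33 : n 3 3 = 1 + 2 * q + 5 * q ^ 2 + 11 * q ^ 3 + 16 * q ^ 4 + 24 * q ^ 5 + 39 * q ^ 6 + 46 * q ^ 7 + 60 * q ^ 8 + 84 * q ^ 9 + 88 * q ^ 10 + 99 * q ^ 11 + 119 * q ^ 12 + 110 * q ^ 13 + 110 * q ^ 14 + 119 * q ^ 15 + 99 * q ^ 16 + 88 * q ^ 17 + 84 * q ^ 18 + 60 * q ^ 19 + 46 * q ^ 20 + 39 * q ^ 21 + 24 * q ^ 22 + 16 * q ^ 23 + 11 * q ^ 24 + 5 * q ^ 25 + 2 * q ^ 26 + q ^ 27 := by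
    have r := R 3 3
    simp only [Finset.sum_range_succ, Finset.range_zero, Finset.sum_empty, zero_add,
      ww_self hq, ww_self ht, ww_zero hq, ww_zero ht, ww21 hq, ww21 ht, ww31 hq, ww31 ht,
      ww32 hq, ww32 ht, pq1, pq2, pq3, v00, v01, v02, v03, v10, v11, v12, v13, v20, v21, v22, v23, v30, v31, v32, v33, e00, e01, e02, e03, e10, e11, e12, e13, e20, e21, e22, e23, e30, e31, e32] at r
    apply mul_left_cancel₀ (hq.2 8)
    linear_combination r
  exact e33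

end Pool.Agent.Lib.MP_4223bd_al
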